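import Pool.Agent.H72.Rel.R2

/-!
# The weights at the parabolic points, continued
-/

set_option autoImplicit false

open Filter Topology Set Metric Pool.Agent.TH289.C Pool.Agent.H72.Dj

namespace Pool.Agent.H72.Rel

variable {G : Type} [Group G] {X : Type} [MetricSpace X]

open Classical in
/-- The term of `g` in the sum. -/
noncomputable def fS (α : G →* (X ≃ₜ X)) (η : ℝ) (q p : X) (g : G) (t : Fin 3 → X) : ℝ :=
  if α g p = q then max 0 (Nr p (act α g⁻¹ t) - η / 2) else 0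

/-- The sum over the cosets of the peripheral groups. -/
noncomputable def sS (α : G →* (X ≃ₜ X)) (Ps : Finset X) (η : ℝ) (q : X) (t : Fin 3 → X) : ℝ :=
  ∑ p ∈ Ps, ∑ᶠ g : G, fS α η q p g t

/-- The weight of `q` at the triple `t`. -/
noncomputable def uW (α : G →* (X ≃ₜ X)) (Ps : Finset X) (η : ℝ) (q : X) (t : Fin 3 → X) : ℝ :=
  max 0 (η / 2 - sS α Ps η q t)

variable {α : G →* (X ≃ₜ X)} {Ps : Finset X} {η : ℝ} {q p : X}

theorem fS_nonneg (g : G) (t : Fin 3 → X) : 0 ≤ fS α η q p g t := by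
  unfold fS
  split_ifs
  · exact le_max_left _ _
  · exact le_rfl

theorem continuous_fS (g : G) : Continuous (fS α η q p g) := by
  unfold fS
  split_ifs
  · exact continuous_const.max (((continuous_Nr p).comp (continuous_act α g⁻¹)).sub
      continuous_const)
  · exact continuous_const

theorem uW_nonneg (t : Fin 3 → X) : 0 ≤ uW α Ps η q t := le_max_left _ _

theorem fS_move (s g : G) (t : Fin 3 → X) :
    fS α η (α s q) p (s * g) (act α s t) = fS α η q p g t := by
  classical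
  unfold fS
  have h1 : α (s * g) p = α s q ↔ α g p = q := by
    rw [map_mul_apply]
    exact (α s).injective.eq_iff
  have h2 : act α (s * g)⁻¹ (act α s t) = act α g⁻¹ t := by
    rw [← act_mul]
    congr 1
    group
  simp only [h1, h2]

theorem sS_move (s : G) (t : Fin 3 → X) : sS α Ps η (α s q) (act α s t) = sS α Ps η q t := by
  unfold sS
  refine Finset.sum_congr rfl fun p _ => ?_
  rw [← finsum_comp_equiv (Equiv.mulLeft s)]
  refine finsum_congr fun g => ?_
  exact fS_move s g t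

theorem uW_move (s : G) (t : Fin 3 → X) : uW α Ps η (α s q) (act α s t) = uW α Ps η q t := by
  unfold uW
  rw [sS_move]

/-- Only finitely many terms are not zero. -/
theorem Rl.finS [CompactSpace X] (hR : Rl α Ps) {p : X} (hp : p ∈ Ps) (q : X) {c ε : ℝ} (hc : 0 < c)
    (hε : 0 < ε) :
    {g : G | α g p = q ∧ ∃ t : Fin 3 → X, c ≤ sep t ∧ ε ≤ Nr p (act α g⁻¹ t)}.Finite := by
  by_contra hinf
  have hinf' : {g : G | α g p = q ∧ ∃ t : Fin 3 → X, c ≤ sep t ∧ ε ≤ Nr p (act α g⁻¹ t)}.Infinite :=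
    hinf
  obtain ⟨e, hg, hgq, t, ht, ht'⟩ : ∃ e : ℕ → G, Function.Injective e ∧ (∀ n, α (e n) p = q) ∧
      ∃ t : ℕ → Fin 3 → X, (∀ n, c ≤ sep (t n)) ∧ ∀ n, ε ≤ Nr p (act α (e n)⁻¹ (t n)) := by
    let e := hinf'.natEmbedding
    choose t ht ht' using fun n => (e n).2.2
    exact ⟨fun n => e n, fun m n h => e.injective (Subtype.ext h), fun n => (e n).2.1, t, ht, ht'⟩
  obtain ⟨t₀, φ, hφ, ht₀⟩ := CompactSpace.tendsto_subseq t
  have hφt := hφ.tendsto_atTop
  have hs0 : c ≤ sep t₀ := ge_of_tendsto ((continuous_sep.tendsto t₀).comp ht₀)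
    (Eventually.of_forall fun n => ht _)
  -- move by the first element
  set g₀ : G := e 0 with hg₀
  set h : ℕ → G := fun n => (e (φ n))⁻¹ * g₀ with hh
  have hhp : ∀ n, α (h n) p = p := by
    intro n
    simp only [hh]
    have e1 : α (e 0) p = α (e (φ n)) p := by rw [hgq, hgq]
    rw [map_mul_apply, hg₀, e1, map_inv_apply]
  have hhinj : Function.Injective h := by
    intro m n hmn
    have h1 := mul_right_cancel hmn
    have h2 := inv_injective h1
    exact hφ.injective (hg h2)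
  have hcof := tendsto_cofinite_of_inj hhinj
  obtain ⟨i, j, hij, hi, hj⟩ := two_of_three (z := act α g₀⁻¹ t₀) (fun i j hij h0 => by
    have := dist_pos.1 ((hc.trans_le hs0).trans_le (sep_le t₀ hij))
    exact this ((α g₀⁻¹).injective h0)) p
  have hlim : ∀ i, act α g₀⁻¹ t₀ i ≠ p →
      Tendsto (fun n => act α (e (φ n))⁻¹ (t (φ n)) i) atTop (𝓝 p) := by
    intro i hi
    have h1 : Tendsto (fun n => α g₀⁻¹ (t (φ n) i)) atTop (𝓝 (α g₀⁻¹ (t₀ i))) :=
      ((α g₀⁻¹).continuous.tendsto _).comp (((continuous_apply i).tendsto t₀).comp ht₀)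
    have h2 := (hR.par p hp).tendsto hhp hcof h1 hi
    refine h2.congr fun n => ?_
    rw [← map_mul_apply]
    simp only [hh, act]
    rw [mul_inv_cancel_right]
  have e1 := (Metric.tendsto_nhds.1 (hlim i hi)) ε hε
  have e2 := (Metric.tendsto_nhds.1 (hlim j hj)) ε hε
  obtain ⟨n, hn1, hn2⟩ := (e1.and e2).exists
  have h3 : Nr p (act α (e (φ n))⁻¹ (t (φ n))) < ε := Nr_lt.2 ⟨i, j, hij, hn1, hn2⟩
  exact absurd (ht' (φ n)) (not_le.2 h3)

theorem fS_ne {g : G} {t : Fin 3 → X} (h : fS α η q p g t ≠ 0) :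
    α g p = q ∧ η / 2 < Nr p (act α g⁻¹ t) := by
  unfold fS at h
  split_ifs at h with h1
  · refine ⟨h1, ?_⟩
    by_contra h2
    apply h
    exact max_eq_left (by linarith)
  · exact absurd rfl h

theorem Rl.supp_fin [CompactSpace X] (hR : Rl α Ps) {p : X} (hp : p ∈ Ps) (q : X) (hη : 0 < η)
    {t : Fin 3 → X} (ht : 0 < sep t) : (Function.support fun g => fS α η q p g t).Finite := by
  refine (hR.finS hp q ht (half_pos hη)).subset fun g hg => ?_
  obtain ⟨h1, h2⟩ := fS_ne hg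
  exact ⟨h1, t, le_rfl, h2.le⟩

theorem Rl.continuousAt_sS [CompactSpace X] (hR : Rl α Ps) (q : X) (hη : 0 < η)
    {t : Fin 3 → X} (ht : 0 < sep t) : ContinuousAt (sS α Ps η q) t := by
  unfold sS
  refine tendsto_finsetSum _ fun p hp => ?_
  have h1 : ∀ᶠ t' in 𝓝 t, sep t / 2 < sep t' :=
    continuous_sep.continuousAt.eventually_const_lt (by linarith)
  have hfin := hR.finS hp q (half_pos ht) (half_pos hη)
  have h2 : (fun t' => ∑ g ∈ hfin.toFinset, fS α η q p g t')
      =ᶠ[𝓝 t] fun t' => ∑ᶠ g, fS α η q p g t' := by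
    filter_upwards [h1] with t' ht'
    refine (finsum_eq_sum_of_support_subset _ fun g hg => ?_).symm
    obtain ⟨h3, h4⟩ := fS_ne hg
    simp only [Finite.coe_toFinset]
    exact ⟨h3, t', ht'.le, h4.le⟩
  have h3 : ContinuousAt (fun t' => ∑ g ∈ hfin.toFinset, fS α η q p g t') t :=
    (continuous_finsetSum _ fun g _ => continuous_fS g).continuousAt
  exact h3.congr h2

theorem Rl.continuousAt_uW [CompactSpace X] (hR : Rl α Ps) (q : X) (hη : 0 < η)
    {t : Fin 3 → X} (ht : 0 < sep t) : ContinuousAt (uW α Ps η q) t :=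
  continuousAt_const.max (continuousAt_const.sub (hR.continuousAt_sS q hη ht))

/-- Triples with positive weight are deep. -/
theorem Rl.deep_of_pos [CompactSpace X] (hR : Rl α Ps) (hη : 0 < η)
    {t : Fin 3 → X} (ht : 0 < sep t) (h : 0 < uW α Ps η q t) : Deep α Ps η q t := by
  intro p hp g hg
  have h1 : sS α Ps η q t < η / 2 := by
    by_contra h0
    have : uW α Ps η q t = 0 := max_eq_left (by linarith)
    exact h.ne' this
  have h2 : ∑ᶠ g, fS α η q p g t ≤ sS α Ps η q t :=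
    Finset.single_le_sum (f := fun p => ∑ᶠ g, fS α η q p g t)
      (fun p _ => finsum_nonneg fun g => fS_nonneg g t) hp
  have h3 : fS α η q p g t ≤ ∑ᶠ g, fS α η q p g t :=
    single_le_finsum g (hR.supp_fin hp q hη ht) fun g => fS_nonneg g t
  have h4 : Nr p (act α g⁻¹ t) - η / 2 ≤ fS α η q p g t := by
    unfold fS
    rw [if_pos hg]
    exact le_max_right _ _
  linarith

theorem pos_of_deep (hη : 0 < η) {t : Fin 3 → X}
    (h : ∀ p ∈ Ps, ∀ g, α g p = q → Nr p (act α g⁻¹ t) ≤ η / 2) : 0 < uW α Ps η q t := by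
  have h1 : sS α Ps η q t = 0 := by
    unfold sS
    refine Finset.sum_eq_zero fun p hp => ?_
    have h2 : ∀ g, fS α η q p g t = 0 := by
      intro g
      by_contra h0
      obtain ⟨h3, h4⟩ := fS_ne h0
      exact absurd (h p hp g h3) (not_le.2 h4)
    simp only [h2, finsum_zero]
  unfold uW
  rw [h1, sub_zero]
  exact lt_max_of_lt_right (half_pos hη)

/-- The properties of the weights at the parabolic points. -/
structure DomW (α : G →* (X ≃ₜ X)) (Q : Set X) (u : X → (Fin 3 → X) → ℝ) (ε : ℝ) : Prop where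
  conv : IsConvergenceAction α
  inv : ∀ q ∈ Q, ∀ g, α g q ∈ Q
  attract : ∀ (g : ℕ → G) (ξ y : X), Conv α g ξ y → ∀ q ∈ Q,
    Tendsto (fun k => α (g k) q) atTop (𝓝 ξ)
  nonneg : ∀ q t, 0 ≤ u q t
  zero : ∀ q, q ∉ Q → ∀ t, u q t = 0
  cont : ∀ q t, 0 < sep t → ContinuousAt (u q) t
  move : ∀ q t g, u (α g q) (act α g t) = u q t
  locfin : ∀ t, 0 < sep t → ∃ F : Set X, F.Finite ∧ ∀ᶠ t' in 𝓝 t, ∀ q ∈ Q, 0 < u q t' → q ∈ F
  disj : ∀ q ∈ Q, ∀ q' ∈ Q, q ≠ q' → ∀ t, 0 < sep t → 0 < u q t → ¬ 0 < u q' t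
  near : ∀ ξ, ∀ U ∈ 𝓝 ξ, ∃ ε > 0, ∀ t : Fin 3 → X, 0 < sep t → Near ξ ε t → ∀ q ∈ Q,
    0 < u q t → q ∈ U
  pos : 0 < ε
  cover : ∀ t : Fin 3 → X, 0 < sep t → (∃ g, ε ≤ sep (act α g t)) ∨ ∃ q ∈ Q, 0 < u q t

/-- The thick part of the space of triples and the horoballs cover the space of triples. -/
def Cusp (α : G →* (X ≃ₜ X)) (Ps : Finset X) : Prop :=
  ∀ η > 0, ∃ ε > 0, ∀ t : Fin 3 → X, 0 < sep t → (∃ g, ε ≤ sep (act α g t)) ∨
    ∃ g, ∃ p ∈ Ps, ∀ h, α h p = p → Near p η (act α h (act α g t))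

open Classical in
/-- The weight, extended by zero. -/
noncomputable def uX (α : G →* (X ≃ₜ X)) (Ps : Finset X) (η : ℝ) (q : X) (t : Fin 3 → X) : ℝ :=
  if q ∈ Q α Ps then uW α Ps η q t else 0

theorem uX_of {q : X} (hq : q ∈ Q α Ps) (t : Fin 3 → X) : uX α Ps η q t = uW α Ps η q t := by
  classical
  exact if_pos hq

theorem uX_not {q : X} (hq : q ∉ Q α Ps) (t : Fin 3 → X) : uX α Ps η q t = 0 := by
  classical
  exact if_neg hq

theorem Rl.exists_domW [CompactSpace X] [Infinite X] (hR : Rl α Ps) (hC : Cusp α Ps) :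
    ∃ (u : X → (Fin 3 → X) → ℝ) (ε : ℝ), DomW α (Q α Ps) u ε := by
  obtain ⟨r, hr0, hr⟩ := hR.exists_r
  have hrad : Rad α Ps r := ⟨hr0, hr⟩
  obtain ⟨η, hη, hηr, hdisj⟩ := hR.disj hrad
  obtain ⟨ε, hε, hcov⟩ := hC (η / 2) (half_pos hη)
  refine ⟨uX α Ps η, ε, hR.conv, fun q hq g => Q_inv hq g, ?_, ?_, fun q hq t => uX_not hq t,
    ?_, ?_, ?_, ?_, ?_, hε, ?_⟩
  · rintro g ξ y hg _ ⟨p, hp, s, rfl⟩
    have h1 := (hR.par p hp).attract hR.conv (hg.mul_right s)
    refine h1.congr fun n => ?_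
    rw [map_mul_apply]
  · intro q t
    by_cases hq : q ∈ Q α Ps
    · rw [uX_of hq]; exact uW_nonneg t
    · rw [uX_not hq]
  · intro q t ht
    by_cases hq : q ∈ Q α Ps
    · have e : uX α Ps η q = uW α Ps η q := funext fun t => uX_of hq t
      rw [e]; exact hR.continuousAt_uW q hη ht
    · have e : uX α Ps η q = fun _ => 0 := funext fun t => uX_not hq t
      rw [e]; exact continuousAt_const
  · intro q t g
    by_cases hq : q ∈ Q α Ps
    · rw [uX_of hq, uX_of (Q_inv hq g), uW_move]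
    · rw [uX_not hq, uX_not fun h => hq ?_]
      have := Q_inv h g⁻¹
      rwa [map_inv_apply] at this
  · intro t ht
    obtain ⟨F, hF, hF'⟩ := hR.locfin hrad ht
    refine ⟨F, hF, ?_⟩
    have h1 : ∀ᶠ t' in 𝓝 t, 0 < sep t' := continuous_sep.continuousAt.eventually_const_lt ht
    filter_upwards [hF', h1] with t' ht' hs q hq hu
    rw [uX_of hq] at hu
    exact ht' q hq ((hR.deep_of_pos hη hs hu).mono hηr)
  · intro q hq q' hq' hne t ht hu hu'
    rw [uX_of hq] at hu
    rw [uX_of hq'] at hu'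
    exact hdisj q hq q' hq' hne t (hR.deep_of_pos hη ht hu) (hR.deep_of_pos hη ht hu')
  · intro ξ U hU
    obtain ⟨ε', hε', h⟩ := hR.near hrad ξ hU
    refine ⟨ε', hε', fun t ht hn q hq hu => ?_⟩
    rw [uX_of hq] at hu
    exact h t hn q hq ((hR.deep_of_pos hη ht hu).mono hηr)
  · intro t ht
    rcases hcov t ht with h | ⟨g, p, hp, h⟩
    · exact Or.inl h
    · refine Or.inr ⟨α g⁻¹ p, ⟨p, hp, g⁻¹, rfl⟩, ?_⟩
      rw [uX_of ⟨p, hp, g⁻¹, rfl⟩]
      refine pos_of_deep hη ?_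
      intro p' hp' s hs
      have e1 : α (g * s) p' = p := by rw [map_mul_apply, hs, map_inv_apply']
      have e2 : p' = p := by
        have := hR.ineq p' hp' (g * s) (by rw [e1]; exact hp)
        rw [← this, e1]
      subst e2
      have e3 := h (g * s)⁻¹ (fix_inv e1)
      rw [← act_mul] at e3
      have e4 : (g * s)⁻¹ * g = s⁻¹ := by group
      rw [e4] at e3
      exact (Nr_lt.2 e3).le

end Pool.Agent.H72.Rel
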