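import Pool.Agent.H72.Rel.R4
import Pool.Graph.R_pool_sql_team_seeded_ab47071d.TH631.RC.Par2

/-!
# Cusps of full rank in hyperbolic space
-/

set_option autoImplicit false

open Filter Topology Set Metric Pool.Agent.TH631.RC

namespace Pool.Agent.H72.Rel

variable {E : Type} [NormedAddCommGroup E] [InnerProductSpace ℝ E]
variable {G : Type} [Group G] {ρ : HypAction G E}

/-- The closed future cone without the origin. -/
def Cl (v : ℝ × E) : Prop := ‖v.2‖ ≤ v.1 ∧ 0 < v.1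

theorem lor_self (v : ℝ × E) : lor v v = v.1 ^ 2 - ‖v.2‖ ^ 2 := by
  unfold lor
  rw [real_inner_self_eq_norm_sq]; ring

theorem cl_light (x : Sp E) : Cl (light (x : E)) := ⟨by simp [light], by simp [light]⟩

theorem cl_o : Cl ((1, 0) : ℝ × E) := ⟨by simp, by simp⟩

theorem Cl.smul {v : ℝ × E} (hv : Cl v) {c : ℝ} (hc : 0 < c) : Cl (c • v) := by
  refine ⟨?_, ?_⟩
  · rw [Prod.smul_snd, norm_smul, Real.norm_of_nonneg hc.le, Prod.smul_fst, smul_eq_mul]
    exact mul_le_mul_of_nonneg_left hv.1 hc.le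
  · rw [Prod.smul_fst, smul_eq_mul]
    exact mul_pos hc hv.2

theorem Cl.lor_nonneg_self {v : ℝ × E} (hv : Cl v) : 0 ≤ lor v v := by
  rw [lor_self]
  nlinarith [hv.1, norm_nonneg v.2, hv.2]

theorem Cl.map {v : ℝ × E} (hv : Cl v) (g : G) : Cl (ρ.map g v) := by
  have h1 := ρ.lor_map g v v
  have h2 := hv.lor_nonneg_self
  have h3 : 0 < (ρ.map g v).1 := by
    rw [fst_map]
    have e1 := real_inner_le_norm v.2 (U ρ g⁻¹)
    have e2 := U_lt (ρ := ρ) g⁻¹
    rw [T_inv] at e2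
    have e3 : ‖v.2‖ * ‖U ρ g⁻¹‖ ≤ v.1 * ‖U ρ g⁻¹‖ :=
      mul_le_mul_of_nonneg_right hv.1 (norm_nonneg _)
    have e4 : v.1 * ‖U ρ g⁻¹‖ < v.1 * T ρ g := mul_lt_mul_of_pos_left e2 hv.2
    linarith
  refine ⟨?_, h3⟩
  rw [← h1, lor_self] at h2
  have := norm_nonneg (ρ.map g v).2
  nlinarith

theorem Cl.lor_ge {v w : ℝ × E} (hw : Cl w) : (v.1 - ‖v.2‖) * w.1 ≤ lor v w := by
  unfold lor
  have h1 := real_inner_le_norm v.2 w.2
  have h2 : ‖v.2‖ * ‖w.2‖ ≤ ‖v.2‖ * w.1 := mul_le_mul_of_nonneg_left hw.1 (norm_nonneg _)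
  nlinarith

theorem Cl.lor_nonneg {v w : ℝ × E} (hv : Cl v) (hw : Cl w) : 0 ≤ lor v w := by
  have := hw.lor_ge (v := v)
  have h1 := hv.1
  have h2 := hw.2
  nlinarith

theorem Cl.lor_le {v w : ℝ × E} (hv : Cl v) (hw : Cl w) : lor v w ≤ 2 * (v.1 * w.1) := by
  unfold lor
  have h1 := abs_real_inner_le_norm v.2 w.2
  have h2 := neg_abs_le (inner ℝ v.2 w.2)
  have h3 : ‖v.2‖ * ‖w.2‖ ≤ v.1 * w.1 := mul_le_mul hv.1 hw.1 (norm_nonneg _) hv.2.le
  linarith

theorem Cl.fst_map_le {v : ℝ × E} (hv : Cl v) (g : G) : (ρ.map g v).1 ≤ 2 * (T ρ g * v.1) := by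
  rw [fst_map]
  have e1 := abs_real_inner_le_norm v.2 (U ρ g⁻¹)
  have e0 := neg_abs_le (inner ℝ v.2 (U ρ g⁻¹))
  have e2 := U_lt (ρ := ρ) g⁻¹
  rw [T_inv] at e2
  have h3 : ‖v.2‖ * ‖U ρ g⁻¹‖ ≤ v.1 * T ρ g := mul_le_mul hv.1 e2.le (norm_nonneg _) hv.2.le
  linarith

theorem Cl.add {v w : ℝ × E} (hv : Cl v) (hw : Cl w) : Cl (v + w) :=
  ⟨(norm_add_le _ _).trans (add_le_add hv.1 hw.1), add_pos hv.2 hw.2⟩

section Horo

variable (c : Sp E)

/-- Euclidean space as a horosphere. -/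
noncomputable def lam (y : (ℝ ∙ (c : E))ᗮ) : ℝ × E :=
  ((‖y‖ ^ 2 + 1) / 2, ((‖y‖ ^ 2 - 1) / 2) • (c : E) + (y : E))

variable {c}

theorem inner_c (y : (ℝ ∙ (c : E))ᗮ) : inner ℝ (c : E) (y : E) = 0 :=
  Submodule.mem_orthogonal_singleton_iff_inner_right.1 y.2

theorem inner_c' (y : (ℝ ∙ (c : E))ᗮ) : inner ℝ (y : E) (c : E) = 0 := by
  rw [real_inner_comm]; exact inner_c y

theorem lam_light (y : (ℝ ∙ (c : E))ᗮ) : lor (lam c y) (light (c : E)) = 1 := by
  simp only [lor, lam, light, inner_add_left, real_inner_smul_left, inner_self_one, inner_c']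
  ring

theorem lam_lam (y y' : (ℝ ∙ (c : E))ᗮ) : lor (lam c y) (lam c y') = ‖y - y'‖ ^ 2 / 2 := by
  rw [@norm_sub_sq_real, Submodule.coe_inner]
  simp only [lor, lam, inner_add_left, inner_add_right, real_inner_smul_left,
    real_inner_smul_right, inner_self_one, inner_c, inner_c']
  ring

theorem lam_null (y : (ℝ ∙ (c : E))ᗮ) : lor (lam c y) (lam c y) = 0 := by
  rw [lam_lam, sub_self, norm_zero]; norm_num

theorem exists_lam {v : ℝ × E} (hv : lor v v = 0) (h1 : lor v (light (c : E)) = 1) :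
    ∃ y, lam c y = v := by
  set x := inner ℝ v.2 (c : E) with hx
  have hy : v.2 - x • (c : E) ∈ (ℝ ∙ (c : E))ᗮ := by
    rw [Submodule.mem_orthogonal_singleton_iff_inner_right, inner_sub_right, inner_smul_right,
      inner_self_one, real_inner_comm, ← hx]
    ring
  have e1 : v.1 - x = 1 := by
    simp only [lor, light] at h1
    rw [hx]; linarith
  have e2 : ‖v.2 - x • (c : E)‖ ^ 2 = ‖v.2‖ ^ 2 - x ^ 2 := by
    rw [@norm_sub_sq_real, inner_smul_right, ← hx, norm_smul, nrm, Real.norm_eq_abs, mul_one, sq_abs]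
    ring
  rw [lor_self] at hv
  have e3 : ‖v.2 - x • (c : E)‖ ^ 2 = v.1 + x := by
    rw [e2]
    have : v.1 ^ 2 - x ^ 2 = (v.1 - x) * (v.1 + x) := by ring
    rw [e1, one_mul] at this
    linarith
  refine ⟨⟨_, hy⟩, Prod.ext ?_ ?_⟩
  · simp only [lam, Submodule.coe_norm, e3]
    linarith
  · simp only [lam, Submodule.coe_norm, e3]
    have : (v.1 + x - 1) / 2 = x := by linarith
    rw [this]
    abel

theorem lam_inj {y y' : (ℝ ∙ (c : E))ᗮ} (h : lam c y = lam c y') : y = y' := by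
  have h1 := lam_lam y y'
  rw [← h, lam_null] at h1
  have h2 : ‖y - y'‖ = 0 := by
    have : ‖y - y'‖ ^ 2 = 0 := by linarith
    exact pow_eq_zero_iff (two_ne_zero) |>.1 this
  exact sub_eq_zero.1 (norm_eq_zero.1 h2)

theorem o_eq : ((1 : ℝ), (0 : E)) = lam c 0 + (1 / 2 : ℝ) • light (c : E) := by
  refine Prod.ext ?_ ?_
  · simp only [lam, light, norm_zero, Prod.fst_add, Prod.smul_fst, smul_eq_mul]
    norm_num
  · simp only [lam, light, norm_zero, Prod.snd_add, Prod.smul_snd, Submodule.coe_zero, add_zero,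
      ← add_smul]
    norm_num

theorem T_eq_lam {g : G} (hg : ρ.map g (light (c : E)) = light (c : E))
    {y : (ℝ ∙ (c : E))ᗮ} (hy : lam c y = ρ.map g (lam c 0)) : T ρ g = 1 + ‖y‖ ^ 2 / 2 := by
  change (ρ.map g (1, 0)).1 = _
  rw [o_eq (c := c), map_add, map_smul, hg, ← hy]
  simp only [lam, light, Prod.fst_add, Prod.smul_fst, smul_eq_mul]
  ring

/-- Full rank cusps: null vectors on a horosphere have translates of bounded height. -/
theorem cusp_coc [FiniteDimensional ℝ E] {n : ℕ} (hn : Module.finrank ℝ E = n + 1)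
    (hfin : ∀ R : ℝ, {g : G | T ρ g ≤ R}.Finite) {ψ : Multiplicative (Fin n → ℤ) →* G}
    (hψ : Function.Injective ψ) (hfix : ∀ a, ρ.map (ψ a) (light (c : E)) = light (c : E)) :
    ∃ C : ℝ, ∀ v : ℝ × E, lor v v = 0 → lor v (light (c : E)) = 1 →
      ∃ a, (ρ.map (ψ a) v).1 ≤ C := by
  have hex : ∀ (a : Fin n → ℤ) (y : (ℝ ∙ (c : E))ᗮ), ∃ y', lam c y' =
      ρ.map (ψ (Multiplicative.ofAdd a)) (lam c y) := by
    intro a y
    refine exists_lam ?_ ?_
    · rw [ρ.lor_map, lam_null]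
    · conv_lhs => rw [← hfix (Multiplicative.ofAdd a)]
      rw [ρ.lor_map, lam_light]
  choose σ hσ using hex
  have hfr : Module.finrank ℝ (ℝ ∙ (c : E))ᗮ = n := by
    have : Fact (Module.finrank ℝ E = n + 1) := ⟨hn⟩
    refine Submodule.finrank_orthogonal_span_singleton ?_
    intro h0
    have := nrm c
    rw [h0, norm_zero] at this
    norm_num at this
  obtain ⟨C, hC⟩ := zn_cocompact hfr σ (fun y => by
    apply lam_inj (c := c)
    rw [hσ, ofAdd_zero, map_one, ρ.map_one]) (fun a b y => by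
    apply lam_inj (c := c)
    rw [hσ, hσ, hσ, ofAdd_add, map_mul, ρ.map_mul]) (fun a y y' => by
    have h1 := lam_lam (c := c) (σ a y) (σ a y')
    rw [hσ, hσ, ρ.lor_map, lam_lam] at h1
    rw [dist_eq_norm, dist_eq_norm]
    have e1 := norm_nonneg (σ a y - σ a y')
    have e2 := norm_nonneg (y - y')
    have e3 : ‖σ a y - σ a y'‖ ^ 2 = ‖y - y'‖ ^ 2 := by linarith
    exact (sq_eq_sq₀ e1 e2).1 e3) (fun r => by
    have h1 := (hfin (1 + r ^ 2 / 2)).preimage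
      (f := fun a : Fin n → ℤ => ψ (Multiplicative.ofAdd a))
      ((hψ.comp Multiplicative.ofAdd.injective).injOn)
    refine h1.subset fun a ha => ?_
    have h2 : ‖σ a 0‖ ≤ r := ha
    change T ρ _ ≤ _
    rw [T_eq_lam (hfix _) (hσ a 0)]
    have := norm_nonneg (σ a 0)
    nlinarith)
  refine ⟨(C ^ 2 + 1) / 2, fun v hv1 hv2 => ?_⟩
  obtain ⟨y, rfl⟩ := exists_lam hv1 hv2
  obtain ⟨a, ha⟩ := hC y
  refine ⟨Multiplicative.ofAdd a, ?_⟩
  rw [← hσ]
  simp only [lam]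
  have := norm_nonneg (σ a y)
  nlinarith

end Horo

end Pool.Agent.H72.Rel
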