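import Pool.Agent.H72.Rel.R3
import Pool.Agent.H72.Rel.R5

/-!
# The cusps of the action on hyperbolic space
-/

set_option autoImplicit false

open Filter Topology Set Metric Pool.Agent.TH631.RC

namespace Pool.Agent.H72.Rel

variable {E : Type} [NormedAddCommGroup E] [InnerProductSpace ℝ E]
variable {G : Type} [Group G] {ρ : HypAction G E} {X : Type} [MetricSpace X]
variable {α : G →* (X ≃ₜ X)} {Ps : Finset X}

theorem cl_lam {c : Sp E} (y : (ℝ ∙ (c : E))ᗮ) : Cl (lam c y) := by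
  have h1 := lam_null y
  rw [lor_self] at h1
  have h2 : 0 < (lam c y).1 := by
    simp only [lam]
    have := norm_nonneg y
    positivity
  refine ⟨?_, h2⟩
  have := norm_nonneg (lam c y).2
  nlinarith

theorem null_eq {v : ℝ × E} (h0 : lor v v = 0) {c : Sp E}
    (h : lor v (light (c : E)) = 0) : v = v.1 • light (c : E) := by
  rw [lor_self] at h0
  have h1 : v.1 = inner ℝ v.2 (c : E) := by
    simp only [lor, light] at h
    linarith
  have h2 : ‖v.2 - v.1 • (c : E)‖ ^ 2 = 0 := by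
    rw [@norm_sub_sq_real, inner_smul_right, ← h1, norm_smul, nrm, Real.norm_eq_abs, mul_one, sq_abs]
    linarith
  have h3 : v.2 = v.1 • (c : E) := by
    have := pow_eq_zero_iff (two_ne_zero) |>.1 h2
    exact sub_eq_zero.1 (norm_eq_zero.1 this)
  refine Prod.ext ?_ ?_
  · simp [light]
  · simp only [light, Prod.smul_snd]
    exact h3

/-- The peripheral groups fix light vectors and act cocompactly on horospheres. -/
structure Cu (ρ : HypAction G E) (α : G →* (X ≃ₜ X)) (Ps : Finset X) (c : X → Sp E) : Prop where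
  fix : ∀ p ∈ Ps, ∀ g, α g p = p → ρ.map g (light (c p : E)) = light (c p : E)
  coc : ∀ p ∈ Ps, ∃ C : ℝ, ∀ v : ℝ × E, lor v v = 0 → lor v (light (c p : E)) = 1 →
      ∃ g, α g p = p ∧ (ρ.map g v).1 ≤ C

/-- The stabilizer. -/
def stab (α : G →* (X ≃ₜ X)) (p : X) : Subgroup G where
  carrier := {g | α g p = p}
  one_mem' := by simp
  mul_mem' := fun {a b} ha hb => by
    have ha' : α a p = p := ha
    have hb' : α b p = p := hb
    change α (a * b) p = p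
    rw [Dj.map_mul_apply, hb', ha']
  inv_mem' := fun {a} ha => fix_inv ha

/-- The peripheral group of `p` is virtually `ℤ ^ n`. -/
def VZn (n : ℕ) (α : G →* (X ≃ₜ X)) (p : X) : Prop :=
  ∃ ψ : Multiplicative (Fin n → ℤ) →* G, Function.Injective ψ ∧ (∀ a, α (ψ a) p = p) ∧
    ∃ S : Finset G, ∀ g, α g p = p → ∃ a, ∃ s ∈ S, g = ψ a * s

theorem VZn.virt {n : ℕ} (hn : 2 ≤ n) {p : X} (h : VZn n α p) : VirtAbelian (stab α p) := by
  obtain ⟨ψ, hψ, hfix, S, hS⟩ := h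
  let i₀ : Fin n := ⟨0, by omega⟩
  let i₁ : Fin n := ⟨1, by omega⟩
  have hi : i₀ ≠ i₁ := by simp [i₀, i₁, Fin.ext_iff]
  refine ⟨ψ.range, S, ?_, ?_, ?_, ψ (Multiplicative.ofAdd (Pi.single i₀ 1)), ⟨_, rfl⟩,
    ψ (Multiplicative.ofAdd (Pi.single i₁ 1)), ⟨_, rfl⟩, ?_⟩
  · rintro _ ⟨a, rfl⟩
    exact hfix a
  · rintro _ ⟨a, rfl⟩ _ ⟨b, rfl⟩
    rw [← map_mul, ← map_mul, mul_comm]
  · intro g hg
    obtain ⟨a, s, hs, h⟩ := hS g hg
    exact ⟨ψ a, ⟨a, rfl⟩, s, hs, h⟩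
  · rintro ⟨a, b⟩ ⟨a', b'⟩ h
    simp only [← map_zpow, ← map_mul] at h
    have h1 := hψ h
    have h2 : a • (Pi.single i₀ 1 : Fin n → ℤ) + b • Pi.single i₁ 1 =
        a' • Pi.single i₀ 1 + b' • Pi.single i₁ 1 := congrArg Multiplicative.toAdd h1
    have h3 := congrFun h2 i₀
    have h4 := congrFun h2 i₁
    simp only [Pi.add_apply, Pi.smul_apply, Pi.single_eq_same, Pi.single_eq_of_ne hi,
      Pi.single_eq_of_ne hi.symm, smul_eq_mul, mul_one, mul_zero, add_zero, zero_add] at h3 h4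
    rw [h3, h4]

theorem exists_ne_sp (c : Sp E) : ∃ x : Sp E, x ≠ c := by
  refine ⟨⟨-(c : E), by simp⟩, fun h => ?_⟩
  have h1 : -(c : E) = c := congrArg Subtype.val h
  have h2 : (c : E) = 0 := by
    have : (2 : ℝ) • (c : E) = 0 := by
      rw [two_smul]; nth_rewrite 1 [← h1]; simp
    simpa using this
  have h3 := nrm c
  rw [h2, norm_zero] at h3
  norm_num at h3

theorem exists_cu [FiniteDimensional ℝ E] {n : ℕ} (hn : 2 ≤ n) (hE : Module.finrank ℝ E = n + 1)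
    (hfin : ∀ R : ℝ, {g : G | T ρ g ≤ R}.Finite) (hV : ∀ p ∈ Ps, VZn n α p) :
    ∃ c : X → Sp E, Cu ρ α Ps c := by
  have hE1 : 1 < Module.finrank ℝ E := by omega
  have hne : Nonempty (Sp E) := by
    have : Nontrivial E := Module.nontrivial_of_finrank_pos (R := ℝ) (by omega)
    exact (NormedSpace.sphere_nonempty.2 zero_le_one).to_subtype
  have h1 : ∀ p : X, ∃ c : Sp E, p ∈ Ps →
      (∀ g, α g p = p → ρ.map g (light (c : E)) = light (c : E)) ∧
      ∃ C : ℝ, ∀ v : ℝ × E, lor v v = 0 → lor v (light (c : E)) = 1 →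
        ∃ g, α g p = p ∧ (ρ.map g v).1 ≤ C := by
    intro p
    by_cases hp : p ∈ Ps
    swap
    · exact ⟨Classical.arbitrary _, fun h => absurd h hp⟩
    obtain ⟨c, hPC, hfix, -⟩ := peripheral hE1 hfin ((hV p hp).virt hn)
    obtain ⟨x, hx⟩ := exists_ne_sp c
    have hmap : ∀ g, α g p = p → ρ.map g (light (c : E)) = light (c : E) := by
      intro g hg
      have hc := hfix g hg
      have h1 := not_contracting hPC hg hc hx
      have h2 := not_contracting hPC ((stab α p).inv_mem hg) (hfix _ ((stab α p).inv_mem hg)) hx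
      have h3 := (tt_mul (ρ := ρ) g⁻¹ g c).1
      rw [inv_mul_cancel, tt_one, hc] at h3
      have p1 := tt_pos (ρ := ρ) g c
      have p2 := tt_pos (ρ := ρ) g⁻¹ c
      push Not at h1 h2
      have h4 : tt ρ g c = 1 := by nlinarith
      rw [map_light, hc, h4, one_smul]
    refine ⟨c, fun _ => ⟨hmap, ?_⟩⟩
    obtain ⟨ψ, hψ, hψp, -⟩ := hV p hp
    obtain ⟨C, hC⟩ := cusp_coc (ρ := ρ) (c := c) hE hfin hψ fun a => hmap _ (hψp a)
    refine ⟨C, fun v hv1 hv2 => ?_⟩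
    obtain ⟨a, ha⟩ := hC v hv1 hv2
    exact ⟨ψ a, hψp a, ha⟩
  choose c hc using h1
  exact ⟨c, fun p hp => (hc p hp).1, fun p hp => (hc p hp).2⟩

/-- The light vectors of all parabolic points. -/
theorem Cu.exists_ell {c : X → Sp E} (hc : Cu ρ α Ps c) (hR : Rl α Ps) :
    ∃ ℓ : X → ℝ × E, ∀ p ∈ Ps, ∀ g, ℓ (α g p) = ρ.map g (light (c p : E)) := by
  have hex : ∀ q : X, ∃ (p : X) (g : G), q ∈ Q α Ps → p ∈ Ps ∧ α g p = q := by
    intro q
    by_cases hq : q ∈ Q α Ps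
    · obtain ⟨p, hp, g, hg⟩ := hq
      exact ⟨p, g, fun _ => ⟨hp, hg⟩⟩
    · exact ⟨q, 1, fun h => absurd h hq⟩
  choose pr gr hpg using hex
  refine ⟨fun q => ρ.map (gr q) (light (c (pr q) : E)), fun p hp g => ?_⟩
  obtain ⟨h1, h2⟩ := hpg (α g p) ⟨p, hp, g, rfl⟩
  have h3 : α (g⁻¹ * gr (α g p)) (pr (α g p)) = p := by
    rw [Dj.map_mul_apply, h2, Dj.map_inv_apply]
  have h4 : pr (α g p) = p := by
    have := hR.ineq _ h1 (g⁻¹ * gr (α g p)) (by rw [h3]; exact hp)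
    rw [← this, h3]
  simp only
  rw [h4] at h3 ⊢
  have h5 := hc.fix p hp _ h3
  rw [ρ.map_mul] at h5
  have h6 := congrArg (ρ.map g) h5
  rwa [TH631.RC.map_inv'] at h6

theorem Par.conj_fix [CompactSpace X] {p : X} (hP : Par α p) {γ : G} (hγ : α γ p = p)
    (hinj : Function.Injective (fun m : ℕ => γ ^ m)) (g : G) {x : X}
    (hx : α (g * γ * g⁻¹) x = x) : x = α g p := by
  have h1 : α γ (α g⁻¹ x) = α g⁻¹ x := by
    have := congrArg (α g⁻¹) hx
    rwa [Dj.map_mul_apply, Dj.map_mul_apply, Dj.map_inv_apply] at this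
  have h2 := hP.unique_fix hγ hinj h1
  rw [← h2, Dj.map_inv_apply']

/-- The key estimate. -/
theorem conj_bound {c : Sp E} {g γ h : G} {C R : ℝ}
    (hh : ρ.map h (light (c : E)) = light (c : E)) (hγ : ρ.map γ (light (c : E)) = light (c : E))
    {b : ℝ} (hb : b = lor (ρ.map g⁻¹ (1, 0)) (light (c : E))) (hb0 : 0 < b) (hbR : b ≤ R)
    {y : ℝ × E} (hy : y = b⁻¹ • ρ.map g⁻¹ (1, 0) - (1 / (2 * b ^ 2)) • light (c : E))
    (hC : (ρ.map h y).1 ≤ C) :
    T ρ (g * h⁻¹ * γ * (g * h⁻¹)⁻¹) ≤ 1 + R ^ 2 * (4 * T ρ γ * C ^ 2) := by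
  have hlc : lor (light (c : E)) (light (c : E)) = 0 := by
    rw [lor_light, inner_self_one]; ring
  have hvv : lor (ρ.map g⁻¹ (1, 0)) (ρ.map g⁻¹ (1, 0)) = 1 := by
    rw [ρ.lor_map, lor_o]
  have hb' := hb0.ne'
  have lor_sub_l : ∀ u v w : ℝ × E, lor (u - v) w = lor u w - lor v w := fun u v w => by
    have := lor_add_left (u - v) v w
    rw [sub_add_cancel] at this
    linarith
  have hyl : lor y (light (c : E)) = 1 := by
    rw [hy, lor_sub_l, lor_smul_left, lor_smul_left, hlc, ← hb]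
    field_simp
    ring
  have hyv : lor y (ρ.map g⁻¹ (1, 0)) = 1 / (2 * b) := by
    rw [hy, lor_sub_l, lor_smul_left, lor_smul_left, hvv, lor_comm (light (c : E)), ← hb]
    field_simp
    ring
  have hyy : lor y y = 0 := by
    nth_rewrite 1 [hy]
    rw [lor_sub_l, lor_smul_left, lor_smul_left, lor_comm _ y, hyv, lor_comm _ y, hyl]
    field_simp
    ring
  obtain ⟨z, hz⟩ := exists_lam hyy hyl
  have hycl : Cl y := hz ▸ cl_lam z
  set w := ρ.map h y with hw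
  have hwcl : Cl w := hycl.map h
  have hwl : lor w (light (c : E)) = 1 := by
    rw [hw]; nth_rewrite 1 [← hh]; rw [ρ.lor_map, hyl]
  -- the base point
  have hv : ρ.map (g * h⁻¹)⁻¹ (1, 0) = b • w + (1 / (2 * b)) • light (c : E) := by
    have e1 : (g * h⁻¹)⁻¹ = h * g⁻¹ := by group
    have e2 : ρ.map g⁻¹ (1, 0) = b • y + (1 / (2 * b)) • light (c : E) := by
      rw [hy, smul_sub, smul_smul, smul_smul, mul_inv_cancel₀ hb', one_smul]
      have : b * (1 / (2 * b ^ 2)) = 1 / (2 * b) := by field_simp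
      rw [this]
      abel
    rw [e1, ρ.map_mul, e2, map_add, map_smul, map_smul, hh]
  have hγw : lor (ρ.map γ w) (light (c : E)) = 1 := by
    nth_rewrite 1 [← hγ]; rw [ρ.lor_map, hwl]
  have hT : T ρ (g * h⁻¹ * γ * (g * h⁻¹)⁻¹) = 1 + b ^ 2 * lor (ρ.map γ w) w := by
    have e1 : T ρ (g * h⁻¹ * γ * (g * h⁻¹)⁻¹) =
        lor (ρ.map γ (ρ.map (g * h⁻¹)⁻¹ (1, 0))) (ρ.map (g * h⁻¹)⁻¹ (1, 0)) := by
      rw [← lor_adj, ← ρ.map_mul, ← ρ.map_mul, lor_o, mul_assoc]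
      rfl
    rw [e1, hv, map_add, map_smul, map_smul, hγ]
    simp only [lor_add_left, lor_add_right, lor_smul_left, lor_smul_right]
    rw [hγw, lor_comm (light (c : E)) w, hwl, hlc]
    field_simp
    ring
  rw [hT]
  have h1 : lor (ρ.map γ w) w ≤ 2 * ((ρ.map γ w).1 * w.1) := (hwcl.map γ).lor_le hwcl
  have h2 := hwcl.fst_map_le (ρ := ρ) γ
  have h3 := hwcl.2
  have h4 := T_pos (ρ := ρ) γ
  have h5 : (ρ.map γ w).1 * w.1 ≤ 2 * (T ρ γ * w.1) * w.1 := mul_le_mul_of_nonneg_right h2 h3.le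
  have h6 : w.1 * w.1 ≤ C * C := mul_le_mul hC hC h3.le (h3.le.trans hC)
  have h7 : lor (ρ.map γ w) w ≤ 4 * T ρ γ * C ^ 2 := by nlinarith
  have h8 : 0 ≤ lor (ρ.map γ w) w := (hwcl.map γ).lor_nonneg hwcl
  have h9 : b ^ 2 ≤ R ^ 2 := by nlinarith
  have h10 : b ^ 2 * lor (ρ.map γ w) w ≤ R ^ 2 * (4 * T ρ γ * C ^ 2) :=
    mul_le_mul h9 h7 h8 (by positivity)
  linarith

variable {c : X → Sp E} {ℓ : X → ℝ × E}

/-- The light vectors are discrete. -/
theorem Cu.fin [CompactSpace X] (hc : Cu ρ α Ps c) (hR : Rl α Ps)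
    (hfin : ∀ R : ℝ, {g : G | T ρ g ≤ R}.Finite)
    (hℓ : ∀ p ∈ Ps, ∀ g, ℓ (α g p) = ρ.map g (light (c p : E))) (R : ℝ) :
    {q | q ∈ Q α Ps ∧ (ℓ q).1 ≤ R}.Finite := by
  have h1 : ∀ p ∈ Ps, {q | (∃ g, α g p = q) ∧ (ℓ q).1 ≤ R}.Finite := by
    intro p hp
    obtain ⟨γ, hγ, hinj⟩ := (hR.par p hp).inf
    obtain ⟨C, hC⟩ := hc.coc p hp
    set B := 1 + R ^ 2 * (4 * T ρ γ * C ^ 2) with hB
    have h2 : (⋃ θ ∈ {g : G | T ρ g ≤ B}, {q | α θ q = q ∧ ∀ x, α θ x = x → x = q}).Finite := by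
      refine (hfin B).biUnion fun θ _ => Set.Subsingleton.finite ?_
      rintro q ⟨hq, hq'⟩ x ⟨hx, hx'⟩
      exact hx' q hq
    refine h2.subset ?_
    rintro _ ⟨⟨g, rfl⟩, hgR⟩
    rw [hℓ p hp] at hgR
    set b := lor (ρ.map g⁻¹ (1, 0)) (light (c p : E)) with hb
    have hb1 : b = (ρ.map g (light (c p : E))).1 := by
      rw [hb, lor_adj, inv_inv, lor_comm, lor_o]
    have hb0 : 0 < b := by rw [hb1]; exact ((cl_light (c p)).map g).2
    have hbR : b ≤ R := by rw [hb1]; exact hgR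
    set y : ℝ × E := b⁻¹ • ρ.map g⁻¹ (1, 0) - (1 / (2 * b ^ 2)) • light (c p : E) with hy
    have hlc : lor (light (c p : E)) (light (c p : E)) = 0 := by
      rw [lor_light, inner_self_one]; ring
    have hvv : lor (ρ.map g⁻¹ (1, 0)) (ρ.map g⁻¹ (1, 0)) = 1 := by
      rw [ρ.lor_map, lor_o]
    have lor_sub_l : ∀ u v w : ℝ × E, lor (u - v) w = lor u w - lor v w := fun u v w => by
      have := lor_add_left (u - v) v w
      rw [sub_add_cancel] at this
      linarith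
    have hb' := hb0.ne'
    have hyl : lor y (light (c p : E)) = 1 := by
      rw [hy, lor_sub_l, lor_smul_left, lor_smul_left, hlc, ← hb]
      field_simp
      ring
    have hyv : lor y (ρ.map g⁻¹ (1, 0)) = 1 / (2 * b) := by
      rw [hy, lor_sub_l, lor_smul_left, lor_smul_left, hvv, lor_comm (light (c p : E)), ← hb]
      field_simp
      ring
    have hyy : lor y y = 0 := by
      nth_rewrite 1 [hy]
      rw [lor_sub_l, lor_smul_left, lor_smul_left, lor_comm _ y, hyv, lor_comm _ y, hyl]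
      field_simp
      ring
    obtain ⟨h, hhp, hhC⟩ := hC y hyy hyl
    have hbound := conj_bound (ρ := ρ) (g := g) (γ := γ) (hc.fix p hp h hhp) (hc.fix p hp γ hγ) hb
      hb0 hbR hy hhC
    rw [mem_iUnion₂]
    refine ⟨g * h⁻¹ * γ * (g * h⁻¹)⁻¹, hbound, ?_, ?_⟩
    · have e1 : α (g * h⁻¹) p = α g p := by rw [Dj.map_mul_apply, fix_inv hhp]
      rw [← e1, Dj.map_mul_apply, Dj.map_mul_apply, Dj.map_inv_apply, hγ]
    · intro x hx
      have e1 : α (g * h⁻¹) p = α g p := by rw [Dj.map_mul_apply, fix_inv hhp]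
      rw [← e1]
      exact (hR.par p hp).conj_fix hγ hinj _ hx
  refine (Ps.finite_toSet.biUnion (t := fun p => {q | (∃ g, α g p = q) ∧ (ℓ q).1 ≤ R})
    fun p hp => h1 p hp).subset ?_
  rintro q ⟨⟨p, hp, g, hg⟩, hq⟩
  rw [mem_iUnion₂]
  exact ⟨p, hp, ⟨g, hg⟩, hq⟩

end Pool.Agent.H72.Rel
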