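import Pool.Agent.H72.Rel.R16

/-!
# The dichotomy in the general setting
-/

set_option autoImplicit false

open Filter Topology Set Metric Pool.Agent.TH631.RC
open Pool.Agent.TH289.C (Sph norm_coe IsConvergenceAction)
open Pool.Agent.H72.Dj (Conv)

namespace Pool.Agent.H72.Rel

variable {E : Type} [NormedAddCommGroup E] [InnerProductSpace ℝ E]
variable {G : Type} [Group G]

/-- A lattice, with a set of cusps which does not depend on the size of the horoballs. -/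
def Latt (ρ : HypAction G E) : Prop :=
  ActsProperly ρ ∧ ∃ C : Finset (Metric.sphere (0 : E) 1), (∀ c ∈ C, FullCusp ρ c) ∧
    ∀ κ : ℝ, 0 < κ → ∃ R : ℝ, ∀ v ∈ HypSpace E,
      (∀ g : G, ∀ c ∈ C, κ ≤ lor (ρ.map g v) (light (c : E))) → ∃ g : G, (ρ.map g v).1 ≤ R

variable {ρ : HypAction G E}
variable {α : G →* (Sph E ≃ₜ Sph E)} {Ps : Finset (Sph E)}
variable {c : Sph E → Sp E} {ℓ : Sph E → ℝ × E} {κ c₀ : ℝ}

theorem Geo.latt [FiniteDimensional ℝ E] (hg : Geo ρ α Ps c ℓ κ c₀) : Latt ρ := by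
  classical
  refine ⟨acts_of_fin hg.tar.hfin, Ps.image c, ?_, fun κ hκ => ?_⟩
  · intro c' hc'
    obtain ⟨p, hp, rfl⟩ := Finset.mem_image.1 hc'
    obtain ⟨C, hC⟩ := hg.cu.coc p hp
    exact full_cusp (P := stab α p) (fun g hg' => hg.cu.fix p hp g hg') hC
  · obtain ⟨R, hR0, hpos⟩ := hg.cover κ hκ
    refine ⟨R, fun v hv hcusp => ?_⟩
    rcases hpos v hv with ⟨q, ⟨p', hp', g, hgq⟩, h⟩ | ⟨g, h⟩
    · exfalso
      rw [← hgq, hg.ell p' hp'] at h
      have h2 := hcusp g⁻¹ (c p') (Finset.mem_image_of_mem _ hp')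
      rw [lor_adj, inv_inv] at h2
      exact absurd h (not_lt.2 h2)
    · refine ⟨g⁻¹, ?_⟩
      rw [← inv_inv g, ← lor_adj, lor_o] at h
      exact h.le

section Main

variable [FiniteDimensional ℝ E] {n : ℕ} (hn : 2 ≤ n) (hE : Module.finrank ℝ E = n + 1)
  (hR : Rl α Ps) (hC : Cusp α Ps) (hV : ∀ p ∈ Ps, VZn n α p)
  (hmin : ∀ x, Dense (range fun g => α g x))

include hn hE hR hC hV hmin

/-- Lattice or disjoint. -/
theorem latt_or (ρ : HypAction G E) : (Latt ρ ∧ ∀ f : Sph E → Sp E,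
      (∀ g x, f (α g x) = F ρ g (f x)) → Continuous f → (∃ x y, f x ≠ f y) → IsHomeomorph f) ∨
    ∀ R : Set (Sph E × Sp E), IsClosed R →
      (∀ g x y, (x, y) ∈ R → (α g x, F ρ g y) ∈ R) → ∀ x x' y, (x, y) ∈ R → (x', y) ∈ R := by
  have : ProperSpace E := FiniteDimensional.proper ℝ E
  have hcS : CompactSpace (Sph E) := isCompact_iff_compactSpace.1 (isCompact_sphere (0 : E) 1)
  have hinf : Infinite (Sph E) := Dj.infinite_sph (by omega)
  by_cases hfin : ∀ R : ℝ, {g : G | T ρ g ≤ R}.Finite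
  · obtain ⟨c, ℓ, κ, c₀, hg⟩ := exists_geo (ρ := ρ) hn hE hR hC hV hfin
    refine Or.inl ⟨hg.latt, fun f hf hc hne => ?_⟩
    have hr : (range f).Infinite := Pool.Agent.TH631.RC.inf_of (X := Sp E) (by omega) hc hne
    exact f_homeo hg hR hc hf hr
  · exact Or.inr fun R hRc hinv => disjoint_hyp hR.conv hmin hfin hRc hinv

end Main

/-- Maps defined on an invariant set `D`, continuous at one point of `D`, are constant if all closed
invariant sets are products. -/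
theorem const_on [FiniteDimensional ℝ E] {X : Type} [TopologicalSpace X] {α : G →* (X ≃ₜ X)}
    (h : ∀ R : Set (X × Sp E), IsClosed R →
      (∀ g x y, (x, y) ∈ R → (α g x, F ρ g y) ∈ R) → ∀ x x' y, (x, y) ∈ R → (x', y) ∈ R)
    {D : Set X} (hD : ∀ g, ∀ x ∈ D, α g x ∈ D)
    {f : X → Sp E} (hf : ∀ g, ∀ x ∈ D, f (α g x) = F ρ g (f x)) {z : X} (hzD : z ∈ D)
    (hz : ContinuousWithinAt f D z) {x : X} (hxD : x ∈ D) : f x = f z := by
  set R : Set (X × Sp E) := closure ((fun x => (x, f x)) '' D) with hRdef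
  have hinv : ∀ g x y, (x, y) ∈ R → (α g x, F ρ g y) ∈ R := by
    intro g x y hx
    have hc : Continuous fun p : X × Sp E => (α g p.1, F ρ g p.2) :=
      ((α g).continuous.comp continuous_fst).prodMk
        ((Pool.Agent.TH631.RC.continuous_F g).comp continuous_snd)
    have h1 : (fun p : X × Sp E => (α g p.1, F ρ g p.2)) '' ((fun x => (x, f x)) '' D) ⊆
        (fun x => (x, f x)) '' D := by
      rintro _ ⟨_, ⟨y, hy, rfl⟩, rfl⟩
      exact ⟨α g y, hD g y hy, Prod.ext rfl (hf g y hy)⟩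
    have h2 := image_closure_subset_closure_image hc (s := (fun x => (x, f x)) '' D)
    exact closure_mono h1 (h2 (mem_image_of_mem _ hx))
  have h3 : ∀ y, (z, y) ∈ R → y = f z := by
    intro y hy
    by_contra hne
    obtain ⟨U, W, hU, hW, hyU, hfW, hd⟩ := t2_separation hne
    have h4 : f ⁻¹' W ∈ 𝓝[D] z := hz (hW.mem_nhds hfW)
    obtain ⟨V, hV, hVD⟩ := mem_nhdsWithin_iff_exists_mem_nhds_inter.1 h4
    have h5 : V ×ˢ U ∈ 𝓝 (z, y) := prod_mem_nhds hV (hU.mem_nhds hyU)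
    obtain ⟨p, hp, ⟨x, hx, rfl⟩⟩ := mem_closure_iff_nhds.1 hy _ h5
    exact disjoint_left.1 hd hp.2 (hVD ⟨hp.1, hx⟩)
  exact h3 (f x) (h R isClosed_closure hinv x z (f x) (subset_closure ⟨x, hxD, rfl⟩))

end Pool.Agent.H72.Rel
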