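import Pool.Agent.H72.Dj.T6

/-!
# Parabolic points of convergence actions
-/

set_option autoImplicit false

open Filter Topology Set Metric Pool.Agent.TH289.C Pool.Agent.H72.Dj

namespace Pool.Agent.H72.Rel

section Seq

/-- Every sequence has a subsequence which is constant or leaves all finite sets. -/
theorem seq_dich {S : Type} (u : ℕ → S) : ∃ φ : ℕ → ℕ, StrictMono φ ∧
    ((∃ s, ∀ n, u (φ n) = s) ∨ Tendsto (fun n => u (φ n)) atTop cofinite) := by
  by_cases h : ∃ s, ∃ᶠ n in atTop, u n = s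
  · obtain ⟨s, hs⟩ := h
    obtain ⟨φ, hφ, hφ'⟩ := extraction_of_frequently_atTop hs
    exact ⟨φ, hφ, Or.inl ⟨s, hφ'⟩⟩
  · push Not at h
    refine ⟨id, strictMono_id, Or.inr ?_⟩
    exact tendsto_cofinite_of_ne h

end Seq

section Par

variable {G : Type} [Group G] {X : Type} [MetricSpace X]

/-- `p` is a bounded parabolic point whose stabilizer contains an element of infinite order. -/
structure Par (α : G →* (X ≃ₜ X)) (p : X) : Prop where
  proper : ∀ K : Set X, IsCompact K → p ∉ K → {g : G | α g p = p ∧ ∃ w ∈ K, α g w ∈ K}.Finite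
  cocompact : ∃ K : Set X, IsCompact K ∧ p ∉ K ∧ ∀ w, w ≠ p → ∃ g, α g p = p ∧ α g w ∈ K
  inf : ∃ γ : G, α γ p = p ∧ Function.Injective (fun m : ℕ => γ ^ m)

variable {α : G →* (X ≃ₜ X)} {p : X}

theorem Par.tendsto [CompactSpace X] (hP : Par α p) {h : ℕ → G} (hfix : ∀ k, α (h k) p = p)
    (hh : Tendsto h atTop cofinite) {x : ℕ → X} {x₀ : X} (hx : Tendsto x atTop (𝓝 x₀))
    (hne : x₀ ≠ p) : Tendsto (fun k => α (h k) (x k)) atTop (𝓝 p) := by
  rw [_root_.tendsto_nhds]
  intro U hU hpU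
  have hd : 0 < dist x₀ p := dist_pos.2 hne
  set K : Set X := Uᶜ ∪ closedBall x₀ (dist x₀ p / 2) with hK
  have hKc : IsCompact K := (hU.isClosed_compl.isCompact).union isClosed_closedBall.isCompact
  have hpK : p ∉ K := by
    rintro (h0 | h0)
    · exact h0 hpU
    · rw [mem_closedBall, dist_comm] at h0
      linarith
  have hf := hP.proper K hKc hpK
  have h1 : ∀ᶠ k in atTop, x k ∈ closedBall x₀ (dist x₀ p / 2) :=
    hx (closedBall_mem_nhds x₀ (by positivity))
  have h2 := hh.eventually hf.compl_mem_cofinite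
  filter_upwards [h1, h2] with k hk1 hk2
  by_contra hk3
  exact hk2 ⟨hfix k, x k, Or.inr hk1, Or.inl hk3⟩

theorem fix_pow {γ : G} (hγ : α γ p = p) (m : ℕ) : α (γ ^ m) p = p := by
  induction m with
  | zero => simp
  | succ n ih => rw [pow_succ, map_mul_apply, hγ, ih]

theorem fix_inv {γ : G} (hγ : α γ p = p) : α γ⁻¹ p = p := by
  conv_lhs => rw [← hγ]
  exact map_inv_apply α γ p

theorem Par.pow [CompactSpace X] (hP : Par α p) {γ : G} (hγ : α γ p = p)
    (hinj : Function.Injective (fun m : ℕ => γ ^ m)) {x : X} (hx : x ≠ p) :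
    Tendsto (fun m : ℕ => α (γ ^ m) x) atTop (𝓝 p) :=
  hP.tendsto (fix_pow hγ) (tendsto_cofinite_of_inj hinj) tendsto_const_nhds hx

theorem inj_inv {γ : G} (hinj : Function.Injective (fun m : ℕ => γ ^ m)) :
    Function.Injective (fun m : ℕ => γ⁻¹ ^ m) := by
  intro m n hmn
  simp only [inv_pow, inv_inj] at hmn
  exact hinj hmn

theorem Par.unique_fix [CompactSpace X] (hP : Par α p) {γ : G} (hγ : α γ p = p)
    (hinj : Function.Injective (fun m : ℕ => γ ^ m)) {x : X} (hx : α γ x = x) : x = p := by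
  by_contra hne
  have h1 := hP.pow hγ hinj hne
  have h2 : ∀ m : ℕ, α (γ ^ m) x = x := fix_pow hx
  simp only [h2] at h1
  exact hne (tendsto_nhds_unique tendsto_const_nhds h1)

theorem conj_pow_apply (δ γ : G) (m : ℕ) (x : X) :
    α ((δ * γ * δ⁻¹) ^ m) x = α δ (α (γ ^ m) (α δ⁻¹ x)) := by
  rw [conj_pow, map_mul_apply, map_mul_apply]

/-- Powers of a conjugate of a parabolic element. -/
theorem Par.conj_pow [CompactSpace X] (hP : Par α p) {γ : G} (hγ : α γ p = p)
    (hinj : Function.Injective (fun m : ℕ => γ ^ m)) (δ : G) {x : X} (hx : x ≠ α δ p) :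
    Tendsto (fun m : ℕ => α ((δ * γ * δ⁻¹) ^ m) x) atTop (𝓝 (α δ p)) := by
  simp only [conj_pow_apply]
  refine ((α δ).continuous.tendsto p).comp (hP.pow hγ hinj ?_)
  intro h0
  exact hx (by rw [← h0, map_inv_apply'])

/-- No conjugate of a parabolic element is loxodromic. -/
theorem Par.no_lox [CompactSpace X] (hP : Par α p) {γ : G} (hγ : α γ p = p)
    (hinj : Function.Injective (fun m : ℕ => γ ^ m)) (δ : G) {U W : Set X} {c d : X}
    (hU : IsOpen U) (hW : IsOpen W) (hc : c ∈ U) (hd : d ∈ W) (hUW : Disjoint U W)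
    (h : ∀ x, x ∉ W → α (δ * γ * δ⁻¹) x ∈ U) : False := by
  set θ := δ * γ * δ⁻¹ with hθ
  have hθi : θ⁻¹ = δ * γ⁻¹ * δ⁻¹ := by rw [hθ]; group
  have hfix : α θ (α δ p) = α δ p := by
    rw [hθ, map_mul_apply, map_mul_apply, map_inv_apply, hγ]
  have hfor : ∀ x, x ∉ W → ∀ m : ℕ, α (θ ^ (m + 1)) x ∈ U := by
    intro x hx m
    induction m with
    | zero => simpa using h x hx
    | succ n ih =>
      rw [pow_succ', map_mul_apply]
      exact h _ fun h0 => disjoint_left.1 hUW ih h0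
  have hback1 : ∀ x, x ∉ U → α θ⁻¹ x ∈ W := by
    intro x hx
    by_contra h0
    have := h _ h0
    rw [map_inv_apply'] at this
    exact hx this
  have hback : ∀ x, x ∉ U → ∀ m : ℕ, α (θ⁻¹ ^ (m + 1)) x ∈ W := by
    intro x hx m
    induction m with
    | zero => simpa using hback1 x hx
    | succ n ih =>
      rw [pow_succ', map_mul_apply]
      exact hback1 _ fun h0 => disjoint_left.1 hUW h0 ih
  by_cases hq : α δ p ∈ W
  · -- the forward orbit of `c`
    have hcq : c ≠ α δ p := fun h0 => disjoint_left.1 hUW hc (h0 ▸ hq)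
    have h1 := hP.conj_pow hγ hinj δ hcq
    have h2 := (h1.comp (tendsto_add_atTop_nat 1)).eventually (hW.mem_nhds hq)
    obtain ⟨m, hm⟩ := h2.exists
    exact disjoint_left.1 hUW (hfor c (fun h0 => disjoint_left.1 hUW hc h0) m) hm
  · have hqU : α δ p ∈ U := by
      have := h _ hq
      rwa [hfix] at this
    have hdq : d ≠ α δ p := fun h0 => hq (h0 ▸ hd)
    have h1 := hP.conj_pow (fix_inv hγ) (inj_inv hinj) δ hdq
    rw [← hθi] at h1
    have h2 := (h1.comp (tendsto_add_atTop_nat 1)).eventually (hU.mem_nhds hqU)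
    obtain ⟨m, hm⟩ := h2.exists
    exact disjoint_left.1 hUW hm (hback d (fun h0 => disjoint_left.1 hUW h0 hd) m)

/-- Parabolic points are not conical. -/
theorem Par.attract [CompactSpace X] [Infinite X] (hα : IsConvergenceAction α) (hP : Par α p)
    {δ : ℕ → G} {y z : X} (hδ : Conv α δ y z) : Tendsto (fun k => α (δ k) p) atTop (𝓝 y) := by
  by_cases hz : z = p
  swap
  · exact hδ.tendsto (fun h0 => hz h0.symm)
  subst hz
  obtain ⟨γ, hγ, hinj⟩ := hP.inf
  obtain ⟨x, hx⟩ := exists_ne z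
  have hγx : α γ x ≠ z := fun h0 => hx (by
    have := congrArg (α γ⁻¹) h0
    rwa [map_inv_apply, fix_inv hγ] at this)
  refine tendsto_of_subseq_tendsto fun ns hns => ?_
  obtain ⟨a, φ, hφ, ha⟩ := CompactSpace.tendsto_subseq (fun k => α (δ (ns k)) z)
  refine ⟨φ, ?_⟩
  suffices hay : a = y by rw [← hay]; exact ha
  by_contra hay
  set e : ℕ → G := fun k => δ (ns (φ k)) with he
  have hE : Conv α e y z := hδ.comp (hns.comp hφ.tendsto_atTop)
  have ha' : Tendsto (fun k => α (e k) z) atTop (𝓝 a) := ha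
  have hconj : ∀ k w, α (e k * γ * (e k)⁻¹) (α (e k) w) = α (e k) (α γ w) := by
    intro k w
    rw [map_mul_apply, map_mul_apply, map_inv_apply]
  obtain ⟨ψ, hψ, hcase⟩ := seq_dich (fun k => e k * γ * (e k)⁻¹)
  have hψt := hψ.tendsto_atTop
  rcases hcase with ⟨θ, hθ⟩ | hcof
  · have h1 : α θ y = y := by
      have e1 : Tendsto (fun n => α θ (α (e (ψ n)) x)) atTop (𝓝 (α θ y)) :=
        ((α θ).continuous.tendsto y).comp ((hE.comp hψt).tendsto hx)
      have e2 : Tendsto (fun n => α (e (ψ n)) (α γ x)) atTop (𝓝 y) := (hE.comp hψt).tendsto hγx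
      refine tendsto_nhds_unique e1 (e2.congr fun n => ?_)
      rw [← hconj, hθ]
    have h2 : α θ a = a := by
      have e1 : Tendsto (fun n => α θ (α (e (ψ n)) z)) atTop (𝓝 (α θ a)) :=
        ((α θ).continuous.tendsto a).comp (ha'.comp hψt)
      have e2 : Tendsto (fun n => α (e (ψ n)) z) atTop (𝓝 a) := ha'.comp hψt
      refine tendsto_nhds_unique e1 (e2.congr fun n => ?_)
      conv_lhs => rw [← hγ]
      rw [← hconj, hθ]
    have h3 : ∀ w, α θ w = w → w = α (e (ψ 0)) z := by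
      intro w hw
      rw [← hθ 0, map_mul_apply, map_mul_apply] at hw
      have h4 : α γ (α (e (ψ 0))⁻¹ w) = α (e (ψ 0))⁻¹ w := by
        have := congrArg (α (e (ψ 0))⁻¹) hw
        rwa [map_inv_apply] at this
      have h5 := hP.unique_fix hγ hinj h4
      rw [← h5, map_inv_apply']
    exact hay ((h3 a h2).trans (h3 y h1).symm)
  · obtain ⟨χ, hχ, c, d, hcd⟩ := hα _ hcof
    have hH : Conv α (fun n => e (ψ (χ n)) * γ * (e (ψ (χ n)))⁻¹) c d := hcd
    have ht : Tendsto (fun n => ψ (χ n)) atTop atTop := hψt.comp hχ.tendsto_atTop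
    have A1 : a ≠ d → c = a := by
      intro hne
      have e1 := hH.tendsto' (ha'.comp ht) hne
      refine tendsto_nhds_unique e1 ((ha'.comp ht).congr fun n => ?_)
      simp only [Function.comp]
      rw [hconj, hγ]
    have A2 : y ≠ d → c = y := by
      intro hne
      have e1 := hH.tendsto' ((hE.comp ht).tendsto hx) hne
      refine tendsto_nhds_unique e1 (((hE.comp ht).tendsto hγx).congr fun n => ?_)
      simp only [Function.comp]
      rw [hconj]
    have hne : c ≠ d := by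
      by_cases h1 : a = d
      · have h2 : y ≠ d := fun h0 => hay (h1.trans h0.symm)
        rw [A2 h2]; exact h2
      · rw [A1 h1]; exact h1
    obtain ⟨U, W, hU, hW, hcU, hdW, hUW⟩ := t2_separation hne
    obtain ⟨n, hn⟩ := (hH U (hU.mem_nhds hcU) W (hW.mem_nhds hdW)).exists
    exact hP.no_lox hγ hinj _ hU hW hcU hdW hUW hn

/-- The distance of parabolic fixed points from a compact fundamental set. -/
theorem Par.exists_r [CompactSpace X] [Infinite X] (hP : Par α p) : ∃ r : ℝ, 0 < r ∧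
    ∃ K : Set X, IsCompact K ∧ (∀ w ∈ K, 2 * r ≤ dist w p) ∧
      ∀ w, w ≠ p → ∃ g, α g p = p ∧ α g w ∈ K := by
  obtain ⟨K, hK, hpK, hKc⟩ := hP.cocompact
  have h1 : Kᶜ ∈ 𝓝 p := hK.isClosed.isOpen_compl.mem_nhds hpK
  obtain ⟨ε, hε, hεK⟩ := Metric.mem_nhds_iff.1 h1
  refine ⟨ε / 2, by positivity, K, hK, fun w hw => ?_, hKc⟩
  by_contra h0
  push Not at h0
  exact hεK (by rw [mem_ball]; linarith) hw

/-- The key lemma: the points `q n = g n p` are in the middle between `x n` and `x' n` only if they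
converge to one of the limits, or if they are finitely many. -/
theorem Par.key [CompactSpace X] [Infinite X] (hα : IsConvergenceAction α) (hP : Par α p) {r : ℝ}
    (hr : 0 < r) {K : Set X} (hK : IsCompact K) (hKr : ∀ w ∈ K, 2 * r ≤ dist w p)
    (hKc : ∀ w, w ≠ p → ∃ g, α g p = p ∧ α g w ∈ K) {g : ℕ → G} {x x' : ℕ → X} {x₀ x₀' y : X}
    (hx : Tendsto x atTop (𝓝 x₀)) (hx' : Tendsto x' atTop (𝓝 x₀'))
    (hy : Tendsto (fun n => α (g n) p) atTop (𝓝 y)) (hxy : x₀ ≠ y) (hxy' : x₀' ≠ y)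
    (hcase : x₀ = x₀' ∨ ∀ q, ∀ᶠ n in atTop, α (g n) p ≠ q)
    (hnear : ∀ n, ∀ h : G, α h p = p →
      dist (α h (α (g n)⁻¹ (x n))) p < r ∨ dist (α h (α (g n)⁻¹ (x' n))) p < r) : False := by
  -- the points `x n` are not equal to `g n p`
  have h1 : ∀ᶠ n in atTop, x n ≠ α (g n) p := by
    have : Tendsto (fun n => (x n, α (g n) p)) atTop (𝓝 (x₀, y)) := hx.prodMk_nhds hy
    exact this.eventually ((isClosed_diagonal.isOpen_compl).mem_nhds (by simpa using hxy))
  obtain ⟨N, hN⟩ := eventually_atTop.1 h1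
  have h2 : ∀ n, ∃ h, α h p = p ∧ α h (α (g (n + N))⁻¹ (x (n + N))) ∈ K := by
    intro n
    refine hKc _ fun h0 => hN (n + N) (by omega) ?_
    rw [← h0, map_inv_apply']
  choose h hhp hhK using h2
  set u : ℕ → G := fun n => h n * (g (n + N))⁻¹ with hu
  have hux : ∀ n w, α (u n) w = α (h n) (α (g (n + N))⁻¹ w) := fun n w => map_mul_apply _ _ _ _
  have hup : ∀ n, α (u n)⁻¹ p = α (g (n + N)) p := by
    intro n
    have e : (u n)⁻¹ = g (n + N) * (h n)⁻¹ := by rw [hu]; group
    rw [e, map_mul_apply, fix_inv (hhp n)]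
  have hNt : Tendsto (fun n : ℕ => n + N) atTop atTop := tendsto_add_atTop_nat N
  -- the limit leads to a contradiction
  have hfin : ∀ (φ : ℕ → ℕ), Tendsto φ atTop atTop → ∀ z : X,
      Tendsto (fun n => α (u (φ n)) (x (φ n + N))) atTop (𝓝 z) →
      Tendsto (fun n => α (u (φ n)) (x' (φ n + N))) atTop (𝓝 z) → False := by
    intro φ hφ z hz hz'
    have hzK : z ∈ K := hK.isClosed.mem_of_tendsto hz (Eventually.of_forall fun n => by
      rw [hux]; exact hhK _)
    have hzr := hKr z hzK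
    have e1 : ∀ᶠ n in atTop, r < dist (α (u (φ n)) (x (φ n + N))) p :=
      (hz.dist tendsto_const_nhds).eventually_const_lt (by linarith)
    have e2 : ∀ᶠ n in atTop, r < dist (α (u (φ n)) (x' (φ n + N))) p :=
      (hz'.dist tendsto_const_nhds).eventually_const_lt (by linarith)
    obtain ⟨n, hn1, hn2⟩ := (e1.and e2).exists
    rw [hux] at hn1 hn2
    rcases hnear (φ n + N) (h (φ n)) (hhp _) with h3 | h3
    · exact lt_asymm hn1 h3
    · exact lt_asymm hn2 h3
  obtain ⟨φ, hφ, hc⟩ := seq_dich u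
  have hφt := hφ.tendsto_atTop
  rcases hc with ⟨s, hs⟩ | hcof
  · rcases hcase with h3 | h3
    · refine hfin φ hφt (α s x₀) ?_ ?_
      · simp only [hs]
        exact ((α s).continuous.tendsto x₀).comp (hx.comp (hNt.comp hφt))
      · simp only [hs]
        rw [h3]
        exact ((α s).continuous.tendsto x₀').comp (hx'.comp (hNt.comp hφt))
    · obtain ⟨n, hn⟩ := ((hNt.comp hφt).eventually (h3 (α s⁻¹ p))).exists
      apply hn
      rw [← hs n, hup]
      rfl
  · obtain ⟨ψ, hψ, a, b, hab⟩ := hα _ hcof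
    have hC : Conv α (fun n => u (φ (ψ n))) a b := hab
    have ht : Tendsto (fun n => φ (ψ n)) atTop atTop := hφt.comp hψ.tendsto_atTop
    have hb : b = y := by
      have e1 := hP.attract hα hC.inv
      refine tendsto_nhds_unique e1 ?_
      simp only [hup]
      exact hy.comp (hNt.comp ht)
    refine hfin _ ht a ?_ ?_
    · exact hC.tendsto' (hx.comp (hNt.comp ht)) (by rw [hb]; exact hxy)
    · exact hC.tendsto' (hx'.comp (hNt.comp ht)) (by rw [hb]; exact hxy')

end Par

end Pool.Agent.H72.Rel
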