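import Pool.Agent.H72.Rel.R9

/-!
# Averages, and the inversion of the ball
-/

set_option autoImplicit false

open Filter Topology Set Metric Pool.Agent.TH631.RC

namespace Pool.Agent.H72.Rel

section Avg

variable {ι : Type} {Y : Type} [TopologicalSpace Y] {E' : Type} [NormedAddCommGroup E']
  [NormedSpace ℝ E']

/-- The average of the points `bb i` with the weights `om i x`. -/
noncomputable def avg (om : ι → Y → ℝ) (bb : ι → E') (x : Y) : E' :=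
  (∑ᶠ i, om i x)⁻¹ • ∑ᶠ i, om i x • bb i

variable {om : ι → Y → ℝ} {x : Y}

omit [TopologicalSpace Y] in
theorem fsum_pos (hn : ∀ i x, 0 ≤ om i x) (hfin : {i | om i x ≠ 0}.Finite) {i₀ : ι}
    (h : 0 < om i₀ x) : 0 < ∑ᶠ i, om i x := by
  rw [finsum_eq_sum_of_support_subset (s := hfin.toFinset) _ (by
    intro g hg; simpa using hg)]
  refine Finset.sum_pos' (fun g _ => hn _ _) ⟨i₀, ?_, h⟩
  rw [Finite.mem_toFinset]
  exact h.ne'

theorem avg_cont (bb : ι → E') (hc : ∀ i, ContinuousAt (om i) x) (hn : ∀ i x, 0 ≤ om i x)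
    (hF : ∃ F : Set ι, F.Finite ∧ ∀ᶠ x' in 𝓝 x, ∀ i, om i x' ≠ 0 → i ∈ F) {i₀ : ι}
    (h : 0 < om i₀ x) : ContinuousAt (avg om bb) x := by
  obtain ⟨F, hFf, hF⟩ := hF
  have h0 := fsum_pos hn (hFf.subset fun i hi => hF.self_of_nhds i hi) h
  have hs1 : ∀ᶠ x' in 𝓝 x, ∑ᶠ i, om i x' = ∑ i ∈ hFf.toFinset, om i x' := by
    filter_upwards [hF] with x' hx'
    refine finsum_eq_sum_of_support_subset _ fun i hi => ?_
    simp only [Finite.coe_toFinset]
    exact hx' i hi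
  have hs2 : ∀ᶠ x' in 𝓝 x, ∑ᶠ i, om i x' • bb i = ∑ i ∈ hFf.toFinset, om i x' • bb i := by
    filter_upwards [hF] with x' hx'
    refine finsum_eq_sum_of_support_subset _ fun i hi => ?_
    simp only [Finite.coe_toFinset]
    refine hx' i fun h1 => hi ?_
    change om i x' • bb i = 0
    rw [h1, zero_smul]
  have hc1 : ContinuousAt (fun x' => ∑ i ∈ hFf.toFinset, om i x') x :=
    tendsto_finsetSum _ fun i _ => hc i
  have hc2 : ContinuousAt (fun x' => ∑ i ∈ hFf.toFinset, om i x' • bb i) x :=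
    tendsto_finsetSum _ fun i _ => (hc i).smul continuousAt_const
  have hc3 : ContinuousAt (fun x' => (∑ i ∈ hFf.toFinset, om i x')⁻¹ •
      ∑ i ∈ hFf.toFinset, om i x' • bb i) x :=
    (hc1.inv₀ (by rw [← hs1.self_of_nhds]; exact h0.ne')).smul hc2
  refine hc3.congr ?_
  filter_upwards [hs1, hs2] with x' e1 e2
  simp only [avg, e1, e2]

omit [TopologicalSpace Y] in
theorem avg_mem {bb : ι → E'} (hn : ∀ i x, 0 ≤ om i x) (hfin : {i | om i x ≠ 0}.Finite) {i₀ : ι}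
    (h : 0 < om i₀ x) {U : Set E'} (hU : Convex ℝ U) (hmem : ∀ i, 0 < om i x → bb i ∈ U) :
    avg om bb x ∈ U := by
  have h0 := fsum_pos hn hfin h
  have hs1 : ∑ᶠ i, om i x = ∑ i ∈ hfin.toFinset, om i x := by
    refine finsum_eq_sum_of_support_subset _ ?_
    intro i hi; simpa using hi
  have hs2 : ∑ᶠ i, om i x • bb i = ∑ i ∈ hfin.toFinset, om i x • bb i := by
    refine finsum_eq_sum_of_support_subset _ ?_
    intro i hi
    simp only [Finite.coe_toFinset]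
    intro h1
    apply hi
    change om i x • bb i = 0
    rw [h1, zero_smul]
  have := hU.centerMass_mem (t := hfin.toFinset) (w := fun i => om i x) (z := bb)
    (fun i _ => hn _ _) (by rw [← hs1]; exact h0) (fun i hi => hmem i (by
      rw [Finite.mem_toFinset] at hi
      exact lt_of_le_of_ne (hn _ _) (Ne.symm hi)))
  convert this using 1
  unfold Finset.centerMass avg
  rw [hs1, hs2]

end Avg

section Inv

variable {E : Type} [NormedAddCommGroup E] [InnerProductSpace ℝ E]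

/-- The inversion of the ball punctured at `x₀`. -/
noncomputable def jf (x₀ x : E) : E := ((1 - ‖x‖ ^ 2) / ‖x - x₀‖ ^ 2) • (x - x₀)

theorem jf_sphere {x₀ x : E} (hx : ‖x‖ = 1) : jf x₀ x = 0 := by
  unfold jf
  rw [hx]
  norm_num

theorem jf_ne {x₀ x : E} (hx : ‖x‖ < 1) (hne : x ≠ x₀) : jf x₀ x ≠ 0 := by
  unfold jf
  have h1 : 0 < ‖x - x₀‖ := norm_pos_iff.2 (sub_ne_zero.2 hne)
  have h2 : 0 < 1 - ‖x‖ ^ 2 := by nlinarith [norm_nonneg x]
  exact smul_ne_zero (by positivity) (sub_ne_zero.2 hne)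

theorem continuousAt_jf {x₀ x : E} (hne : x ≠ x₀) : ContinuousAt (jf x₀) x := by
  unfold jf
  have h1 : ‖x - x₀‖ ^ 2 ≠ 0 := by
    have := norm_pos_iff.2 (sub_ne_zero.2 hne)
    positivity
  have h2 : ContinuousAt (fun y : E => (1 - ‖y‖ ^ 2) / ‖y - x₀‖ ^ 2) x :=
    ContinuousAt.div (by fun_prop) (by fun_prop) h1
  have h3 : ContinuousAt (fun y : E => y - x₀) x := by fun_prop
  exact h2.smul h3

theorem jf_inj {x₀ x y : E} (h0 : ‖x₀‖ < 1) (hx : ‖x‖ < 1) (hy : ‖y‖ < 1) (hxx : x ≠ x₀)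
    (hyx : y ≠ x₀) (h : jf x₀ x = jf x₀ y) : x = y := by
  set d := x - x₀ with hd
  set e := y - x₀ with he
  have hd0 : 0 < ‖d‖ := norm_pos_iff.2 (sub_ne_zero.2 hxx)
  have he0 : 0 < ‖e‖ := norm_pos_iff.2 (sub_ne_zero.2 hyx)
  have hx2 : 0 < 1 - ‖x‖ ^ 2 := by nlinarith [norm_nonneg x]
  have hy2 : 0 < 1 - ‖y‖ ^ 2 := by nlinarith [norm_nonneg y]
  set f := (1 - ‖x‖ ^ 2) / ‖d‖ ^ 2 with hf
  set f' := (1 - ‖y‖ ^ 2) / ‖e‖ ^ 2 with hf'
  have hf0 : 0 < f := by positivity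
  have hf0' : 0 < f' := by positivity
  have h1 : f • d = f' • e := h
  have h2 : e = (f / f') • d := by
    rw [div_eq_inv_mul, ← smul_smul, h1, smul_smul, inv_mul_cancel₀ hf0'.ne', one_smul]
  set s := f / f' with hs
  have hs0 : 0 < s := by positivity
  have hxe : ‖x‖ ^ 2 = ‖x₀‖ ^ 2 + 2 * inner ℝ x₀ d + ‖d‖ ^ 2 := by
    have : x = x₀ + d := by rw [hd]; abel
    rw [this, norm_add_sq_real]
  have hye : ‖y‖ ^ 2 = ‖x₀‖ ^ 2 + 2 * (s * inner ℝ x₀ d) + s ^ 2 * ‖d‖ ^ 2 := by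
    have : y = x₀ + s • d := by rw [← h2, he]; abel
    rw [this, norm_add_sq_real, inner_smul_right, norm_smul, Real.norm_of_nonneg hs0.le]
    ring
  have he2 : ‖e‖ ^ 2 = s ^ 2 * ‖d‖ ^ 2 := by
    rw [h2, norm_smul, Real.norm_of_nonneg hs0.le]; ring
  -- `s f' = f`
  have h3 : s * f' = f := by rw [hs]; field_simp
  have h4 : 1 - ‖y‖ ^ 2 = s * (1 - ‖x‖ ^ 2) := by
    have e1 : 1 - ‖y‖ ^ 2 = f' * (s ^ 2 * ‖d‖ ^ 2) := by
      rw [← he2, hf']; field_simp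
    have e2 : 1 - ‖x‖ ^ 2 = f * ‖d‖ ^ 2 := by
      rw [hf]; field_simp
    rw [e1, e2, ← h3]; ring
  have h5 : (s - 1) * (1 - ‖x₀‖ ^ 2 + s * ‖d‖ ^ 2) = 0 := by
    rw [hxe, hye] at h4
    nlinarith
  have h6 : 0 < 1 - ‖x₀‖ ^ 2 := by nlinarith [norm_nonneg x₀]
  have h7 : s = 1 := by
    rcases mul_eq_zero.1 h5 with h | h
    · linarith
    · exfalso
      have : 0 < s * ‖d‖ ^ 2 := by positivity
      linarith
  rw [h7, one_smul] at h2
  have h8 : x - x₀ = y - x₀ := h2.symm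
  exact sub_left_injective h8

/-- The inversion is small near the sphere. -/
theorem jf_small {x₀ : E} (h0 : ‖x₀‖ < 1) {δ : ℝ} (hδ : 0 < δ) : ∃ r < 1, ∀ x : E, r < ‖x‖ →
    ‖x‖ ≤ 1 → ‖jf x₀ x‖ < δ := by
  set a := 1 - ‖x₀‖ with ha
  have ha0 : 0 < a := by rw [ha]; linarith
  refine ⟨max (1 - a / 2) (1 - δ * a / 8), max_lt (by linarith) (by
    have : 0 < δ * a / 8 := by positivity
    linarith), fun x hx hx1 => ?_⟩
  have h1 : 1 - a / 2 < ‖x‖ := (le_max_left _ _).trans_lt hx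
  have h2 : 1 - δ * a / 8 < ‖x‖ := (le_max_right _ _).trans_lt hx
  have h3 : a / 2 < ‖x - x₀‖ := by
    have := norm_sub_norm_le x x₀
    linarith
  have h4 : 0 < ‖x - x₀‖ := by linarith
  unfold jf
  have h5 : 0 ≤ 1 - ‖x‖ ^ 2 := by nlinarith [norm_nonneg x]
  rw [norm_smul, Real.norm_of_nonneg (by positivity)]
  have h6 : (1 - ‖x‖ ^ 2) / ‖x - x₀‖ ^ 2 * ‖x - x₀‖ = (1 - ‖x‖ ^ 2) / ‖x - x₀‖ := by
    field_simp
  rw [h6, div_lt_iff₀ h4]
  have h7 : 1 - ‖x‖ ^ 2 ≤ 2 * (1 - ‖x‖) := by nlinarith [norm_nonneg x]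
  have h8 : δ * (a / 2) < δ * ‖x - x₀‖ := mul_lt_mul_of_pos_left h3 hδ
  linarith

end Inv

end Pool.Agent.H72.Rel
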