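import Pool.Agent.H72.Rel.R10

/-!
# The barycentre map of the ball is onto hyperbolic space
-/

set_option autoImplicit false

open Filter Topology Set Metric Pool.Agent.TH631.RC
open Pool.Agent.TH289.C (sep act wt wt_nonneg wt_pos continuous_wt finite_supp IsConvergenceAction
  wt_act continuous_sep act_mul act_one sig sep_sig near_sig continuousAt_sig Near Sph)
open Pool.Agent.H72.Dj (Conv cp extract_seq freq_const topo)

namespace Pool.Agent.H72.Rel

section Klein

variable {E : Type} [NormedAddCommGroup E] [InnerProductSpace ℝ E]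

/-- Klein coordinates. -/
noncomputable def kl (v : ℝ × E) : E := v.1⁻¹ • v.2

/-- The vector over a point of the Klein ball. -/
def hat (x : E) : ℝ × E := (1, x)

theorem norm_kl {v : ℝ × E} (hv : Cl v) : ‖kl v‖ = ‖v.2‖ / v.1 := by
  unfold kl
  rw [norm_smul, norm_inv, Real.norm_of_nonneg hv.2.le]
  field_simp

theorem norm_kl_le {v : ℝ × E} (hv : Cl v) : ‖kl v‖ ≤ 1 := by
  rw [norm_kl hv, div_le_one hv.2]
  exact hv.1

theorem kl_lt {v : ℝ × E} (hv : Cl v) : ‖kl v‖ < 1 ↔ Tl v := by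
  rw [norm_kl hv, div_lt_one hv.2]
  rfl

theorem hat_kl {v : ℝ × E} (hv : Cl v) : hat (kl v) = v.1⁻¹ • v := by
  refine Prod.ext ?_ rfl
  simp [hat, inv_mul_cancel₀ hv.2.ne']

theorem continuousAt_kl {v : ℝ × E} (hv : Cl v) : ContinuousAt (kl : ℝ × E → E) v := by
  unfold kl
  exact (continuous_fst.continuousAt.inv₀ hv.2.ne').smul continuous_snd.continuousAt

theorem continuous_hat : Continuous (hat : E → ℝ × E) := by
  unfold hat
  fun_prop

theorem tl_hat {x : E} (hx : ‖x‖ < 1) : Tl (hat x) := hx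

theorem nm_hat_le (x : E) : nm (hat x) ≤ 1 := by
  unfold nm
  rw [lor_self]
  refine Real.sqrt_le_one.2 ?_
  simp [hat]

end Klein

section Om

variable {E : Type} [NormedAddCommGroup E] [InnerProductSpace ℝ E]
variable {G : Type} [Group G]

open Classical in
/-- The weights on the Klein ball. -/
noncomputable def om (ρ : HypAction G E) (Qs : Set (Sph E)) (ℓ : Sph E → ℝ × E) (R κ₁ : ℝ) :
    G ⊕ Sph E → E → ℝ
  | Sum.inl g, x => max 0 (R * nm (hat x) - lor (hat x) (ρ.map g (1, 0)))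
  | Sum.inr q, x => if q ∈ Qs then max 0 (κ₁ * nm (hat x) - lor (hat x) (ℓ q)) else 0

/-- The values. -/
noncomputable def bb (α : G →* (Sph E ≃ₜ Sph E)) (a : Fin 3 → Sph E) : G ⊕ Sph E → E
  | Sum.inl g => ((cp (act α g a) : Sph E) : E)
  | Sum.inr q => (q : E)

variable {ρ : HypAction G E} {Qs : Set (Sph E)} {ℓ : Sph E → ℝ × E} {R κ₁ κ c₀ : ℝ}
  {α : G →* (Sph E ≃ₜ Sph E)}

theorem om_nonneg (i : G ⊕ Sph E) (x : E) : 0 ≤ om ρ Qs ℓ R κ₁ i x := by
  rcases i with g | q
  · exact le_max_left _ _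
  · simp only [om]
    split_ifs
    · exact le_max_left _ _
    · exact le_rfl

theorem continuous_om (i : G ⊕ Sph E) : Continuous (om ρ Qs ℓ R κ₁ i) := by
  have h1 : Continuous fun x : E => nm (hat x) := continuous_nm.comp continuous_hat
  have h2 : ∀ v : ℝ × E, Continuous fun x : E => lor (hat x) v := fun v =>
    continuous_lor.comp (continuous_hat.prodMk continuous_const)
  rcases i with g | q
  · exact continuous_const.max ((continuous_const.mul h1).sub (h2 _))
  · by_cases hq : q ∈ Qs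
    · have e : om ρ Qs ℓ R κ₁ (Sum.inr q) =
          fun x => max 0 (κ₁ * nm (hat x) - lor (hat x) (ℓ q)) := by
        funext x
        simp only [om, if_pos hq]
      rw [e]
      exact continuous_const.max ((continuous_const.mul h1).sub (h2 _))
    · have e : om ρ Qs ℓ R κ₁ (Sum.inr q) = fun x => 0 := by
        funext x
        simp only [om, if_neg hq]
      rw [e]
      exact continuous_const

theorem om_inl {w : ℝ × E} (hw : Cl w) (g : G) : 0 < om ρ Qs ℓ R κ₁ (Sum.inl g) (kl w) ↔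
    lor w (ρ.map g (1, 0)) < R * nm w := by
  have h1 : R * nm (hat (kl w)) - lor (hat (kl w)) (ρ.map g (1, 0)) =
      w.1⁻¹ * (R * nm w - lor w (ρ.map g (1, 0))) := by
    rw [hat_kl hw, nm_smul (inv_nonneg.2 hw.2.le), lor_smul_left]; ring
  have h2 := inv_pos.2 hw.2
  simp only [om]
  rw [h1, lt_max_iff]
  constructor
  · rintro (h | h)
    · exact absurd h (lt_irrefl _)
    · have := (mul_pos_iff_of_pos_left h2).1 h
      linarith
  · intro h
    right
    exact mul_pos h2 (by linarith)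

theorem om_inr {w : ℝ × E} (hw : Cl w) (q : Sph E) : 0 < om ρ Qs ℓ R κ₁ (Sum.inr q) (kl w) ↔
    q ∈ Qs ∧ lor w (ℓ q) < κ₁ * nm w := by
  have h1 : κ₁ * nm (hat (kl w)) - lor (hat (kl w)) (ℓ q) =
      w.1⁻¹ * (κ₁ * nm w - lor w (ℓ q)) := by
    rw [hat_kl hw, nm_smul (inv_nonneg.2 hw.2.le), lor_smul_left]; ring
  have h2 := inv_pos.2 hw.2
  simp only [om]
  by_cases hq : q ∈ Qs
  · rw [if_pos hq, h1, lt_max_iff]
    constructor
    · rintro (h | h)
      · exact absurd h (lt_irrefl _)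
      · have := (mul_pos_iff_of_pos_left h2).1 h
        exact ⟨hq, by linarith⟩
    · intro h
      right
      exact mul_pos h2 (by linarith [h.2])
  · rw [if_neg hq]
    constructor
    · intro h
      exact absurd h (lt_irrefl _)
    · intro h
      exact absurd h.1 hq

theorem om_fin (hT : TarW ρ α Qs ℓ κ c₀) (hR : 0 < R) (hκ₁ : 0 < κ₁) {x : E} (hx : ‖x‖ < 1) :
    ∃ F : Set (G ⊕ Sph E), F.Finite ∧ ∀ᶠ x' in 𝓝 x, ∀ i, om ρ Qs ℓ R κ₁ i x' ≠ 0 → i ∈ F := by
  set a := 1 - ‖x‖ with ha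
  have ha0 : 0 < a := sub_pos.2 hx
  have h1 : ∀ᶠ x' : E in 𝓝 x, a / 2 < 1 - ‖x'‖ := by
    have : ContinuousAt (fun x' : E => 1 - ‖x'‖) x := by fun_prop
    refine this.eventually_const_lt ?_
    change a / 2 < a
    linarith
  refine ⟨Sum.inl '' {g | T ρ g ≤ 2 * R / a} ∪ Sum.inr '' {q | q ∈ Qs ∧ (ℓ q).1 ≤ 2 * κ₁ / a},
    ((hT.hfin _).image _).union ((hT.fin _).image _), ?_⟩
  filter_upwards [h1] with x' hx' i hi
  have hn := nm_hat_le x'
  have hpos : 0 < om ρ Qs ℓ R κ₁ i x' := lt_of_le_of_ne (om_nonneg i x') (Ne.symm hi)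
  rcases i with g | q
  · left
    refine ⟨g, ?_, rfl⟩
    simp only [om, lt_max_iff, lt_irrefl, false_or] at hpos
    have h3 := (cl_o.map (ρ := ρ) g).lor_ge (v := hat x')
    change (1 - ‖x'‖) * T ρ g ≤ _ at h3
    have h4 : a / 2 * T ρ g ≤ (1 - ‖x'‖) * T ρ g :=
      mul_le_mul_of_nonneg_right hx'.le (T_pos (ρ := ρ) g).le
    have h5 : R * nm (hat x') ≤ R * 1 := mul_le_mul_of_nonneg_left hn hR.le
    change T ρ g ≤ _
    rw [le_div_iff₀ ha0]
    linarith
  · right
    simp only [om] at hpos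
    by_cases hq : q ∈ Qs
    · refine ⟨q, ⟨hq, ?_⟩, rfl⟩
      simp only [if_pos hq, lt_max_iff, lt_irrefl, false_or] at hpos
      have h3 := (hT.cl q hq).lor_ge (v := hat x')
      change (1 - ‖x'‖) * (ℓ q).1 ≤ _ at h3
      have h4 : a / 2 * (ℓ q).1 ≤ (1 - ‖x'‖) * (ℓ q).1 :=
        mul_le_mul_of_nonneg_right hx'.le (hT.cl q hq).2.le
      have h5 : κ₁ * nm (hat x') ≤ κ₁ * 1 := mul_le_mul_of_nonneg_left hn hκ₁.le
      rw [le_div_iff₀ ha0]
      linarith
    · rw [if_neg hq] at hpos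
      exact absurd hpos (lt_irrefl _)

theorem norm_bb (a : Fin 3 → Sph E) (i : G ⊕ Sph E) : ‖bb α a i‖ = 1 := by
  rcases i with g | q
  · exact TH289.C.norm_coe _
  · exact TH289.C.norm_coe _

end Om

end Pool.Agent.H72.Rel
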