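import Pool.Agent.H72.Rel.R11

/-!
# The barycentre map of the ball is onto hyperbolic space, continued
-/

set_option autoImplicit false

open Filter Topology Set Metric Pool.Agent.TH631.RC
open Pool.Agent.TH289.C (sep act wt wt_nonneg wt_pos continuous_wt finite_supp IsConvergenceAction
  wt_act continuous_sep act_mul act_one sig sep_sig near_sig continuousAt_sig Near Sph norm_coe)
open Pool.Agent.H72.Dj (Conv cp extract_seq freq_const topo)

namespace Pool.Agent.H72.Rel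

variable {E : Type} [NormedAddCommGroup E] [InnerProductSpace ℝ E]
variable {G : Type} [Group G]
variable {ρ : HypAction G E} {Qs : Set (Sph E)} {ℓ : Sph E → ℝ × E} {R κ₁ κ c₀ ε : ℝ}
  {α : G →* (Sph E ≃ₜ Sph E)} {u : Sph E → (Fin 3 → Sph E) → ℝ}

open Classical in
/-- The parabolic point of a triple in the interior of a horoball. -/
noncomputable def qs (Qs : Set (Sph E)) (u : Sph E → (Fin 3 → Sph E) → ℝ) (t : Fin 3 → Sph E) : E :=
  if h : ∃ q ∈ Qs, 0 < u q t then (h.choose : E) else 0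

theorem qs_eq (hD : DomW α Qs u ε) {t : Fin 3 → Sph E} (ht : 0 < sep t) {q : Sph E} (hq : q ∈ Qs)
    (hu : 0 < u q t) : qs Qs u t = (q : E) := by
  classical
  have h : ∃ q ∈ Qs, 0 < u q t := ⟨q, hq, hu⟩
  unfold qs
  rw [dif_pos h]
  obtain ⟨h1, h2⟩ := h.choose_spec
  by_contra hne
  exact hD.disj q hq _ h1 (fun h0 => hne (by rw [← h0])) t ht hu h2

variable (ρ Qs ℓ R κ₁ ε α u) in
/-- The map of the ball. -/
noncomputable def Ph (a : Fin 3 → Sph E) (p : E) : E := kl (W α ρ u ℓ ε (sig a p))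

variable (ρ Qs ℓ R κ₁ ε α u) in
open Classical in
/-- The coarse inverse composed with the map of the ball. -/
noncomputable def Th (a : Fin 3 → Sph E) (p : E) : E :=
  if ‖p‖ < 1 then
    if ‖Ph ρ ℓ ε α u a p‖ < 1 then avg (om ρ Qs ℓ R κ₁) (bb α a) (Ph ρ ℓ ε α u a p)
    else qs Qs u (sig a p)
  else p

variable {a : Fin 3 → Sph E}

section Basic

variable (hD : DomW α Qs u ε) (hT : TarW ρ α Qs ℓ κ c₀) (ha : ∀ i j, i ≠ j → a i ≠ a j)

include hD hT ha

theorem Ph_cl {p : E} (hp : ‖p‖ < 1) : Cl (W α ρ u ℓ ε (sig a p)) :=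
  W_cl hD hT (sep_sig ha hp)

theorem Ph_le {p : E} (hp : ‖p‖ < 1) : ‖Ph ρ ℓ ε α u a p‖ ≤ 1 := norm_kl_le (Ph_cl hD hT ha hp)

theorem Ph_lt {p : E} (hp : ‖p‖ < 1) :
    ‖Ph ρ ℓ ε α u a p‖ < 1 ↔ Tl (W α ρ u ℓ ε (sig a p)) := kl_lt (Ph_cl hD hT ha hp)

theorem continuousAt_Ph {p : E} (hp : ‖p‖ < 1) : ContinuousAt (Ph ρ ℓ ε α u a) p := by
  have h1 : ContinuousAt (fun p => W α ρ u ℓ ε (sig a p)) p :=
    ContinuousAt.comp (g := W α ρ u ℓ ε) (f := sig a) (continuousAt_W hD (sep_sig ha hp))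
      (continuousAt_sig a hp)
  exact ContinuousAt.comp (g := kl) (f := fun p => W α ρ u ℓ ε (sig a p))
    (continuousAt_kl (Ph_cl hD hT ha hp)) h1

/-- Sequences of the thick part. -/
theorem exists_seq {ξ : Sph E} [FiniteDimensional ℝ E] {p : ℕ → E} (hp : ∀ n, ‖p n‖ < 1)
    (hlt : ∀ n, ‖Ph ρ ℓ ε α u a (p n)‖ < 1)
    (hn : ∀ n : ℕ, Near ξ (1 / ((n : ℝ) + 1)) (sig a (p n))) :
    ∃ (g : ℕ → G) (φ : ℕ → ℕ) (b : Sph E), StrictMono φ ∧ Conv α (fun n => g (φ n)) ξ b ∧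
      ∀ n, act α (g n)⁻¹ (sig a (p n)) ∈ {t : Fin 3 → Sph E | ε / 2 ≤ sep t} := by
  have : ProperSpace E := FiniteDimensional.proper ℝ E
  have hcS : CompactSpace (Sph E) := isCompact_iff_compactSpace.1 (isCompact_sphere (0 : E) 1)
  have h1 : ∀ n, ∃ g, 0 < wt α ε g (sig a (p n)) := fun n =>
    W_thick hD hT (sep_sig ha (hp n)) ((Ph_lt hD hT ha (hp n)).1 (hlt n))
  choose g hg using h1
  obtain ⟨φ, hφ, b, hb⟩ := TH289.C.attract_of_near hD.conv (half_pos hD.pos) (ξ := ξ) g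
    (fun n => sig a (p n)) hn (fun n => (wt_pos.1 (hg n)).le)
  exact ⟨g, φ, b, hφ, hb, fun n => (wt_pos.1 (hg n)).le⟩

/-- The map of the ball is proper. -/
theorem Ph_proper [FiniteDimensional ℝ E] (ξ : Sph E) {r : ℝ} (hr : r < 1) :
    ∀ᶠ p in 𝓝[ball 0 1] (ξ : E), r < ‖Ph ρ ℓ ε α u a p‖ := by
  have : ProperSpace E := FiniteDimensional.proper ℝ E
  have hcS : CompactSpace (Sph E) := isCompact_iff_compactSpace.1 (isCompact_sphere (0 : E) 1)
  by_contra hc
  rw [Filter.not_eventually] at hc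
  obtain ⟨p, hp⟩ := extract_seq ha hc
  have hp1 : ∀ n, ‖p n‖ < 1 := fun n => (hp n).1
  have hle : ∀ n, ‖Ph ρ ℓ ε α u a (p n)‖ ≤ r := fun n => not_lt.1 (hp n).2.1
  have hr0 : 0 ≤ r := (norm_nonneg _).trans (hle 0)
  obtain ⟨g, φ, b, hφ, hC, hA⟩ := exists_seq hD hT ha hp1 (fun n => (hle n).trans_lt hr)
    (fun n => (hp n).2.2)
  have hs : 0 < 1 - r ^ 2 := by nlinarith
  have hs' := Real.sqrt_pos.2 hs
  set R' := 2 / √(1 - r ^ 2) with hR'
  have hR'0 : 0 < R' := by positivity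
  obtain ⟨F₁, F₂, h1, -, h3⟩ := glob_fin hD hT R' 1 hR'0 one_pos
  have h4 : ∀ n, (g n)⁻¹ ∈ F₁ := by
    intro n
    have ht := sep_sig ha (hp1 n)
    have htl := (Ph_lt hD hT ha (hp1 n)).1 ((hle n).trans_lt hr)
    have hW := W_act hD hT ht (g n)⁻¹ (ρ := ρ)
    refine (h3 _ (hA n) (by rw [hW]; exact htl.map _)).1 _ ?_
    rw [hW, nm_map, ρ.lor_map, lor_o]
    set w := W α ρ u ℓ ε (sig a (p n)) with hw
    have hcl : Cl w := htl.cl
    have h5 : ‖w.2‖ ≤ r * w.1 := by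
      have := hle n
      change ‖kl w‖ ≤ r at this
      rw [norm_kl hcl, div_le_iff₀ hcl.2] at this
      exact this
    have h6 : (1 - r ^ 2) * w.1 ^ 2 ≤ nm w ^ 2 := by
      rw [nm_sq hcl, lor_self]
      have := norm_nonneg w.2
      nlinarith
    have h7 : √(1 - r ^ 2) * w.1 ≤ nm w := by
      have e1 : (√(1 - r ^ 2) * w.1) ^ 2 ≤ nm w ^ 2 := by
        rw [mul_pow, Real.sq_sqrt hs.le]; exact h6
      exact (pow_le_pow_iff_left₀ (mul_nonneg hs'.le hcl.2.le) (nm_nonneg w) two_ne_zero).1 e1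
    rw [hR', div_mul_eq_mul_div, lt_div_iff₀ hs']
    have := htl.nm_pos
    linarith
  have h5 := hC.cofinite ha
  obtain ⟨n, hn⟩ := (h5.eventually ((h1.image (fun g => g⁻¹)).compl_mem_cofinite)).exists
  exact hn ⟨(g (φ n))⁻¹, h4 _, inv_inv _⟩

end Basic

section Main

variable (hD : DomW α Qs u ε) (hT : TarW ρ α Qs ℓ κ c₀) (ha : ∀ i j, i ≠ j → a i ≠ a j)
  (hR : 0 < R) (hκ₁ : 0 < κ₁) (hpos : ∀ t : Fin 3 → Sph E, 0 < sep t → Tl (W α ρ u ℓ ε t) →
      (∃ q ∈ Qs, lor (W α ρ u ℓ ε t) (ℓ q) < κ₁ * nm (W α ρ u ℓ ε t)) ∨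
      ∃ g, lor (W α ρ u ℓ ε t) (ρ.map g (1, 0)) < R * nm (W α ρ u ℓ ε t))

include hD hT ha hR hκ₁ hpos

omit hR hκ₁ in
theorem exists_om {p : E} (hp : ‖p‖ < 1) (hlt : ‖Ph ρ ℓ ε α u a p‖ < 1) :
    ∃ i, 0 < om ρ Qs ℓ R κ₁ i (Ph ρ ℓ ε α u a p) := by
  have hcl := Ph_cl hD hT ha hp
  rcases hpos _ (sep_sig ha hp) ((Ph_lt hD hT ha hp).1 hlt) with ⟨q, hq, h⟩ | ⟨g, h⟩
  · exact ⟨Sum.inr q, (om_inr hcl q).2 ⟨hq, h⟩⟩
  · exact ⟨Sum.inl g, (om_inl hcl g).2 h⟩

theorem Th_avg_mem {p : E} (hp : ‖p‖ < 1) (hlt : ‖Ph ρ ℓ ε α u a p‖ < 1) {U : Set E}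
    (hU : Convex ℝ U)
    (hmem : ∀ i, 0 < om ρ Qs ℓ R κ₁ i (Ph ρ ℓ ε α u a p) → bb α a i ∈ U) :
    avg (om ρ Qs ℓ R κ₁) (bb α a) (Ph ρ ℓ ε α u a p) ∈ U := by
  obtain ⟨i₀, hi₀⟩ := exists_om hD hT ha hpos hp hlt
  obtain ⟨F, hF, hF'⟩ := om_fin (R := R) hT hR hκ₁ hlt
  exact avg_mem (fun i x => om_nonneg i x) (hF.subset fun i hi => hF'.self_of_nhds i hi) hi₀ hU
    hmem

/-- Continuity at the boundary. -/
theorem Th_bd [FiniteDimensional ℝ E] (ξ : Sph E) {δ : ℝ} (hδ : 0 < δ) :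
    ∀ᶠ p in 𝓝[ball 0 1] (ξ : E), dist (Th ρ Qs ℓ R κ₁ ε α u a p) (ξ : E) < δ := by
  have : ProperSpace E := FiniteDimensional.proper ℝ E
  have hcS : CompactSpace (Sph E) := isCompact_iff_compactSpace.1 (isCompact_sphere (0 : E) 1)
  -- the null case
  have h1 : ∀ᶠ p in 𝓝[ball 0 1] (ξ : E), ¬ ‖Ph ρ ℓ ε α u a p‖ < 1 →
      dist (Th ρ Qs ℓ R κ₁ ε α u a p) (ξ : E) < δ := by
    obtain ⟨ε', hε', h⟩ := hD.near ξ (ball ξ δ) (ball_mem_nhds ξ hδ)
    have h2 := (near_sig ha ξ hε').filter_mono (nhdsWithin_le_nhds (s := ball (0 : E) 1))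
    filter_upwards [h2, self_mem_nhdsWithin] with p hp1 hp2 hnt
    have hp : ‖p‖ < 1 := by simpa using hp2
    have ht := sep_sig ha hp
    obtain ⟨q, hq, hu, -⟩ := W_null hD hT ht (fun h0 => hnt ((Ph_lt hD hT ha hp).2 h0))
    unfold Th
    rw [if_pos hp, if_neg hnt, qs_eq hD ht hq hu]
    exact h _ ht hp1 q hq hu
  -- the timelike case
  have h2 : ∀ᶠ p in 𝓝[ball 0 1] (ξ : E), ‖Ph ρ ℓ ε α u a p‖ < 1 →
      dist (Th ρ Qs ℓ R κ₁ ε α u a p) (ξ : E) < δ := by
    by_contra hc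
    rw [Filter.not_eventually] at hc
    obtain ⟨p, hp⟩ := extract_seq ha hc
    have hp1 : ∀ n, ‖p n‖ < 1 := fun n => (hp n).1
    have hlt : ∀ n, ‖Ph ρ ℓ ε α u a (p n)‖ < 1 := fun n => by
      by_contra h0
      exact (hp n).2.1 fun h3 => absurd h3 h0
    have hd : ∀ n, ¬ dist (Th ρ Qs ℓ R κ₁ ε α u a (p n)) (ξ : E) < δ := fun n h0 =>
      (hp n).2.1 fun _ => h0
    have h3 : ∀ n, ∃ i, 0 < om ρ Qs ℓ R κ₁ i (Ph ρ ℓ ε α u a (p n)) ∧
        bb α a i ∉ ball (ξ : E) δ := by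
      intro n
      by_contra hc2
      push Not at hc2
      have h4 := Th_avg_mem hD hT ha hR hκ₁ hpos (hp1 n) (hlt n) (convex_ball (ξ : E) δ) hc2
      refine hd n ?_
      unfold Th
      rw [if_pos (hp1 n), if_pos (hlt n)]
      exact h4
    choose i hi1 hi2 using h3
    obtain ⟨g, φ, b, hφ, hC, hA⟩ := exists_seq hD hT ha hp1 hlt (fun n => (hp n).2.2)
    obtain ⟨F₁, F₂, hF₁, hF₂, hF⟩ := glob_fin hD hT R κ₁ hR hκ₁
    set j : ℕ → G ⊕ Sph E := fun n => Sum.map (fun g' => (g n)⁻¹ * g') (fun q => α (g n)⁻¹ q) (i n)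
      with hj
    have hjF : ∀ n, j (φ n) ∈ Sum.inl '' F₁ ∪ Sum.inr '' F₂ := by
      intro n
      set m := φ n with hm
      have ht := sep_sig ha (hp1 m)
      have hcl := Ph_cl hD hT ha (hp1 m)
      have htl := (Ph_lt hD hT ha (hp1 m)).1 (hlt m)
      have hW := W_act hD hT ht (g m)⁻¹ (ρ := ρ)
      have h4 := hF _ (hA m) (by rw [hW]; exact htl.map _)
      have h5 := hi1 m
      rcases hcase : i m with g' | q
      · left
        rw [hcase] at h5
        have h6 := (om_inl hcl g').1 h5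
        refine ⟨(g m)⁻¹ * g', h4.1 _ ?_, by rw [hj]; simp only [hcase, Sum.map_inl]⟩
        rw [hW, nm_map, ρ.map_mul, ρ.lor_map]
        exact h6
      · right
        rw [hcase] at h5
        obtain ⟨hq, h6⟩ := (om_inr hcl q).1 h5
        refine ⟨α (g m)⁻¹ q, h4.2 _ (hD.inv q hq _) ?_, by rw [hj]; simp only [hcase, Sum.map_inr]⟩
        rw [hW, nm_map, ← hT.move q hq, ρ.lor_map]
        exact h6
    obtain ⟨j₀, ψ, hψ, hψj⟩ := freq_const ((hF₁.image _).union (hF₂.image _)) hjF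
    have hC' := hC.comp hψ.tendsto_atTop
    rcases j₀ with m | q
    · have hsa : 0 < sep a := TH289.C.lt_sep fun i j hij => dist_pos.2 (ha i j hij)
      have h4 := (hC'.mul_right m).cp hsa hδ
      obtain ⟨n, hn⟩ := h4.exists
      have h5 := hψj n
      apply hi2 (φ (ψ n))
      rcases hcase : i (φ (ψ n)) with g' | q
      · rw [hj] at h5
        simp only [hcase, Sum.map_inl, Sum.inl.injEq] at h5
        have h6 : g' = g (φ (ψ n)) * m := by rw [← h5, mul_inv_cancel_left]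
        rw [h6]
        exact hn
      · rw [hj] at h5
        simp [hcase] at h5
    · have hqQ : q ∈ Qs := by
        have h5 := hψj 0
        rcases hcase : i (φ (ψ 0)) with g' | q'
        · rw [hj] at h5
          simp [hcase] at h5
        · rw [hj] at h5
          simp only [hcase, Sum.map_inr, Sum.inr.injEq] at h5
          rw [← h5]
          have h6 := hi1 (φ (ψ 0))
          rw [hcase] at h6
          exact hD.inv _ ((om_inr (Ph_cl hD hT ha (hp1 _)) q').1 h6).1 _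
      have h4 := hD.attract _ ξ b hC' q hqQ
      obtain ⟨n, hn⟩ := (h4.eventually (ball_mem_nhds ξ hδ)).exists
      have h5 := hψj n
      apply hi2 (φ (ψ n))
      rcases hcase : i (φ (ψ n)) with g' | q'
      · rw [hj] at h5
        simp [hcase] at h5
      · rw [hj] at h5
        simp only [hcase, Sum.map_inr, Sum.inr.injEq] at h5
        have h6 : q' = α (g (φ (ψ n))) q := by rw [← h5, Dj.map_inv_apply']
        rw [h6]
        exact hn
  filter_upwards [h1, h2] with p e1 e2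
  by_cases h : ‖Ph ρ ℓ ε α u a p‖ < 1
  · exact e2 h
  · exact e1 h

/-- Continuity in the interior. -/
theorem Th_int {p : E} (hp : ‖p‖ < 1) : ContinuousAt (Th ρ Qs ℓ R κ₁ ε α u a) p := by
  have h1 : ∀ᶠ q : E in 𝓝 p, ‖q‖ < 1 := continuous_norm.continuousAt.eventually_lt_const hp
  have hPc := continuousAt_Ph hD hT ha hp
  by_cases hlt : ‖Ph ρ ℓ ε α u a p‖ < 1
  · have h2 : ∀ᶠ q in 𝓝 p, ‖Ph ρ ℓ ε α u a q‖ < 1 := hPc.norm.eventually_lt_const hlt
    have h3 : (fun q => avg (om ρ Qs ℓ R κ₁) (bb α a) (Ph ρ ℓ ε α u a q)) =ᶠ[𝓝 p]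
        Th ρ Qs ℓ R κ₁ ε α u a := by
      filter_upwards [h1, h2] with q e1 e2
      unfold Th
      rw [if_pos e1, if_pos e2]
    refine ContinuousAt.congr ?_ h3
    obtain ⟨i₀, hi₀⟩ := exists_om hD hT ha hpos hp hlt
    have h4 : ContinuousAt (avg (om ρ Qs ℓ R κ₁) (bb α a)) (Ph ρ ℓ ε α u a p) :=
      avg_cont (bb α a) (fun i => (continuous_om i).continuousAt) (fun i x => om_nonneg i x)
        (om_fin (R := R) hT hR hκ₁ hlt) hi₀
    exact ContinuousAt.comp (g := avg (om ρ Qs ℓ R κ₁) (bb α a)) (f := Ph ρ ℓ ε α u a) h4 hPc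
  · -- near a null value the map is constant
    have ht := sep_sig ha hp
    have hnt : ¬ Tl (W α ρ u ℓ ε (sig a p)) := fun h0 => hlt ((Ph_lt hD hT ha hp).2 h0)
    obtain ⟨q, hq, hu, -⟩ := W_null hD hT ht hnt
    set κ' := min (κ₁ / 2) (min (κ / (2 * κ₁)) (c₀ / (2 * R))) with hκ'
    have hκ'0 : 0 < κ' := lt_min (half_pos hκ₁) (lt_min (div_pos hT.κpos (by positivity))
      (div_pos hT.c₀pos (by positivity)))
    have hk0 : κ' < κ₁ := (min_le_left _ _).trans_lt (by linarith)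
    have hk1 : 2 * κ' * κ₁ ≤ κ := by
      have : κ' ≤ κ / (2 * κ₁) := (min_le_right _ _).trans (min_le_left _ _)
      rw [le_div_iff₀ (by positivity)] at this
      linarith
    have hk2 : 2 * κ' * R ≤ c₀ := by
      have : κ' ≤ c₀ / (2 * R) := (min_le_right _ _).trans (min_le_right _ _)
      rw [le_div_iff₀ (by positivity)] at this
      linarith
    have h2 := (continuousAt_sig a hp).eventually (near_null hD hT ht hnt hq hu hκ'0)
    have h3 : ∀ᶠ p' in 𝓝 p, (q : E) = Th ρ Qs ℓ R κ₁ ε α u a p' := by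
      filter_upwards [h1, h2] with p' e1 e2
      unfold Th
      rw [if_pos e1]
      by_cases hlt' : ‖Ph ρ ℓ ε α u a p'‖ < 1
      · rw [if_pos hlt']
        have htl' := (Ph_lt hD hT ha e1).1 hlt'
        have hcl' := Ph_cl hD hT ha e1
        have hn := htl'.nm_pos
        have h4 : avg (om ρ Qs ℓ R κ₁) (bb α a) (Ph ρ ℓ ε α u a p') ∈ ({(q : E)} : Set E) := by
          refine Th_avg_mem hD hT ha hR hκ₁ hpos e1 hlt' (convex_singleton _) ?_
          intro i hi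
          rcases i with g | q'
          · exfalso
            have hg := (om_inl hcl' g).1 hi
            have h1 := only_cusp' hD.inv hT htl' hq e2.2.2 g
            have h2 : 2 * κ' * lor (W α ρ u ℓ ε (sig a p')) (ρ.map g (1, 0)) <
                2 * κ' * (R * nm (W α ρ u ℓ ε (sig a p'))) :=
              mul_lt_mul_of_pos_left hg (by positivity)
            have h3 : 2 * κ' * R * nm (W α ρ u ℓ ε (sig a p')) ≤
                c₀ * nm (W α ρ u ℓ ε (sig a p')) := mul_le_mul_of_nonneg_right hk2 hn.le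
            linarith
          · obtain ⟨hq', hqq⟩ := (om_inr hcl' q').1 hi
            by_contra hne
            have hne' : q' ≠ q := fun h0 => hne (by rw [h0]; rfl)
            have h1 := only_cusp hT htl' hq e2.2.2 hq' hne'
            have h2 : 2 * κ' * lor (W α ρ u ℓ ε (sig a p')) (ℓ q') <
                2 * κ' * (κ₁ * nm (W α ρ u ℓ ε (sig a p'))) :=
              mul_lt_mul_of_pos_left hqq (by positivity)
            have h3 : 2 * κ' * κ₁ * nm (W α ρ u ℓ ε (sig a p')) ≤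
                κ * nm (W α ρ u ℓ ε (sig a p')) := mul_le_mul_of_nonneg_right hk1 hn.le
            linarith
        exact h4.symm
      · rw [if_neg hlt', qs_eq hD e2.1 hq e2.2.1]
    exact (continuousAt_const (y := (q : E))).congr h3

/-- **The barycentre map is onto.** -/
theorem Ph_surj [FiniteDimensional ℝ E] [Nontrivial E] {x₀ : E} (hx₀ : ‖x₀‖ < 1) :
    ∃ p : E, ‖p‖ < 1 ∧ Ph ρ ℓ ε α u a p = x₀ := by
  classical
  by_contra hcon
  push Not at hcon
  set J : E → E := fun p => if ‖p‖ < 1 then jf x₀ (Ph ρ ℓ ε α u a p) else 0 with hJ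
  refine topo (W := E) le_rfl J (Th ρ Qs ℓ R κ₁ ε α u a) ?_ ?_ ?_ ?_ ?_ ?_
  · intro p hpB
    have hpn : ‖p‖ ≤ 1 := by simpa using hpB
    rcases hpn.eq_or_lt with hp1 | hp1
    · obtain ⟨ξ, rfl⟩ : ∃ ξ : Sph E, (ξ : E) = p := ⟨⟨p, by simpa using hp1⟩, rfl⟩
      have hJξ : J (ξ : E) = 0 := by simp [hJ, hp1]
      rw [ContinuousWithinAt, hJξ, Metric.tendsto_nhds]
      intro δ hδ
      obtain ⟨r, hr, hr'⟩ := jf_small hx₀ hδ
      have h1 := Ph_proper hD hT ha ξ hr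
      rw [eventually_nhdsWithin_iff] at h1 ⊢
      filter_upwards [h1] with p h2 _
      by_cases hp2 : ‖p‖ < 1
      · simp only [hJ, if_pos hp2]
        rw [dist_zero_right]
        exact hr' _ (h2 (by simpa using hp2)) (Ph_le hD hT ha hp2)
      · simp only [hJ, if_neg hp2, dist_self]
        exact hδ
    · have h1 : ∀ᶠ q : E in 𝓝 p, ‖q‖ < 1 := continuous_norm.continuousAt.eventually_lt_const hp1
      have h2 : (fun q => jf x₀ (Ph ρ ℓ ε α u a q)) =ᶠ[𝓝 p] J := by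
        filter_upwards [h1] with q hq
        simp [hJ, hq]
      refine (ContinuousAt.congr ?_ h2).continuousWithinAt
      exact ContinuousAt.comp (g := jf x₀) (f := Ph ρ ℓ ε α u a)
        (continuousAt_jf (hcon p hp1)) (continuousAt_Ph hD hT ha hp1)
  · intro p hpB
    have hpn : ‖p‖ ≤ 1 := by simpa using hpB
    rcases hpn.eq_or_lt with hp1 | hp1
    · obtain ⟨ξ, rfl⟩ : ∃ ξ : Sph E, (ξ : E) = p := ⟨⟨p, by simpa using hp1⟩, rfl⟩
      have hTξ : Th ρ Qs ℓ R κ₁ ε α u a (ξ : E) = ξ := by simp [Th, hp1]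
      rw [ContinuousWithinAt, hTξ, Metric.tendsto_nhds]
      intro δ hδ
      have h1 := Th_bd hD hT ha hR hκ₁ hpos ξ hδ
      rw [eventually_nhdsWithin_iff] at h1 ⊢
      filter_upwards [h1, ball_mem_nhds (ξ : E) hδ] with p h2 h3 _
      by_cases hp2 : ‖p‖ < 1
      · exact h2 (by simpa using hp2)
      · unfold Th
        simp only [if_neg hp2]
        exact h3
    · exact (Th_int hD hT ha hR hκ₁ hpos hp1).continuousWithinAt
  · intro p hpB
    have hpn : ‖p‖ ≤ 1 := by simpa using hpB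
    by_cases hp1 : ‖p‖ < 1
    · by_cases hlt : ‖Ph ρ ℓ ε α u a p‖ < 1
      · have := Th_avg_mem hD hT ha hR hκ₁ hpos hp1 hlt (convex_closedBall (0 : E) 1)
          (fun i _ => by simp [norm_bb])
        unfold Th
        rw [if_pos hp1, if_pos hlt]
        simpa using this
      · obtain ⟨q, hq, hu, -⟩ := W_null hD hT (sep_sig ha hp1)
          (fun h0 => hlt ((Ph_lt hD hT ha hp1).2 h0))
        unfold Th
        rw [if_pos hp1, if_neg hlt, qs_eq hD (sep_sig ha hp1) hq hu, norm_coe]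
    · unfold Th
      rw [if_neg hp1]
      exact hpn
  · intro p hp1
    simp [Th, hp1]
  · intro p hp1
    simp [hJ, hp1]
  · intro p hpB p' hpB' heq
    have hpn : ‖p‖ ≤ 1 := by simpa using hpB
    have hpn' : ‖p'‖ ≤ 1 := by simpa using hpB'
    -- the points where `J` vanishes
    have hz : ∀ p : E, ‖p‖ ≤ 1 → (J p = 0 ↔ ¬ (‖p‖ < 1 ∧ ‖Ph ρ ℓ ε α u a p‖ < 1)) := by
      intro p hpn
      by_cases hp1 : ‖p‖ < 1
      · simp only [hJ, if_pos hp1]
        by_cases hlt : ‖Ph ρ ℓ ε α u a p‖ < 1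
        · simp only [hp1, hlt, and_self, not_true_eq_false, iff_false]
          exact jf_ne hlt (hcon p hp1)
        · simp only [hlt, and_false, not_false_eq_true, iff_true]
          exact jf_sphere (le_antisymm (Ph_le hD hT ha hp1) (not_lt.1 hlt))
      · simp [hJ, hp1]
    have hn : ∀ p : E, ‖p‖ ≤ 1 → J p = 0 → ‖Th ρ Qs ℓ R κ₁ ε α u a p‖ = 1 := by
      intro p hpn h0
      have h1 := (hz p hpn).1 h0
      by_cases hp1 : ‖p‖ < 1
      · have hlt : ¬ ‖Ph ρ ℓ ε α u a p‖ < 1 := fun h2 => h1 ⟨hp1, h2⟩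
        obtain ⟨q, hq, hu, -⟩ := W_null hD hT (sep_sig ha hp1)
          (fun h0 => hlt ((Ph_lt hD hT ha hp1).2 h0))
        unfold Th
        rw [if_pos hp1, if_neg hlt, qs_eq hD (sep_sig ha hp1) hq hu, norm_coe]
      · unfold Th
        rw [if_neg hp1]
        exact le_antisymm hpn (not_lt.1 hp1)
    by_cases h0 : J p = 0
    · right
      exact ⟨hn p hpn h0, hn p' hpn' (heq ▸ h0)⟩
    · left
      have h0' : J p' ≠ 0 := heq ▸ h0
      have h1 := not_not.1 (mt (hz p hpn).2 h0)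
      have h2 := not_not.1 (mt (hz p' hpn').2 h0')
      simp only [hJ, if_pos h1.1, if_pos h2.1] at heq
      have h3 := jf_inj hx₀ h1.2 h2.2 (hcon p h1.1) (hcon p' h2.1) heq
      unfold Th
      rw [if_pos h1.1, if_pos h2.1, if_pos h1.2, if_pos h2.2, h3]

end Main

end Pool.Agent.H72.Rel
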