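import Pool.Agent.H72.Rel.R12
import Pool.Agent.H72.Dj.T11

/-!
# The action is that of a lattice
-/

set_option autoImplicit false

open Filter Topology Set Metric Pool.Agent.TH631.RC
open Pool.Agent.TH289.C (sep act wt wt_nonneg wt_pos continuous_wt finite_supp IsConvergenceAction
  wt_act continuous_sep act_mul act_one sig sep_sig near_sig continuousAt_sig Near Sph norm_coe)
open Pool.Agent.H72.Dj (Conv cp extract_seq freq_const topo)

namespace Pool.Agent.H72.Rel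

variable {E : Type} [NormedAddCommGroup E] [InnerProductSpace ℝ E]
variable {G : Type} [Group G] {ρ : HypAction G E}

theorem hyp_tl {v : ℝ × E} (hv : v ∈ HypSpace E) : Tl v := by
  have h1 := hv.1
  rw [lor_self] at h1
  have h2 := hv.2
  have h3 := norm_nonneg v.2
  unfold Tl
  nlinarith

theorem hyp_nm {v : ℝ × E} (hv : v ∈ HypSpace E) : nm v = 1 := by
  unfold nm
  rw [hv.1, Real.sqrt_one]

theorem hyp_map {v : ℝ × E} (hv : v ∈ HypSpace E) (g : G) : ρ.map g v ∈ HypSpace E :=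
  ⟨by rw [ρ.lor_map]; exact hv.1, ((hyp_tl hv).cl.map g).2⟩

/-- The action is properly discontinuous if the orbit of the base point is discrete. -/
theorem acts_of_fin (hfin : ∀ R : ℝ, {g : G | T ρ g ≤ R}.Finite) : ActsProperly ρ := by
  intro K hK hKc
  obtain ⟨M, hM⟩ := (hKc.image continuous_fst).bddAbove
  refine (hfin (2 * (M * M))).subset ?_
  rintro g ⟨v, hv, hgv⟩
  have h1 := (hyp_tl (hK hgv)).pair (cl_o.map (ρ := ρ) g) cl_o
  rw [(hK hgv).1, one_mul, lor_o, ρ.lor_map, lor_o, lor_o] at h1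
  have h2 : v.1 ≤ M := hM ⟨v, hv, rfl⟩
  have h3 : (ρ.map g v).1 ≤ M := hM ⟨_, hgv, rfl⟩
  have h4 := (hK hv).2
  have h5 := (hK hgv).2
  change T ρ g ≤ _
  have h6 : v.1 * (ρ.map g v).1 ≤ M * M := mul_le_mul h2 h3 h5.le (h4.le.trans h2)
  change T ρ g ≤ 2 * (v.1 * (ρ.map g v).1) at h1
  linarith

/-- Cusps of full rank. -/
theorem full_cusp {c : Sp E} [FiniteDimensional ℝ E] {P : Subgroup G}
    (hfix : ∀ g ∈ P, ρ.map g (light (c : E)) = light (c : E)) {C : ℝ}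
    (hC : ∀ v : ℝ × E, lor v v = 0 → lor v (light (c : E)) = 1 → ∃ g ∈ P, (ρ.map g v).1 ≤ C) :
    FullCusp ρ c := by
  have : ProperSpace E := FiniteDimensional.proper ℝ E
  have hcS : CompactSpace (Sp E) := isCompact_iff_compactSpace.1 (isCompact_sphere (0 : E) 1)
  have hC0 : 0 < C := by
    obtain ⟨g, hg, h⟩ := hC (lam c 0) (lam_null 0) (lam_light 0)
    exact ((cl_lam _).map g).2.trans_le h
  refine ⟨P, hfix, {w | C⁻¹ ≤ 1 - inner ℝ (w : E) (c : E)}, ?_, ?_, ?_⟩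
  · exact (isClosed_le continuous_const (by fun_prop)).isCompact
  · intro h
    have h1 : C⁻¹ ≤ 1 - inner ℝ (c : E) (c : E) := h
    rw [inner_self_one] at h1
    have := inv_pos.2 hC0
    linarith
  · intro w hw
    have hd := one_sub_inner_pos hw
    set d := 1 - inner ℝ (w : E) (c : E) with hdd
    have hlw : lor (light (w : E)) (light (c : E)) = d := lor_light w c
    obtain ⟨g, hg, hgC⟩ := hC (d⁻¹ • light (w : E))
      (by rw [lor_smul_left, lor_smul_right, lor_light, inner_self_one]; ring)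
      (by rw [lor_smul_left, hlw, inv_mul_cancel₀ hd.ne'])
    refine ⟨g, hg, F ρ g w, ?_, tt ρ g w, tt_pos g w, map_light g w⟩
    have h1 : lor (ρ.map g (light (w : E))) (light (c : E)) = d := by
      nth_rewrite 1 [← hfix g hg]
      rw [ρ.lor_map, hlw]
    rw [map_light, lor_smul_left, lor_light] at h1
    have h2 : tt ρ g w ≤ C * d := by
      rw [map_smul, Prod.smul_fst, smul_eq_mul, inv_mul_le_iff₀ hd] at hgC
      change tt ρ g w ≤ _ at hgC
      linarith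
    change C⁻¹ ≤ _
    rw [inv_le_iff_one_le_mul₀ hC0]
    have h3 : 0 ≤ 1 - inner ℝ (F ρ g w : E) (c : E) := one_sub_inner_nonneg _ _
    by_contra h4
    push Not at h4
    have h5 : tt ρ g w * (1 - inner ℝ (F ρ g w : E) (c : E)) ≤
        C * d * (1 - inner ℝ (F ρ g w : E) (c : E)) := mul_le_mul_of_nonneg_right h2 h3
    nlinarith

variable {α : G →* (Sph E ≃ₜ Sph E)} {Ps : Finset (Sph E)}

/-- The geometry of a proper action. -/
structure Geo (ρ : HypAction G E) (α : G →* (Sph E ≃ₜ Sph E)) (Ps : Finset (Sph E))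
    (c : Sph E → Sp E) (ℓ : Sph E → ℝ × E) (κ c₀ : ℝ) : Prop where
  cu : Cu ρ α Ps c
  tar : TarW ρ α (Q α Ps) ℓ κ c₀
  ell : ∀ p ∈ Ps, ∀ g, ℓ (α g p) = ρ.map g (light (c p : E))
  cover : ∀ κ' : ℝ, 0 < κ' → ∃ R : ℝ, 0 < R ∧ ∀ v ∈ HypSpace E,
    (∃ q ∈ Q α Ps, lor v (ℓ q) < κ') ∨ ∃ g, lor v (ρ.map g (1, 0)) < R

/-- **Proper actions have finite volume.** -/
theorem exists_geo [FiniteDimensional ℝ E] {n : ℕ} (hn : 2 ≤ n)
    (hE : Module.finrank ℝ E = n + 1) (hR : Rl α Ps) (hC : Cusp α Ps)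
    (hV : ∀ p ∈ Ps, VZn n α p) (hfin : ∀ R : ℝ, {g : G | T ρ g ≤ R}.Finite) :
    ∃ (c : Sph E → Sp E) (ℓ : Sph E → ℝ × E) (κ c₀ : ℝ), Geo ρ α Ps c ℓ κ c₀ := by
  classical
  have : ProperSpace E := FiniteDimensional.proper ℝ E
  have hcS : CompactSpace (Sph E) := isCompact_iff_compactSpace.1 (isCompact_sphere (0 : E) 1)
  have hnt : Nontrivial E := Module.nontrivial_of_finrank_pos (R := ℝ) (by omega)
  have hinf : Infinite (Sph E) := Dj.infinite_sph (by omega)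
  obtain ⟨u, ε, hD⟩ := hR.exists_domW hC
  obtain ⟨c, ℓ, κ₀, c₀, hcu, hT, hℓ⟩ := exists_tarW (ρ := ρ) hR hn hE hfin hV
  refine ⟨c, ℓ, κ₀, c₀, hcu, hT, hℓ, fun κ hκ => ?_⟩
  obtain ⟨R, hR0, hpos⟩ := glob_pos hD hT hκ
  obtain ⟨a, ha⟩ : ∃ a : Fin 3 → Sph E, ∀ i j, i ≠ j → a i ≠ a j :=
    ⟨fun i => Infinite.natEmbedding (Sph E) i, fun i j hij h0 => hij (by
      have := (Infinite.natEmbedding (Sph E)).injective h0
      exact Fin.ext this)⟩
  refine ⟨R, hR0, fun v hv => ?_⟩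
  have hvt := hyp_tl hv
  obtain ⟨p, hp, hpx⟩ := Ph_surj hD hT ha hR0 hκ hpos (x₀ := kl v) ((kl_lt hvt.cl).2 hvt)
  have ht := sep_sig ha hp
  set w := W α ρ u ℓ ε (sig a p) with hw
  have hcl : Cl w := W_cl hD hT ht
  have hkl : kl w = kl v := hpx
  have hwt : Tl w := by rw [← kl_lt hcl, hkl, kl_lt hvt.cl]; exact hvt
  have hwv : w = (w.1 * v.1⁻¹) • v := by
    have h1 := hat_kl hcl
    rw [hkl, hat_kl hvt.cl] at h1
    rw [← smul_smul, h1, smul_smul, mul_inv_cancel₀ hcl.2.ne', one_smul]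
  set s := w.1 * v.1⁻¹ with hs
  have hs0 : 0 < s := mul_pos hcl.2 (inv_pos.2 hvt.cl.2)
  have hnm : nm w = s := by rw [hwv, nm_smul hs0.le, hyp_nm hv, mul_one]
  rcases hpos _ ht hwt with ⟨q, hq, h⟩ | ⟨g, h⟩
  · left
    rw [← hw, hnm, hwv, lor_smul_left, mul_comm κ] at h
    exact ⟨q, hq, lt_of_mul_lt_mul_left h hs0.le⟩
  · right
    rw [← hw, hnm, hwv, lor_smul_left, mul_comm R] at h
    exact ⟨g, lt_of_mul_lt_mul_left h hs0.le⟩

variable {c : Sph E → Sp E} {ℓ : Sph E → ℝ × E} {κ c₀ : ℝ}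

theorem Geo.lattice [FiniteDimensional ℝ E] (hg : Geo ρ α Ps c ℓ κ c₀) : IsLattice ρ := by
  classical
  refine ⟨acts_of_fin hg.tar.hfin, fun κ hκ => ?_⟩
  obtain ⟨R, hR0, hpos⟩ := hg.cover κ hκ
  refine ⟨Ps.image c, ?_, R, fun v hv hcusp => ?_⟩
  · intro c' hc'
    obtain ⟨p, hp, rfl⟩ := Finset.mem_image.1 hc'
    obtain ⟨C, hC⟩ := hg.cu.coc p hp
    exact full_cusp (P := stab α p) (fun g hg' => hg.cu.fix p hp g hg') hC
  · rcases hpos v hv with ⟨q, ⟨p', hp', g, hgq⟩, h⟩ | ⟨g, h⟩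
    · exfalso
      rw [← hgq, hg.ell p' hp'] at h
      have h2 := hcusp g⁻¹ (c p') (Finset.mem_image_of_mem _ hp')
      rw [lor_adj, inv_inv] at h2
      exact absurd h (not_lt.2 h2)
    · refine ⟨g⁻¹, ?_⟩
      rw [← inv_inv g, ← lor_adj, lor_o] at h
      exact h.le

end Pool.Agent.H72.Rel
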