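import Pool.Agent.H72.Rel.R13

/-!
# Actions that are not proper are disjoint from the boundary
-/

set_option autoImplicit false

open Filter Topology Set Metric Pool.Agent.TH631.RC
open Pool.Agent.TH289.C (IsConvergenceAction Sph norm_coe LinAction qf IsIso Lc isStrictCone_Lc
  isIso_pres Kbar Dom Bd proj mem_Lc_iff Bd_Lc)
open Pool.Agent.H72.Dj (pa Prop')

namespace Pool.Agent.H72.Rel

variable {E : Type} [NormedAddCommGroup E] [InnerProductSpace ℝ E]
variable {G : Type} [Group G]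

/-- The action as a homomorphism. -/
noncomputable def toHom [FiniteDimensional ℝ E] (ρ : HypAction G E) :
    G →* ((ℝ × E) ≃L[ℝ] (ℝ × E)) :=
  (LinAction.hom (V := ℝ × E) ⟨fun g => LinearMap.toContinuousLinearMap (ρ.map g), ρ.map_one,
    ρ.map_mul⟩)

theorem toHom_apply [FiniteDimensional ℝ E] (ρ : HypAction G E) (g : G) (v : ℝ × E) :
    toHom ρ g v = ρ.map g v := rfl

theorem toHom_iso [FiniteDimensional ℝ E] (ρ : HypAction G E) (g : G) : IsIso (toHom ρ g) := by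
  refine ⟨fun v => ?_, ρ.pos g⟩
  have h1 := ρ.lor_map g v v
  rw [lor_self, lor_self] at h1
  exact h1

variable {ρ : HypAction G E}

theorem fin_of_prop [FiniteDimensional ℝ E]
    (h : Prop' (Lc E) (ContinuousLinearMap.fst ℝ ℝ E) (toHom ρ)) (R : ℝ) :
    {g : G | T ρ g ≤ R}.Finite := by
  have : ProperSpace E := FiniteDimensional.proper ℝ E
  set τ := ContinuousLinearMap.fst ℝ ℝ E with hτ
  set R' := max R 1 with hR'
  have hR'1 : 1 ≤ R' := le_max_right _ _
  have hR0 : 0 < R' := by linarith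
  set K : Set (ℝ × E) := {v | v.1 = 1 ∧ ‖v.2‖ ^ 2 ≤ 1 - (R'⁻¹) ^ 2} with hK
  have hKc : IsCompact K := by
    have h1 : K ⊆ ({1} : Set ℝ) ×ˢ closedBall (0 : E) 1 := by
      rintro v ⟨h1, h2⟩
      refine ⟨h1, ?_⟩
      rw [mem_closedBall_zero_iff]
      have : 0 ≤ (R'⁻¹) ^ 2 := by positivity
      nlinarith [norm_nonneg v.2]
    refine (isCompact_singleton.prod (isCompact_closedBall (0 : E) 1)).of_isClosed_subset ?_ h1
    exact (isClosed_eq continuous_fst continuous_const).inter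
      (isClosed_le (continuous_snd.norm.pow 2) continuous_const)
  have hKD : K ⊆ Dom (Lc E) τ := by
    rintro v ⟨h1, h2⟩
    refine ⟨mem_Lc_iff.2 ⟨?_, by rw [h1]; exact one_pos⟩, h1⟩
    unfold qf
    rw [h1]
    have : 0 < (R'⁻¹) ^ 2 := by positivity
    linarith
  refine (h K hKD hKc).subset fun g hg => ?_
  have hg' : T ρ g ≤ R := hg
  refine ⟨(1, 0), ⟨rfl, ?_⟩, ?_⟩
  · simp only [norm_zero]
    have : (R'⁻¹) ^ 2 ≤ 1 := by
      have h1 : R'⁻¹ ≤ 1 := inv_le_one_of_one_le₀ hR'1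
      have h2 : 0 ≤ R'⁻¹ := by positivity
      nlinarith
    norm_num
    simpa using this
  · have h1 : pa τ (toHom ρ) g (1, 0) = ((1 : ℝ), (T ρ g)⁻¹ • U ρ g) := by
      change (T ρ g)⁻¹ • ρ.map g (1, 0) = _
      rw [map_o]
      refine Prod.ext ?_ rfl
      simp [(T_pos (ρ := ρ) g).ne']
    rw [h1]
    refine ⟨rfl, ?_⟩
    change ‖(T ρ g)⁻¹ • U ρ g‖ ^ 2 ≤ _
    rw [norm_u_sq]
    have h2 : R'⁻¹ ≤ (T ρ g)⁻¹ := inv_anti₀ (T_pos g) (hg'.trans (le_max_left _ _))
    have h3 : 0 < R'⁻¹ := by positivity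
    nlinarith

/-- Actions on hyperbolic space that are not proper are disjoint from minimal convergence actions. -/
theorem disjoint_hyp [FiniteDimensional ℝ E] {X : Type} [MetricSpace X] [CompactSpace X]
    [Infinite X] {α : G →* (X ≃ₜ X)} (hα : IsConvergenceAction α)
    (hmin : ∀ x, Dense (range fun g => α g x)) (hfin : ¬ ∀ R : ℝ, {g : G | T ρ g ≤ R}.Finite)
    {R : Set (X × Sph E)} (hR : IsClosed R)
    (hinv : ∀ g x y, (x, y) ∈ R → (α g x, F ρ g y) ∈ R) :
    ∀ x x' y, (x, y) ∈ R → (x', y) ∈ R := by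
  have : ProperSpace E := FiniteDimensional.proper ℝ E
  have hcS : CompactSpace (Sph E) := isCompact_iff_compactSpace.1 (isCompact_sphere (0 : E) 1)
  have hpres : ∀ g, ∀ v ∈ Lc E, toHom ρ g v ∈ Lc E := fun g v hv => isIso_pres (toHom_iso ρ g) hv
  have hp : ¬ Prop' (Lc E) (ContinuousLinearMap.fst ℝ ℝ E) (toHom ρ) := fun h =>
    hfin (fin_of_prop h)
  have hlc : Continuous fun y : Sph E => ((1 : ℝ), (y : E)) :=
    continuous_const.prodMk continuous_subtype_val
  have hc : Continuous fun p : X × Sph E => (p.1, ((1 : ℝ), (p.2 : E))) :=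
    continuous_fst.prodMk (hlc.comp continuous_snd)
  have hR' : IsClosed ((fun p : X × Sph E => (p.1, ((1 : ℝ), (p.2 : E)))) '' R) :=
    (hR.isCompact.image hc).isClosed
  have h2 := Dj.disjoint_cone (X := X) (α := α) hα hmin (isStrictCone_Lc (E := E)) (by simp [Lc])
    hpres hp hR' (by
    rintro x v ⟨⟨x', y⟩, -, hxv⟩
    have e2 : ((1 : ℝ), (y : E)) = v := congrArg Prod.snd hxv
    rw [← e2]
    exact ⟨(Dj.light_bd y).1, (Dj.light_bd y).2.2⟩) (by
    rintro g x v ⟨⟨x', y⟩, hxy, hxv⟩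
    have e1 : x' = x := congrArg Prod.fst hxv
    have e2 : ((1 : ℝ), (y : E)) = v := congrArg Prod.snd hxv
    refine ⟨(α g x, F ρ g y), hinv g x y (e1 ▸ hxy), ?_⟩
    refine Prod.ext rfl ?_
    change ((1 : ℝ), (F ρ g y : E)) = pa (ContinuousLinearMap.fst ℝ ℝ E) (toHom ρ) g v
    rw [← e2]
    have h3 : ρ.map g ((1 : ℝ), (y : E)) = tt ρ g y • light (F ρ g y : E) := map_light g y
    change _ = (ρ.map g ((1 : ℝ), (y : E))).1⁻¹ • ρ.map g ((1 : ℝ), (y : E))
    rw [h3]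
    have h4 := (tt_pos (ρ := ρ) g y).ne'
    refine Prod.ext ?_ ?_
    · simp [light, h4]
    · simp only [light, Prod.smul_snd, Prod.smul_fst, smul_eq_mul, mul_one, smul_smul]
      rw [inv_mul_cancel₀ h4, one_smul])
  intro x x' y hxy
  obtain ⟨⟨x₁, y₁⟩, h4, h5⟩ := h2 x x' _ ⟨(x, y), hxy, rfl⟩
  have e1 : x₁ = x' := congrArg Prod.fst h5
  have e3 : ((1 : ℝ), (y₁ : E)) = (1, (y : E)) := congrArg Prod.snd h5
  have e2 : y₁ = y := Subtype.ext (congrArg Prod.snd e3)
  rw [e1, e2] at h4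
  exact h4

end Pool.Agent.H72.Rel
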