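import Pool.Agent.H72.Rel.R14

/-!
# Points at infinity are conical or parabolic
-/

set_option autoImplicit false

open Filter Topology Set Metric Pool.Agent.TH631.RC
open Pool.Agent.TH289.C (Sph norm_coe IsConvergenceAction)
open Pool.Agent.H72.Dj (Conv)

namespace Pool.Agent.H72.Rel

variable {E : Type} [NormedAddCommGroup E] [InnerProductSpace ℝ E]
variable {G : Type} [Group G] {ρ : HypAction G E}
variable {α : G →* (Sph E ≃ₜ Sph E)} {Ps : Finset (Sph E)}
variable {c : Sph E → Sp E} {ℓ : Sph E → ℝ × E} {κ c₀ : ℝ}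

/-- The geodesic ray to `z`. -/
noncomputable def ry (z : Sp E) (s : ℝ) : ℝ × E := (Real.cosh s, Real.sinh s • (z : E))

theorem ry_hyp (z : Sp E) (s : ℝ) : ry z s ∈ HypSpace E := by
  refine ⟨?_, Real.cosh_pos s⟩
  rw [lor_self]
  simp only [ry]
  rw [norm_smul, nrm, mul_one, Real.norm_eq_abs, sq_abs]
  have := Real.cosh_sq s
  linarith

theorem continuous_ry (z : Sp E) : Continuous (ry z) := by
  unfold ry
  exact Real.continuous_cosh.prodMk (Real.continuous_sinh.smul continuous_const)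

theorem lor_ry (z w : Sp E) (s : ℝ) : lor (ry z s) (light (w : E)) =
    Real.cosh s - Real.sinh s * inner ℝ (z : E) (w : E) := by
  simp only [lor, ry, light, mul_one, real_inner_smul_left]

theorem lor_ry_self (z : Sp E) (s : ℝ) : lor (ry z s) (light (z : E)) = Real.exp (-s) := by
  rw [lor_ry, inner_self_one, mul_one, Real.cosh_sub_sinh]

theorem lor_ry_top {z w : Sp E} (h : z ≠ w) :
    Tendsto (fun s => lor (ry z s) (light (w : E))) atTop atTop := by
  set x := inner ℝ (z : E) (w : E) with hx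
  have h1 : 0 < 1 - x := one_sub_inner_pos h
  have h2 : -1 ≤ x := by
    have := abs_real_inner_le_norm (z : E) (w : E)
    rw [nrm, nrm, mul_one] at this
    exact (abs_le.1 this).1
  have h3 : Tendsto (fun s : ℝ => (1 - x) * (Real.exp s / 2) - 1) atTop atTop :=
    tendsto_atTop_add_const_right _ _
      ((Real.tendsto_exp_atTop.atTop_div_const (by norm_num)).const_mul_atTop h1)
  refine tendsto_atTop_mono' _ ?_ h3
  filter_upwards [eventually_ge_atTop 0] with s hs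
  rw [lor_ry, ← hx]
  have e1 : Real.cosh s - Real.sinh s * x = (1 - x) * Real.cosh s + x * Real.exp (-s) := by
    rw [← Real.cosh_sub_sinh]; ring
  rw [e1]
  have e2 : Real.exp s / 2 ≤ Real.cosh s := by
    rw [Real.cosh_eq]
    have := Real.exp_pos (-s)
    linarith
  have e3 : Real.exp (-s) ≤ 1 := by
    rw [Real.exp_le_one_iff]; linarith
  have e4 := Real.exp_pos (-s)
  have e5 : (1 - x) * (Real.exp s / 2) ≤ (1 - x) * Real.cosh s :=
    mul_le_mul_of_nonneg_left e2 h1.le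
  nlinarith

/-- The point `z` at infinity is conical. -/
def ConS (ρ : HypAction G E) (z : Sp E) : Prop :=
  ∃ (h : ℕ → G) (a b : Sp E), a ≠ b ∧ Lim ρ h b z ∧ Tendsto (fun k => F ρ (h k) z) atTop (𝓝 a)

theorem light_of_cl {v : ℝ × E} (hv : Cl v) (h0 : lor v v = 0) : ∃ x : Sp E,
    v = v.1 • light (x : E) := by
  rw [lor_self] at h0
  have h1 : ‖v.2‖ = v.1 := by
    have := norm_nonneg v.2
    have := hv.2
    nlinarith
  refine ⟨⟨v.1⁻¹ • v.2, ?_⟩, ?_⟩
  · rw [mem_sphere_zero_iff_norm, norm_smul, norm_inv, Real.norm_of_nonneg hv.2.le, h1,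
      inv_mul_cancel₀ hv.2.ne']
  · refine Prod.ext ?_ ?_
    · simp [light]
    · simp only [light, Prod.smul_snd, smul_smul]
      rw [mul_inv_cancel₀ hv.2.ne', one_smul]

/-- Points at infinity are conical or parabolic. -/
theorem Geo.conical [FiniteDimensional ℝ E] (hg : Geo ρ α Ps c ℓ κ c₀) (z : Sp E) :
    (∃ q ∈ Q α Ps, ℓ q = (ℓ q).1 • light (z : E)) ∨ ConS ρ z := by
  have : ProperSpace E := FiniteDimensional.proper ℝ E
  have hcS : CompactSpace (Sp E) := isCompact_iff_compactSpace.1 (isCompact_sphere (0 : E) 1)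
  by_cases hz : ∃ q ∈ Q α Ps, ℓ q = (ℓ q).1 • light (z : E)
  · exact Or.inl hz
  right
  have hT := hg.tar
  have hκ := hT.κpos
  -- disjoint horoballs
  set κ₁ := min 1 (κ / 2) with hκ₁
  have hκ₁0 : 0 < κ₁ := lt_min one_pos (half_pos hκ)
  have hκ₁1 : κ₁ ≤ 1 := min_le_left _ _
  have hκ₁2 : κ₁ ≤ κ / 2 := min_le_right _ _
  have hdisj : ∀ v ∈ HypSpace E, ∀ q ∈ Q α Ps, ∀ q' ∈ Q α Ps, lor v (ℓ q) < κ₁ →
      lor v (ℓ q') < κ₁ → q = q' := by
    intro v hv q hq q' hq' h1 h2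
    by_contra hne
    have h3 := (hyp_tl hv).pair (hT.cl q hq) (hT.cl q' hq')
    rw [hv.1, one_mul] at h3
    have h4 := hT.sep q hq q' hq' hne
    have h5 := (hyp_tl hv).cl.lor_nonneg (hT.cl q hq)
    have h6 := (hyp_tl hv).cl.lor_nonneg (hT.cl q' hq')
    have h7 : lor v (ℓ q) * lor v (ℓ q') < κ₁ * κ₁ := mul_lt_mul'' h1 h2 h5 h6
    nlinarith
  obtain ⟨R, hR0, hcov⟩ := hg.cover κ₁ hκ₁0
  have hex : ∀ N : ℕ, ∃ s : ℝ, (N : ℝ) ≤ s ∧ ∃ g, lor (ry z s) (ρ.map g (1, 0)) < R := by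
    intro N
    by_contra hcon
    push Not at hcon
    have h1 : ∀ s : ℝ, (N : ℝ) ≤ s → ∃ q ∈ Q α Ps, lor (ry z s) (ℓ q) < κ₁ := by
      intro s hs
      rcases hcov _ (ry_hyp z s) with h | ⟨g, h⟩
      · exact h
      · exact absurd h (not_lt.2 (hcon s hs g))
    have hcl : ∀ v : ℝ × E, Continuous fun s => lor (ry z s) v := fun v =>
      continuous_lor.comp ((continuous_ry z).prodMk continuous_const)
    obtain ⟨q₀, hq₀, hN⟩ := h1 N le_rfl
    have h2 : Ici (N : ℝ) ⊆ {s | lor (ry z s) (ℓ q₀) < κ₁} := by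
      refine isPreconnected_Ici.subset_left_of_subset_union
        (v := ⋃ q ∈ {q | q ∈ Q α Ps ∧ q ≠ q₀}, {s | lor (ry z s) (ℓ q) < κ₁})
        (isOpen_lt (hcl _) continuous_const) (isOpen_biUnion fun q _ =>
          isOpen_lt (hcl _) continuous_const) ?_ ?_ ⟨(N : ℝ), Set.mem_Ici.2 le_rfl, hN⟩
      · rw [Set.disjoint_left]
        intro s hs hs'
        rw [mem_iUnion₂] at hs'
        obtain ⟨q, ⟨hq, hne⟩, hsq⟩ := hs'
        exact hne (hdisj _ (ry_hyp z s) q hq q₀ hq₀ hsq hs)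
      · intro s hs
        obtain ⟨q, hq, hsq⟩ := h1 s hs
        by_cases hqq : q = q₀
        · left
          rw [← hqq]; exact hsq
        · right
          rw [mem_iUnion₂]
          exact ⟨q, ⟨hq, hqq⟩, hsq⟩
    obtain ⟨x, hx⟩ := light_of_cl (hT.cl q₀ hq₀) (hT.null q₀ hq₀)
    have hzx : z ≠ x := fun h0 => hz ⟨q₀, hq₀, by rw [h0]; exact hx⟩
    have h3 := (lor_ry_top hzx).const_mul_atTop (hT.cl q₀ hq₀).2
    obtain ⟨s, hs1, hs2⟩ := ((h3.eventually_ge_atTop κ₁).and (eventually_ge_atTop (N : ℝ))).exists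
    have h4 : lor (ry z s) (ℓ q₀) < κ₁ := h2 hs2
    rw [hx, lor_smul_right] at h4
    exact absurd h4 (not_lt.2 hs1)
  choose s hs g hgs using hex
  -- the sequence `(g k)⁻¹`
  have hpair1 : ∀ k, Real.cosh (s k) ≤ 2 * R * T ρ (g k) := by
    intro k
    have h1 := (tl_o.map (ρ := ρ) (g k)).pair (hyp_tl (ry_hyp z (s k))).cl cl_o
    rw [ρ.lor_map, lor_o, lor_o, lor_o, one_mul, lor_comm] at h1
    have h2 : (ry z (s k)).1 = Real.cosh (s k) := rfl
    rw [h2] at h1
    have h3 := hgs k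
    have h4 := T_pos (ρ := ρ) (g k)
    change _ ≤ 2 * (lor (ry z (s k)) (ρ.map (g k) (1, 0)) * T ρ (g k)) at h1
    have h5 : lor (ry z (s k)) (ρ.map (g k) (1, 0)) * T ρ (g k) ≤ R * T ρ (g k) :=
      mul_le_mul_of_nonneg_right h3.le h4.le
    linarith
  have hpair2 : ∀ k, T ρ (g k) ≤ 2 * R * Real.cosh (s k) := by
    intro k
    have h1 := (hyp_tl (ry_hyp z (s k))).pair (cl_o.map (ρ := ρ) (g k)) cl_o
    rw [(ry_hyp z (s k)).1, one_mul, lor_o, lor_o] at h1
    have h2 : (ry z (s k)).1 = Real.cosh (s k) := rfl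
    rw [h2] at h1
    change T ρ (g k) ≤ _ at h1
    have h3 := hgs k
    have h4 := Real.cosh_pos (s k)
    have h5 : lor (ry z (s k)) (ρ.map (g k) (1, 0)) * Real.cosh (s k) ≤ R * Real.cosh (s k) :=
      mul_le_mul_of_nonneg_right h3.le h4.le
    linarith
  have hpair3 : ∀ k, lor (light (z : E)) (ρ.map (g k) (1, 0)) ≤ 2 * R * Real.exp (-(s k)) := by
    intro k
    have h1 := (hyp_tl (ry_hyp z (s k))).pair (cl_light z) (cl_o.map (ρ := ρ) (g k))
    rw [(ry_hyp z (s k)).1, one_mul, lor_ry_self] at h1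
    have h3 := hgs k
    have h4 := Real.exp_pos (-(s k))
    have h5 : Real.exp (-(s k)) * lor (ry z (s k)) (ρ.map (g k) (1, 0)) ≤
        Real.exp (-(s k)) * R := mul_le_mul_of_nonneg_left h3.le h4.le
    linarith
  have hsk : Tendsto s atTop atTop :=
    tendsto_atTop_mono hs tendsto_natCast_atTop_atTop
  have hT1 : Tendsto (fun k => T ρ (g k)) atTop atTop := by
    have h1 : Tendsto (fun k => Real.exp (s k) / 2 / (2 * R)) atTop atTop :=
      ((Real.tendsto_exp_atTop.comp hsk).atTop_div_const (by norm_num)).atTop_div_const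
        (by positivity)
    refine tendsto_atTop_mono (fun k => ?_) h1
    have h2 := hpair1 k
    rw [div_le_iff₀ (by positivity)]
    have h3 : Real.exp (s k) / 2 ≤ Real.cosh (s k) := by
      rw [Real.cosh_eq]
      have := Real.exp_pos (-(s k))
      linarith
    linarith
  have hT2 : Tendsto (fun k => T ρ ((g k)⁻¹)) atTop atTop := by simpa only [T_inv] using hT1
  obtain ⟨φ, hφ, b, q, hL⟩ := exists_lim hT2
  have hLk : Lim ρ (fun k => (g (φ k))⁻¹) b q := hL
  -- `q = z`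
  have hexp : Tendsto (fun k => Real.exp (-(s (φ k)))) atTop (𝓝 0) :=
    Real.tendsto_exp_neg_atTop_nhds_zero.comp (hsk.comp hφ.tendsto_atTop)
  have hqz : q = z := by
    have h1 := hLk.right
    simp only [inv_inv, T_inv] at h1
    have h2 : Tendsto (fun k => 1 - inner ℝ (z : E) ((T ρ (g (φ k)))⁻¹ • U ρ (g (φ k)))) atTop
        (𝓝 (1 - inner ℝ (z : E) (q : E))) :=
      tendsto_const_nhds.sub (tendsto_const_nhds.inner h1)
    have h3 : Tendsto (fun k => 1 - inner ℝ (z : E) ((T ρ (g (φ k)))⁻¹ • U ρ (g (φ k)))) atTop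
        (𝓝 0) := by
      have h4 : ∀ k, 1 - inner ℝ (z : E) ((T ρ (g k))⁻¹ • U ρ (g k)) =
          (T ρ (g k))⁻¹ * lor (light (z : E)) (ρ.map (g k) (1, 0)) := by
        intro k
        have h5 := (T_pos (ρ := ρ) (g k)).ne'
        rw [map_o, inner_smul_right]
        simp only [lor, light]
        field_simp
      have h6 : Tendsto (fun k => (T ρ (g (φ k)))⁻¹ * (2 * R * Real.exp (-(s (φ k))))) atTop
          (𝓝 0) := by
        have := (tendsto_inv_atTop_zero.comp (hT1.comp hφ.tendsto_atTop)).mul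
          (hexp.const_mul (2 * R))
        simpa using this
      refine squeeze_zero (fun k => ?_) (fun k => ?_) h6
      · rw [h4]
        exact mul_nonneg (inv_nonneg.2 (T_pos _).le)
          ((cl_light z).lor_nonneg (cl_o.map (ρ := ρ) _))
      · rw [h4]
        exact mul_le_mul_of_nonneg_left (hpair3 _) (inv_nonneg.2 (T_pos _).le)
    have h7 := tendsto_nhds_unique h2 h3
    exact (eq_of_inner h7).symm
  rw [hqz] at hLk
  -- the limit of the images of `z`
  obtain ⟨a, ψ, hψ, ha⟩ := CompactSpace.tendsto_subseq (fun k => F ρ (g (φ k))⁻¹ z)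
  refine ⟨fun k => (g (φ (ψ k)))⁻¹, a, b, ?_, hLk.comp hψ.tendsto_atTop, ha⟩
  have h1 : ∀ k, (4 * R ^ 2)⁻¹ ≤ 1 - inner ℝ (F ρ (g k)⁻¹ z : E)
      ((T ρ (g k)⁻¹)⁻¹ • U ρ (g k)⁻¹) := by
    intro k
    have h2 := key_o (ρ := ρ) (g k)⁻¹ z
    have h3 := T_pos (ρ := ρ) (g k)⁻¹
    have h4 : tt ρ (g k)⁻¹ z ≤ 2 * R * Real.exp (-(s k)) := by
      have e1 : tt ρ (g k)⁻¹ z = lor (light (z : E)) (ρ.map (g k) (1, 0)) := by
        have e2 : tt ρ (g k)⁻¹ z = lor (ρ.map (g k)⁻¹ (light (z : E))) (1, 0) := by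
          rw [lor_o]; rfl
        rw [e2, lor_adj, inv_inv]
      rw [e1]; exact hpair3 k
    have h5 : T ρ (g k)⁻¹ ≤ 2 * R * Real.cosh (s k) := by rw [T_inv]; exact hpair2 k
    have h6 : tt ρ (g k)⁻¹ z * T ρ (g k)⁻¹ ≤ 4 * R ^ 2 := by
      have e1 : tt ρ (g k)⁻¹ z * T ρ (g k)⁻¹ ≤
          (2 * R * Real.exp (-(s k))) * (2 * R * Real.cosh (s k)) :=
        mul_le_mul h4 h5 h3.le (by positivity)
      have e2 : Real.exp (-(s k)) * Real.cosh (s k) ≤ 1 := by
        have hs0 : 0 ≤ s k := (Nat.cast_nonneg k).trans (hs k)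
        have e3 : Real.cosh (s k) ≤ Real.exp (s k) := by
          rw [Real.cosh_eq]
          have : Real.exp (-(s k)) ≤ Real.exp (s k) := Real.exp_le_exp.2 (by linarith)
          linarith
        calc Real.exp (-(s k)) * Real.cosh (s k) ≤ Real.exp (-(s k)) * Real.exp (s k) :=
              mul_le_mul_of_nonneg_left e3 (Real.exp_pos _).le
          _ = 1 := by rw [← Real.exp_add]; simp
      nlinarith
    have h7 : tt ρ (g k)⁻¹ z * T ρ (g k)⁻¹ * (1 - inner ℝ (F ρ (g k)⁻¹ z : E)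
        ((T ρ (g k)⁻¹)⁻¹ • U ρ (g k)⁻¹)) = 1 := by
      rw [inner_smul_right]
      have h8 := h3.ne'
      have e1 : T ρ (g k)⁻¹ * (1 - (T ρ (g k)⁻¹)⁻¹ *
          inner ℝ (F ρ (g k)⁻¹ z : E) (U ρ (g k)⁻¹)) =
          T ρ (g k)⁻¹ - inner ℝ (F ρ (g k)⁻¹ z : E) (U ρ (g k)⁻¹) := by
        field_simp
      rw [mul_assoc, e1]
      exact h2
    rw [inv_le_iff_one_le_mul₀ (by positivity)]
    have h9 : 0 ≤ 1 - inner ℝ (F ρ (g k)⁻¹ z : E) ((T ρ (g k)⁻¹)⁻¹ • U ρ (g k)⁻¹) := by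
      by_contra hneg
      push Not at hneg
      have : 0 < tt ρ (g k)⁻¹ z * T ρ (g k)⁻¹ := mul_pos (tt_pos _ _) h3
      nlinarith
    nlinarith
  have h2 : Tendsto (fun k => 1 - inner ℝ (F ρ (g (φ (ψ k)))⁻¹ z : E)
      ((T ρ (g (φ (ψ k)))⁻¹)⁻¹ • U ρ (g (φ (ψ k)))⁻¹)) atTop
      (𝓝 (1 - inner ℝ (a : E) (b : E))) := by
    refine tendsto_const_nhds.sub (Tendsto.inner ?_ ?_)
    · exact (continuous_subtype_val.tendsto a).comp ha
    · exact hLk.left.comp hψ.tendsto_atTop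
  have h3 : (4 * R ^ 2)⁻¹ ≤ 1 - inner ℝ (a : E) (b : E) :=
    ge_of_tendsto h2 (Eventually.of_forall fun k => h1 _)
  intro hab
  rw [hab, inner_self_one, sub_self] at h3
  have : 0 < (4 * R ^ 2)⁻¹ := by positivity
  linarith

end Pool.Agent.H72.Rel
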