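import Pool.Agent.H72.Rel.R15

/-!
# Continuous equivariant maps to the sphere at infinity are homeomorphisms
-/

set_option autoImplicit false

open Filter Topology Set Metric Pool.Agent.TH631.RC
open Pool.Agent.TH289.C (Sph norm_coe IsConvergenceAction)
open Pool.Agent.H72.Dj (Conv)

namespace Pool.Agent.H72.Rel

variable {E : Type} [NormedAddCommGroup E] [InnerProductSpace ℝ E]
variable {G : Type} [Group G] {ρ : HypAction G E}
variable {α : G →* (Sph E ≃ₜ Sph E)} {Ps : Finset (Sph E)}
variable {c : Sph E → Sp E} {ℓ : Sph E → ℝ × E} {κ c₀ : ℝ} {f : Sph E → Sp E}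

/-- A parabolic element has one fixed point at infinity. -/
theorem fix_unique (hfin : ∀ R : ℝ, {g : G | T ρ g ≤ R}.Finite) {γ : G} {z : Sp E}
    (hγ : ρ.map γ (light (z : E)) = light (z : E))
    (hinj : Function.Injective (fun m : ℕ => γ ^ m)) {w : Sp E} (hw : F ρ γ w = w) : w = z := by
  by_contra hne
  obtain ⟨h1, h2⟩ := map_light_unique (ρ := ρ) (g := γ) (x := z) (x' := z) (c := 1)
    (by rw [one_smul, hγ])
  have h3 := key (ρ := ρ) γ z w
  rw [← h1, ← h2, hw, one_mul] at h3
  have h4 := one_sub_inner_pos (Ne.symm hne)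
  have h5 : tt ρ γ w = 1 := by
    have : tt ρ γ w * (1 - inner ℝ (z : E) (w : E)) = 1 * (1 - inner ℝ (z : E) (w : E)) := by
      rw [h3, one_mul]
    exact mul_right_cancel₀ h4.ne' this
  have h6 : ∀ m : ℕ, tt ρ (γ ^ m) z = 1 ∧ tt ρ (γ ^ m) w = 1 := by
    intro m
    have e1 := (tt_zpow (ρ := ρ) h2.symm (m : ℤ)).2
    have e2 := (tt_zpow (ρ := ρ) hw (m : ℤ)).2
    rw [← h1, one_zpow, zpow_natCast] at e1
    rw [h5, one_zpow, zpow_natCast] at e2
    exact ⟨e1, e2⟩
  have hpos : 0 < 2 - ‖(z : E) + (w : E)‖ := by linarith [norm_add_lt (Ne.symm hne)]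
  have h7 : range (fun m : ℕ => γ ^ m) ⊆ {g : G | T ρ g ≤ 2 * 1 / (2 - ‖(z : E) + (w : E)‖)} := by
    rintro _ ⟨m, rfl⟩
    have := T_le_of_tt (ρ := ρ) (g := γ ^ m) (Ne.symm hne) (h6 m).1.le (h6 m).2.le
    change T ρ _ ≤ _
    rw [le_div_iff₀ hpos]
    exact this
  exact (infinite_range_of_injective hinj) ((hfin _).subset h7)

/-- Cocompactness of the peripheral group on the complement of the cusp. -/
theorem cusp_move {z : Sp E} {P : Subgroup G}
    (hfix : ∀ g ∈ P, ρ.map g (light (z : E)) = light (z : E)) {C : ℝ}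
    (hC : ∀ v : ℝ × E, lor v v = 0 → lor v (light (z : E)) = 1 → ∃ g ∈ P, (ρ.map g v).1 ≤ C)
    {w : Sp E} (hw : w ≠ z) :
    ∃ g ∈ P, C⁻¹ ≤ 1 - inner ℝ (F ρ g w : E) (z : E) := by
  have hC0 : 0 < C := by
    obtain ⟨g, hg, h⟩ := hC (lam z 0) (lam_null 0) (lam_light 0)
    exact ((cl_lam _).map g).2.trans_le h
  have hd := one_sub_inner_pos hw
  set d := 1 - inner ℝ (w : E) (z : E) with hdd
  have hlw : lor (light (w : E)) (light (z : E)) = d := lor_light w z
  obtain ⟨g, hg, hgC⟩ := hC (d⁻¹ • light (w : E))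
    (by rw [lor_smul_left, lor_smul_right, lor_light, inner_self_one]; ring)
    (by rw [lor_smul_left, hlw, inv_mul_cancel₀ hd.ne'])
  refine ⟨g, hg, ?_⟩
  have h1 : lor (ρ.map g (light (w : E))) (light (z : E)) = d := by
    nth_rewrite 1 [← hfix g hg]
    rw [ρ.lor_map, hlw]
  rw [map_light, lor_smul_left, lor_light] at h1
  have h2 : tt ρ g w ≤ C * d := by
    rw [map_smul, Prod.smul_fst, smul_eq_mul, inv_mul_le_iff₀ hd] at hgC
    change tt ρ g w ≤ _ at hgC
    linarith
  rw [inv_le_iff_one_le_mul₀ hC0]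
  have h3 : 0 ≤ 1 - inner ℝ (F ρ g w : E) (z : E) := one_sub_inner_nonneg _ _
  by_contra h4
  push Not at h4
  have h5 : tt ρ g w * (1 - inner ℝ (F ρ g w : E) (z : E)) ≤
      C * d * (1 - inner ℝ (F ρ g w : E) (z : E)) := mul_le_mul_of_nonneg_right h2 h3
  nlinarith

variable (hg : Geo ρ α Ps c ℓ κ c₀) (hR : Rl α Ps) (hc : Continuous f)
  (hf : ∀ g x, f (α g x) = F ρ g (f x)) (hinf : (range f).Infinite)

include hg hR hf

theorem f_par {p : Sph E} (hp : p ∈ Ps) : f p = c p := by
  obtain ⟨γ, hγ, hinj⟩ := (hR.par p hp).inf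
  refine fix_unique hg.tar.hfin (hg.cu.fix p hp γ hγ) hinj ?_
  rw [← hf, hγ]

include hc hinf

/-- The only preimage of a cusp is the parabolic point. -/
theorem fib_par [FiniteDimensional ℝ E] {p : Sph E} (hp : p ∈ Ps) {x : Sph E}
    (hx : f x = c p) : x = p := by
  have : ProperSpace E := FiniteDimensional.proper ℝ E
  have hcS : CompactSpace (Sph E) := isCompact_iff_compactSpace.1 (isCompact_sphere (0 : E) 1)
  have hfp := f_par hg hR hf hp
  by_contra hxp
  obtain ⟨C, hC⟩ := hg.cu.coc p hp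
  have hC0 : 0 < C := by
    obtain ⟨g, -, h⟩ := hC (lam (c p) 0) (lam_null 0) (lam_light 0)
    exact ((cl_lam _).map g).2.trans_le h
  have hmove : ∀ w : Sp E, w ≠ c p → ∃ g, α g p = p ∧
      C⁻¹ ≤ 1 - inner ℝ (F ρ g w : E) (c p : E) := by
    intro w hw
    obtain ⟨g, hg', h⟩ := cusp_move (P := stab α p) (fun g hg' => hg.cu.fix p hp g hg') hC hw
    exact ⟨g, hg', h⟩
  have hcont : Continuous fun w : Sp E => 1 - inner ℝ (w : E) (c p : E) := by fun_prop
  -- points over the cusp other than `p` are not limits of points over other points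
  have hclos : ∀ y, y ≠ p → f y = c p → y ∉ closure {x | f x ≠ c p} := by
    intro y hyp hy hycl
    obtain ⟨x, hx, hxy⟩ := mem_closure_iff_seq_limit.1 hycl
    choose g' hg' hg'K using fun k => hmove (f (x k)) (hx k)
    have hlim : Tendsto (fun k => f (x k)) atTop (𝓝 (c p)) := by
      have := (hc.tendsto y).comp hxy
      rwa [hy] at this
    obtain ⟨φ, hφ, hcase⟩ := seq_dich g'
    have hφt := hφ.tendsto_atTop
    -- the limit of the images is the cusp
    have hlim2 : Tendsto (fun k => F ρ (g' (φ k)) (f (x (φ k)))) atTop (𝓝 (c p)) := by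
      rcases hcase with ⟨s, hs⟩ | hcof
      · simp only [hs]
        have h1 : F ρ s (c p) = c p := by
          have := (map_light_unique (ρ := ρ) (g := s) (x := c p) (x' := c p) (c := 1)
            (by rw [one_smul, hg.cu.fix p hp s (hs 0 ▸ hg' _)])).2
          exact this.symm
        have h2 := ((continuous_F (ρ := ρ) s).tendsto (c p)).comp (hlim.comp hφt)
        rw [h1] at h2
        exact h2
      · have h1 := (hR.par p hp).tendsto (h := fun k => g' (φ k)) (fun k => hg' _) hcof
          (hxy.comp hφt) hyp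
        have h2 := (hc.tendsto p).comp h1
        rw [hfp] at h2
        refine h2.congr fun k => ?_
        simp only [Function.comp]
        rw [hf]
    have h3 := (hcont.tendsto (c p)).comp hlim2
    rw [inner_self_one, sub_self] at h3
    have h4 : C⁻¹ ≤ 0 := ge_of_tendsto h3 (Eventually.of_forall fun k => hg'K _)
    have := inv_pos.2 hC0
    linarith
  obtain ⟨w, hw⟩ : ∃ w, f w ≠ c p := by
    obtain ⟨c', ⟨w, rfl⟩, hc'⟩ := (hinf.sdiff (Set.toFinite {c p})).nonempty
    exact ⟨w, fun h0 => hc' (by simp [h0])⟩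
  have hwp : w ≠ p := fun h0 => hw (h0 ▸ hfp)
  have hpre := preconnected_compl (E := E) p
  have hopen1 : IsOpen {x | f x ≠ c p} := isOpen_ne_fun hc continuous_const
  have hopen2 : IsOpen (closure {x | f x ≠ c p})ᶜ := isClosed_closure.isOpen_compl
  obtain ⟨z, -, hz1, hz2⟩ := hpre _ _ hopen1 hopen2 (fun z hz => by
    by_cases hzy : f z = c p
    · exact Or.inr (hclos z hz hzy)
    · exact Or.inl hzy) ⟨w, hwp, hw⟩ ⟨x, hxp, hclos x hxp hx⟩
  exact hz2 (subset_closure hz1)

/-- Points over conical points. -/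
theorem fib_con [FiniteDimensional ℝ E] {z : Sp E} (hz : ConS ρ z) :
    (∃ x, f x = z) ∧ ∀ x y, f x = z → f y = z → x = y := by
  have : ProperSpace E := FiniteDimensional.proper ℝ E
  have hcS : CompactSpace (Sph E) := isCompact_iff_compactSpace.1 (isCompact_sphere (0 : E) 1)
  obtain ⟨h, a, b, hab, hL, ha⟩ := hz
  refine ⟨?_, fun x y hx hy => ?_⟩
  · obtain ⟨c', ⟨x, rfl⟩, hx⟩ := (hinf.sdiff (Set.toFinite {b})).nonempty
    have hxb : f x ≠ b := fun h0 => hx (by simp [h0])
    have h1 := hL.inv.attract (x := fun _ => f x) tendsto_const_nhds hxb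
    have h2 : IsClosed (range f) := (isCompact_range hc).isClosed
    have h3 : z ∈ range f := h2.mem_of_tendsto h1 (Eventually.of_forall fun k => ⟨α (h k)⁻¹ x, by
      rw [hf]⟩)
    exact h3
  · by_contra hxy
    have hcof : Tendsto h atTop cofinite := by
      refine TH289.C.tendsto_cofinite_of_ne fun s => ?_
      filter_upwards [hL.top.eventually_gt_atTop (T ρ s)] with k hk h0
      rw [h0] at hk
      exact lt_irrefl _ hk
    obtain ⟨φ, hφ, β, γ, hC⟩ := hR.conv h hcof
    have hC' : Conv α (fun k => h (φ k)) β γ := hC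
    have hφt := hφ.tendsto_atTop
    -- `f β = b`
    obtain ⟨c', ⟨x₀, rfl⟩, hx₀⟩ := (hinf.sdiff (Set.toFinite {z, f γ})).nonempty
    have hx₀z : f x₀ ≠ z := fun h0 => hx₀ (by simp [h0])
    have hx₀γ : x₀ ≠ γ := fun h0 => hx₀ (by simp [h0])
    have h1 : f β = b := by
      have e1 := (hc.tendsto β).comp (hC'.tendsto hx₀γ)
      have e2 := (hL.comp hφt).attract (x := fun _ => f x₀) tendsto_const_nhds hx₀z
      refine tendsto_nhds_unique e1 (e2.congr fun k => ?_)
      simp only [Function.comp]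
      rw [hf]
    have h2 : ∀ w, f w = z → w = γ := by
      intro w hw
      by_contra hne
      have e1 := (hc.tendsto β).comp (hC'.tendsto hne)
      rw [h1] at e1
      have e2 := ha.comp hφt
      refine hab (tendsto_nhds_unique e2 (e1.congr fun k => ?_))
      simp only [Function.comp]
      rw [hf, hw]
    exact hxy ((h2 x hx).trans (h2 y hy).symm)

/-- The map is a homeomorphism. -/
theorem f_homeo [FiniteDimensional ℝ E] : IsHomeomorph f := by
  have : ProperSpace E := FiniteDimensional.proper ℝ E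
  have hcS : CompactSpace (Sph E) := isCompact_iff_compactSpace.1 (isCompact_sphere (0 : E) 1)
  have key : ∀ z : Sp E, (∃ x, f x = z) ∧ ∀ x y, f x = z → f y = z → x = y := by
    intro z
    rcases hg.conical z with ⟨q, ⟨p, hp, g, rfl⟩, hq⟩ | hz
    · -- `z` is the image of the cusp
      have hz : z = F ρ g (c p) := by
        rw [hg.ell p hp, map_light] at hq
        have h1 : (tt ρ g (c p) • light (F ρ g (c p) : E)).1 = tt ρ g (c p) := by simp [light]
        rw [h1] at hq
        have h2 := smul_right_injective _ (tt_pos (ρ := ρ) g (c p)).ne' hq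
        have h3 : (F ρ g (c p) : E) = (z : E) := congrArg Prod.snd h2
        exact Subtype.ext h3.symm
      refine ⟨⟨α g p, by rw [hf, f_par hg hR hf hp, hz]⟩, ?_⟩
      have h1 : ∀ x, f x = z → x = α g p := by
        intro x hx
        have h2 : f (α g⁻¹ x) = c p := by
          rw [hf, hx, hz, F_inv']
        have h3 := fib_par hg hR hc hf hinf hp h2
        rw [← h3, Dj.map_inv_apply']
      intro x y hx hy
      rw [h1 x hx, h1 y hy]
    · exact fib_con hg hR hc hf hinf hz
  rw [isHomeomorph_iff_continuous_bijective]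
  exact ⟨hc, fun x y hxy => (key (f y)).2 x y hxy rfl, fun z => (key z).1⟩

end Pool.Agent.H72.Rel
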