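import Pool.Agent.H72.Rel.R1
import Pool.Agent.H72.Dj.T5

/-!
# Weights at the parabolic points
-/

set_option autoImplicit false

open Filter Topology Set Metric Pool.Agent.TH289.C Pool.Agent.H72.Dj

namespace Pool.Agent.H72.Rel

variable {G : Type} [Group G] {X : Type} [MetricSpace X]

/-- The second smallest distance of the points of the triple from `p`. -/
noncomputable def Nr (p : X) (t : Fin 3 → X) : ℝ :=
  min (max (dist (t 0) p) (dist (t 1) p))
    (min (max (dist (t 1) p) (dist (t 2) p)) (max (dist (t 0) p) (dist (t 2) p)))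

theorem continuous_Nr (p : X) : Continuous (Nr p : (Fin 3 → X) → ℝ) := by
  unfold Nr
  fun_prop

theorem Nr_lt {p : X} {t : Fin 3 → X} {η : ℝ} : Nr p t < η ↔ Near p η t := by
  unfold Nr
  rw [min_lt_iff, min_lt_iff, max_lt_iff, max_lt_iff, max_lt_iff]
  constructor
  · rintro (h | h | h)
    · exact ⟨0, 1, by decide, h.1, h.2⟩
    · exact ⟨1, 2, by decide, h.1, h.2⟩
    · exact ⟨0, 2, by decide, h.1, h.2⟩
  · rintro ⟨i, j, hij, hi, hj⟩
    fin_cases i <;> fin_cases j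
    · exact absurd rfl hij
    · exact Or.inl ⟨hi, hj⟩
    · exact Or.inr (Or.inr ⟨hi, hj⟩)
    · exact Or.inl ⟨hj, hi⟩
    · exact absurd rfl hij
    · exact Or.inr (Or.inl ⟨hi, hj⟩)
    · exact Or.inr (Or.inr ⟨hj, hi⟩)
    · exact Or.inr (Or.inl ⟨hj, hi⟩)
    · exact absurd rfl hij

theorem Nr_nonneg (p : X) (t : Fin 3 → X) : 0 ≤ Nr p t := by
  unfold Nr
  refine le_min ?_ (le_min ?_ ?_)
  · exact dist_nonneg.trans (le_max_left _ _)
  · exact dist_nonneg.trans (le_max_left _ _)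
  · exact dist_nonneg.trans (le_max_left _ _)

theorem near_or {p : X} {t : Fin 3 → X} {η : ℝ} (h : Near p η t) {i j : Fin 3} (hij : i ≠ j) :
    dist (t i) p < η ∨ dist (t j) p < η := by
  obtain ⟨k, l, hkl, hk, hl⟩ := h
  rcases common k l i j hkl hij with e | e | e | e
  · exact Or.inl (e ▸ hk)
  · exact Or.inr (e ▸ hk)
  · exact Or.inl (e ▸ hl)
  · exact Or.inr (e ▸ hl)

variable (α : G →* (X ≃ₜ X)) (Ps : Finset X)

/-- The parabolic points. -/
def Q : Set X := {q | ∃ p ∈ Ps, ∃ g, α g p = q}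

/-- The triple `t` is deep in the horoball of `q`. -/
def Deep (η : ℝ) (q : X) (t : Fin 3 → X) : Prop :=
  ∀ p ∈ Ps, ∀ g, α g p = q → Nr p (act α g⁻¹ t) < η

/-- The data of a relatively hyperbolic action. -/
structure Rl : Prop where
  conv : IsConvergenceAction α
  par : ∀ p ∈ Ps, Par α p
  ineq : ∀ p ∈ Ps, ∀ g, α g p ∈ Ps → α g p = p

variable {α Ps}

theorem Q_inv {q : X} (hq : q ∈ Q α Ps) (g : G) : α g q ∈ Q α Ps := by
  obtain ⟨p, hp, h, rfl⟩ := hq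
  exact ⟨p, hp, g * h, by rw [map_mul_apply]⟩

theorem Ps_sub {p : X} (hp : p ∈ Ps) : p ∈ Q α Ps := ⟨p, hp, 1, by simp⟩

theorem Deep.mono {η η' : ℝ} {q : X} {t : Fin 3 → X} (h : Deep α Ps η q t) (hη : η ≤ η') :
    Deep α Ps η' q t := fun p hp g hg => (h p hp g hg).trans_le hη

theorem Deep.move {η : ℝ} {q : X} {t : Fin 3 → X} (h : Deep α Ps η q t) (s : G) :
    Deep α Ps η (α s q) (act α s t) := by
  intro p hp g hg
  rw [← act_mul]
  have e : g⁻¹ * s = (s⁻¹ * g)⁻¹ := by group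
  rw [e]
  refine h p hp _ ?_
  rw [map_mul_apply, hg, map_inv_apply]

theorem Rl.exists_r [CompactSpace X] [Infinite X] (hR : Rl α Ps) : ∃ r : ℝ, 0 < r ∧ ∀ p ∈ Ps,
    ∃ K : Set X, IsCompact K ∧ (∀ w ∈ K, 2 * r ≤ dist w p) ∧
      ∀ w, w ≠ p → ∃ g, α g p = p ∧ α g w ∈ K := by
  have h1 : ∀ p : X, ∃ r : ℝ, 0 < r ∧ (p ∈ Ps → ∃ K : Set X, IsCompact K ∧
      (∀ w ∈ K, 2 * r ≤ dist w p) ∧ ∀ w, w ≠ p → ∃ g, α g p = p ∧ α g w ∈ K) := by
    intro p
    by_cases hp : p ∈ Ps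
    · obtain ⟨r, hr, h⟩ := (hR.par p hp).exists_r
      exact ⟨r, hr, fun _ => h⟩
    · exact ⟨1, one_pos, fun h => absurd h hp⟩
  choose r hr h using h1
  rcases Ps.eq_empty_or_nonempty with he | hne
  · exact ⟨1, one_pos, fun p hp => by rw [he] at hp; simp at hp⟩
  · refine ⟨Ps.inf' hne r, ?_, fun p hp => ?_⟩
    · rw [Finset.lt_inf'_iff]
      exact fun p _ => hr p
    · obtain ⟨K, h1, h2, h3⟩ := h p hp
      refine ⟨K, h1, fun w hw => ?_, h3⟩
      have := Finset.inf'_le r hp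
      linarith [h2 w hw]

/-- The constant. -/
structure Rad (α : G →* (X ≃ₜ X)) (Ps : Finset X) (r : ℝ) : Prop where
  pos : 0 < r
  ex : ∀ p ∈ Ps, ∃ K : Set X, IsCompact K ∧ (∀ w ∈ K, 2 * r ≤ dist w p) ∧
      ∀ w, w ≠ p → ∃ g, α g p = p ∧ α g w ∈ K

theorem Rl.deep_key [CompactSpace X] [Infinite X] (hR : Rl α Ps) {r : ℝ} (hr : Rad α Ps r)
    {q : ℕ → X} (hq : ∀ n, q n ∈ Q α Ps) {t : ℕ → Fin 3 → X} {i j : ℕ → Fin 3}
    (hij : ∀ n, i n ≠ j n) (hd : ∀ n, Deep α Ps r (q n) (t n)) {x₀ x₀' y : X}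
    (hx : Tendsto (fun n => t n (i n)) atTop (𝓝 x₀))
    (hx' : Tendsto (fun n => t n (j n)) atTop (𝓝 x₀')) (hy : Tendsto q atTop (𝓝 y))
    (hxy : x₀ ≠ y) (hxy' : x₀' ≠ y) (hcase : x₀ = x₀' ∨ ∀ z, ∀ᶠ n in atTop, q n ≠ z) : False := by
  choose p hp g hg using hq
  obtain ⟨p₀, φ, hφ, hφp⟩ := freq_const (F := (Ps : Set X)) Ps.finite_toSet (u := p) hp
  have hp₀ : p₀ ∈ Ps := by rw [← hφp 0]; exact hp _
  have hφt := hφ.tendsto_atTop
  obtain ⟨K, hK, hKr, hKc⟩ := hr.ex p₀ hp₀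
  have hgp : ∀ n, α (g (φ n)) p₀ = q (φ n) := fun n => by rw [← hφp n, hg]
  refine (hR.par p₀ hp₀).key hR.conv hr.pos hK hKr hKc (g := fun n => g (φ n))
    (x := fun n => t (φ n) (i (φ n))) (x' := fun n => t (φ n) (j (φ n))) (y := y) (hx.comp hφt)
    (hx'.comp hφt) ?_ hxy hxy' ?_ ?_
  · simp only [hgp]
    exact hy.comp hφt
  · rcases hcase with h | h
    · exact Or.inl h
    · refine Or.inr fun z => ?_
      simp only [hgp]
      exact hφt.eventually (h z)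
  · intro n h hh
    have h1 := hd (φ n) p₀ hp₀ (g (φ n) * h⁻¹) (by rw [map_mul_apply, fix_inv hh, hgp])
    rw [Nr_lt] at h1
    have e : (g (φ n) * h⁻¹)⁻¹ = h * (g (φ n))⁻¹ := by group
    rw [e] at h1
    have h2 := near_or h1 (hij (φ n))
    simp only [act, map_mul_apply] at h2
    exact h2

theorem exists_conv_index {ξ : X} {t : ℕ → Fin 3 → X} {c : ℕ → ℝ} (hc : Tendsto c atTop (𝓝 0))
    (h : ∀ n, Near ξ (c n) (t n)) : ∃ i j : ℕ → Fin 3, (∀ n, i n ≠ j n) ∧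
      Tendsto (fun n => t n (i n)) atTop (𝓝 ξ) ∧ Tendsto (fun n => t n (j n)) atTop (𝓝 ξ) := by
  choose i j hij hi hj using h
  refine ⟨i, j, hij, ?_, ?_⟩
  · rw [tendsto_iff_dist_tendsto_zero]
    exact squeeze_zero (fun n => dist_nonneg) (fun n => (hi n).le) hc
  · rw [tendsto_iff_dist_tendsto_zero]
    exact squeeze_zero (fun n => dist_nonneg) (fun n => (hj n).le) hc

/-- Near a point `ξ` of the boundary, deep triples belong to parabolic points near `ξ`. -/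
theorem Rl.near [CompactSpace X] [Infinite X] (hR : Rl α Ps) {r : ℝ} (hr : Rad α Ps r) (ξ : X)
    {U : Set X} (hU : U ∈ 𝓝 ξ) : ∃ ε > 0, ∀ t : Fin 3 → X, Near ξ ε t → ∀ q ∈ Q α Ps,
      Deep α Ps r q t → q ∈ U := by
  by_contra hcon
  push Not at hcon
  have h1 : ∀ n : ℕ, ∃ t : Fin 3 → X, Near ξ (1 / ((n : ℝ) + 1)) t ∧ ∃ q ∈ Q α Ps,
      Deep α Ps r q t ∧ q ∉ U := fun n => hcon _ (by positivity)
  choose t ht q hq hd hqU using h1
  obtain ⟨y, φ, hφ, hy⟩ := CompactSpace.tendsto_subseq q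
  have hφt := hφ.tendsto_atTop
  have hne : ξ ≠ y := by
    intro h0
    obtain ⟨n, hn⟩ := (hy.eventually (h0 ▸ hU : U ∈ 𝓝 y)).exists
    exact hqU _ hn
  obtain ⟨i, j, hij, hi, hj⟩ := exists_conv_index (ξ := ξ) (t := t)
    tendsto_one_div_add_atTop_nhds_zero_nat ht
  exact hR.deep_key hr (q := fun n => q (φ n)) (fun n => hq _) (t := fun n => t (φ n))
    (i := fun n => i (φ n)) (j := fun n => j (φ n)) (fun n => hij _) (fun n => hd _)
    (hi.comp hφt) (hj.comp hφt) hy hne hne (Or.inl rfl)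

/-- The horoballs are disjoint if they are small. -/
theorem Rl.disj [CompactSpace X] [Infinite X] (hR : Rl α Ps) {r : ℝ} (hr : Rad α Ps r) :
    ∃ η > 0, η ≤ r ∧ ∀ q ∈ Q α Ps, ∀ q' ∈ Q α Ps, q ≠ q' → ∀ t, Deep α Ps η q t →
      ¬ Deep α Ps η q' t := by
  by_contra hcon
  push Not at hcon
  have h1 : ∀ n : ℕ, ∃ p ∈ Ps, ∃ q' ∈ Q α Ps, 2 * r ≤ dist q' p ∧ ∃ t,
      Deep α Ps (min r (1 / ((n : ℝ) + 1))) p t ∧ Deep α Ps (min r (1 / ((n : ℝ) + 1))) q' t := by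
    intro n
    obtain ⟨q, hq, q', hq', hne, t, ht, ht'⟩ := hcon (min r (1 / ((n : ℝ) + 1)))
      (lt_min hr.pos (by positivity)) (min_le_left _ _)
    obtain ⟨p, hp, g, rfl⟩ := hq
    obtain ⟨K, hK, hKr, hKc⟩ := hr.ex p hp
    obtain ⟨h, hh, hhK⟩ := hKc (α g⁻¹ q') (fun h0 => hne (by rw [← h0, map_inv_apply']))
    refine ⟨p, hp, α h (α g⁻¹ q'), Q_inv (Q_inv hq' _) _, hKr _ hhK, act α h (act α g⁻¹ t), ?_,
      (ht'.move _).move _⟩
    have := (ht.move g⁻¹).move h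
    rwa [map_inv_apply, hh] at this
  choose p hp q' hq' hdist t ht ht' using h1
  obtain ⟨p₀, φ, hφ, hφp⟩ := freq_const (F := (Ps : Set X)) Ps.finite_toSet (u := p) hp
  have hp₀ : p₀ ∈ Ps := by rw [← hφp 0]; exact hp _
  have hφt := hφ.tendsto_atTop
  obtain ⟨y, ψ, hψ, hy⟩ := CompactSpace.tendsto_subseq (fun n => q' (φ n))
  have hψt := hψ.tendsto_atTop
  have hyr : 2 * r ≤ dist y p₀ := by
    refine ge_of_tendsto (hy.dist (tendsto_const_nhds (x := p₀))) (Eventually.of_forall fun n => ?_)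
    have := hdist (φ (ψ n))
    rwa [hφp] at this
  have hne : p₀ ≠ y := by
    intro h0
    rw [h0, dist_self] at hyr
    linarith [hr.pos]
  have hnear : ∀ n, Near p₀ (1 / (((φ (ψ n) : ℕ) : ℝ) + 1)) (t (φ (ψ n))) := by
    intro n
    rw [← Nr_lt]
    have h2 := ht (φ (ψ n)) p₀ hp₀ 1 (by rw [hφp, map_one]; rfl)
    rw [inv_one, act_one] at h2
    exact h2.trans_le (min_le_right _ _)
  obtain ⟨i, j, hij, hi, hj⟩ := exists_conv_index (ξ := p₀) (t := fun n => t (φ (ψ n)))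
    (tendsto_one_div_add_atTop_nhds_zero_nat.comp (hφt.comp hψt)) hnear
  exact hR.deep_key hr (q := fun n => q' (φ (ψ n))) (fun n => hq' _)
    (t := fun n => t (φ (ψ n))) (i := i) (j := j) hij
    (fun n => (ht' _).mono (min_le_left _ _)) hi hj hy hne hne (Or.inl rfl)

/-- The horoballs are locally finite. -/
theorem Rl.locfin [CompactSpace X] [Infinite X] (hR : Rl α Ps) {r : ℝ} (hr : Rad α Ps r)
    {t : Fin 3 → X} (ht : 0 < sep t) : ∃ F : Set X, F.Finite ∧ ∀ᶠ t' in 𝓝 t, ∀ q ∈ Q α Ps,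
      Deep α Ps r q t' → q ∈ F := by
  classical
  by_contra hcon
  push Not at hcon
  obtain ⟨f, hf1, hf2⟩ := exists_seq_of_forall_finset_exists
    (fun a : ℕ × X × (Fin 3 → X) => a.2.1 ∈ Q α Ps ∧ Deep α Ps r a.2.1 a.2.2 ∧
      dist a.2.2 t < 1 / ((a.1 : ℝ) + 1)) (fun a b => a.1 < b.1 ∧ a.2.1 ≠ b.2.1) (by
    intro s _
    have h1 := hcon ((s.image fun a => a.2.1 : Finset X) : Set X) (Finset.finite_toSet _)
    have h2 : ∀ᶠ t' in 𝓝 t, dist t' t < 1 / (((s.sup (fun a => a.1) + 1 : ℕ) : ℝ) + 1) :=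
      ball_mem_nhds t (by positivity)
    obtain ⟨t', ht', ht''⟩ := ((Filter.not_eventually.1 h1).and_eventually h2).exists
    push Not at ht'
    obtain ⟨q, hq, hd, hqs⟩ := ht'
    refine ⟨(s.sup (fun a => a.1) + 1, q, t'), ⟨hq, hd, ht''⟩, fun a ha => ⟨?_, fun h0 => ?_⟩⟩
    · have := Finset.le_sup (f := fun a : ℕ × X × (Fin 3 → X) => a.1) ha
      simp only at this ⊢
      omega
    · apply hqs
      simp only at h0
      rw [← h0]
      exact Finset.mem_coe.2 (Finset.mem_image_of_mem _ ha))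
  have hmono : StrictMono fun n => (f n).1 := fun m n hmn => (hf2 m n hmn).1
  have hinj : Function.Injective fun n => (f n).2.1 := by
    intro m n hmn
    rcases lt_trichotomy m n with h | h | h
    · exact absurd hmn (hf2 m n h).2
    · exact h
    · exact absurd hmn.symm (hf2 n m h).2
  have htend : Tendsto (fun n => (f n).2.2) atTop (𝓝 t) := by
    rw [tendsto_iff_dist_tendsto_zero]
    exact squeeze_zero (fun n => dist_nonneg) (fun n => (hf1 n).2.2.le)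
      (tendsto_one_div_add_atTop_nhds_zero_nat.comp hmono.tendsto_atTop)
  obtain ⟨y, φ, hφ, hy⟩ := CompactSpace.tendsto_subseq (fun n => (f n).2.1)
  have hφt := hφ.tendsto_atTop
  obtain ⟨i, j, hij, hi, hj⟩ := two_of_three (z := t)
    (fun i j hij => dist_pos.1 (ht.trans_le (sep_le t hij))) y
  refine hR.deep_key hr (q := fun n => (f (φ n)).2.1) (fun n => (hf1 _).1)
    (t := fun n => (f (φ n)).2.2) (i := fun _ => i) (j := fun _ => j) (fun _ => hij)
    (fun n => (hf1 _).2.1) (x₀ := t i) (x₀' := t j) ?_ ?_ hy hi hj (Or.inr fun z => ?_)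
  · exact ((continuous_apply i).tendsto t).comp (htend.comp hφt)
  · exact ((continuous_apply j).tendsto t).comp (htend.comp hφt)
  · have h1 := (tendsto_cofinite_of_inj hinj).comp hφt
    exact h1.eventually (Set.finite_singleton z).compl_mem_cofinite

end Pool.Agent.H72.Rel
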