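import Mathlib

/-!
# Proper isometric actions of `ℤ ^ n` on euclidean spaces of dimension `n` are cocompact
-/

set_option autoImplicit false

open Filter Topology Set Metric

namespace Pool.Agent.H72.Rel

section Rank

variable {n : ℕ} {F : Type} [NormedAddCommGroup F] [InnerProductSpace ℝ F]

theorem tau_sum {τ : (Fin n → ℤ) → F} (hτ : ∀ a b, τ (a + b) = τ a + τ b) (a : Fin n → ℤ) :
    τ a = ∑ i, (a i : ℝ) • τ (Pi.single i 1) := by
  let T : (Fin n → ℤ) →+ F := AddMonoidHom.mk' τ hτ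
  have h1 : a = ∑ i, a i • (Pi.single i 1 : Fin n → ℤ) := by
    funext j
    simp [Finset.sum_apply, Pi.single_apply]
  have h2 : T a = ∑ i, a i • T (Pi.single i 1) := by
    conv_lhs => rw [h1]
    rw [map_sum]
    refine Finset.sum_congr rfl fun i _ => ?_
    rw [map_zsmul]
  change T a = _
  rw [h2]
  refine Finset.sum_congr rfl fun i _ => ?_
  rw [Int.cast_smul_eq_zsmul]
  rfl

theorem floor_bound {τ : (Fin n → ℤ) → F} (hτ : ∀ a b, τ (a + b) = τ a + τ b) (c : Fin n → ℝ) :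
    ‖(∑ i, c i • τ (Pi.single i 1)) - τ (fun i => ⌊c i⌋)‖ ≤ ∑ i, ‖τ (Pi.single i 1)‖ := by
  rw [tau_sum hτ (fun i => ⌊c i⌋), ← Finset.sum_sub_distrib]
  refine (norm_sum_le _ _).trans (Finset.sum_le_sum fun i _ => ?_)
  rw [← sub_smul, norm_smul]
  have h1 := Int.floor_le (c i)
  have h2 := Int.lt_floor_add_one (c i)
  have h3 : ‖c i - (⌊c i⌋ : ℝ)‖ ≤ 1 := by
    rw [Real.norm_eq_abs, abs_le]
    constructor <;> linarith
  have := norm_nonneg (τ (Pi.single i 1))
  nlinarith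

/-- The images of the basis vectors are linearly independent. -/
theorem tau_indep {τ : (Fin n → ℤ) → F} (hτ : ∀ a b, τ (a + b) = τ a + τ b)
    (hfin : ∀ r : ℝ, {a | ‖τ a‖ ≤ r}.Finite) :
    LinearIndependent ℝ fun i : Fin n => τ (Pi.single i 1) := by
  rw [Fintype.linearIndependent_iff]
  intro g hg j
  by_contra hj
  set C := ∑ i, ‖τ (Pi.single i 1)‖ with hC
  have h1 : ∀ N : ℕ, (fun i => ⌊(N : ℝ) * g i⌋) ∈ {a | ‖τ a‖ ≤ C} := by
    intro N
    have h2 := floor_bound hτ fun i => (N : ℝ) * g i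
    have h3 : ∑ i, ((N : ℝ) * g i) • τ (Pi.single i 1) = 0 := by
      simp only [← smul_smul]
      rw [← Finset.smul_sum, hg, smul_zero]
    rw [h3, zero_sub, norm_neg] at h2
    exact h2
  have h2 := (hfin C).image fun a => |(a j : ℝ)|
  obtain ⟨B, hB⟩ := h2.bddAbove
  have h3 : ∀ N : ℕ, |((⌊(N : ℝ) * g j⌋ : ℤ) : ℝ)| ≤ B := fun N => hB ⟨_, h1 N, rfl⟩
  obtain ⟨N, hN⟩ := exists_nat_gt ((B + 1) / |g j|)
  have h4 : 0 < |g j| := abs_pos.2 hj
  rw [div_lt_iff₀ h4] at hN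
  have h5 := h3 N
  have h6 := Int.floor_le ((N : ℝ) * g j)
  have h7 := Int.lt_floor_add_one ((N : ℝ) * g j)
  have h8 : |(N : ℝ) * g j| ≤ |((⌊(N : ℝ) * g j⌋ : ℤ) : ℝ)| + 1 := by
    have := abs_sub_abs_le_abs_sub ((N : ℝ) * g j) ((⌊(N : ℝ) * g j⌋ : ℤ) : ℝ)
    have h9 : |(N : ℝ) * g j - ((⌊(N : ℝ) * g j⌋ : ℤ) : ℝ)| ≤ 1 := by
      rw [abs_le]; constructor <;> linarith
    linarith
  rw [abs_mul, Nat.abs_cast] at h8
  linarith

theorem tau_cocompact [FiniteDimensional ℝ F] (hF : Module.finrank ℝ F = n)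
    {τ : (Fin n → ℤ) → F} (hτ : ∀ a b, τ (a + b) = τ a + τ b)
    (hfin : ∀ r : ℝ, {a | ‖τ a‖ ≤ r}.Finite) : ∃ C : ℝ, ∀ y : F, ∃ a, ‖y + τ a‖ ≤ C := by
  have hli := tau_indep hτ hfin
  refine ⟨∑ i, ‖τ (Pi.single i 1)‖, fun y => ?_⟩
  rcases Nat.eq_zero_or_pos n with h0 | h0
  · subst h0
    have hy : y = 0 := by
      have : Subsingleton F := Module.finrank_zero_iff.1 hF
      exact Subsingleton.elim _ _
    refine ⟨0, ?_⟩
    have h1 : τ 0 = 0 := by
      have := hτ 0 0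
      rw [add_zero] at this
      simpa using this
    rw [hy, zero_add, h1]
    simp
  · have : Nonempty (Fin n) := ⟨⟨0, h0⟩⟩
    let b := basisOfLinearIndependentOfCardEqFinrank hli (by simp [hF])
    have hb : ∀ i, b i = τ (Pi.single i 1) := fun i => by simp [b]
    have h1 : y = ∑ i, b.repr y i • τ (Pi.single i 1) := by
      conv_lhs => rw [← b.sum_repr y]
      simp only [hb]
    have h2 := floor_bound hτ fun i => b.repr y i
    rw [← h1] at h2
    refine ⟨-(fun i => ⌊b.repr y i⌋), ?_⟩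
    have h3 : τ (-(fun i => ⌊b.repr y i⌋)) = - τ (fun i => ⌊b.repr y i⌋) := by
      let T : (Fin n → ℤ) →+ F := AddMonoidHom.mk' τ hτ
      exact map_neg T _
    rw [h3, ← sub_eq_add_neg]
    exact h2

end Rank

/-- A proper isometric action of `ℤ ^ n` on a euclidean space of dimension `m`: `n ≤ m`, and if
`n = m` the action is by translations. -/
theorem zn_main (n : ℕ) (m : ℕ) : ∀ (F : Type) [NormedAddCommGroup F] [InnerProductSpace ℝ F]
    [FiniteDimensional ℝ F], Module.finrank ℝ F = m → ∀ (R : (Fin n → ℤ) → (F →ₗᵢ[ℝ] F))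
    (τ : (Fin n → ℤ) → F), (∀ a b v, R (a + b) v = R a (R b v)) →
    (∀ a b, τ (a + b) = R a (τ b) + τ a) → (∀ r : ℝ, {a | ‖τ a‖ ≤ r}.Finite) →
    n ≤ m ∧ (n = m → ∀ a v, R a v = v) := by
  induction m using Nat.strong_induction_on with
  | _ m ih =>
  intro F _ _ _ hF R τ hR hτ hfin
  by_cases htriv : ∀ a v, R a v = v
  · refine ⟨?_, fun _ => htriv⟩
    have hadd : ∀ a b, τ (a + b) = τ a + τ b := fun a b => by
      rw [hτ, htriv, add_comm]
    have := (tau_indep hadd hfin).fintype_card_le_finrank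
    rw [Fintype.card_fin, hF] at this
    exact this
  push Not at htriv
  obtain ⟨b, v₁, hv₁⟩ := htriv
  -- the fixed space of `R b`
  set L : F →ₗ[ℝ] F := (R b).toLinearMap - LinearMap.id with hL
  have hLv : ∀ v, L v = R b v - v := fun v => rfl
  set K : Submodule ℝ F := LinearMap.ker L with hK
  have hKmem : ∀ v, v ∈ K ↔ R b v = v := fun v => by
    rw [hK, LinearMap.mem_ker, hLv, sub_eq_zero]
  have hRK : ∀ a, ∀ v ∈ K, R a v ∈ K := by
    intro a v hv
    rw [hKmem] at hv ⊢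
    rw [← hR, add_comm, hR, hv]
  have horth : ∀ v ∈ K, ∀ u, inner ℝ (L u) v = 0 := by
    intro v hv u
    rw [hLv, inner_sub_left]
    have h1 := (R b).inner_map_map u v
    rw [(hKmem v).1 hv] at h1
    rw [h1, sub_self]
  have hrange : LinearMap.range L = Kᗮ := by
    refine Submodule.eq_of_le_of_finrank_eq ?_ ?_
    · rintro _ ⟨u, rfl⟩
      rw [Submodule.mem_orthogonal']
      exact fun v hv => horth v hv u
    · have h1 := LinearMap.finrank_range_add_finrank_ker L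
      have h2 := K.finrank_add_finrank_orthogonal
      rw [← hK] at h1
      omega
  have hlt : Module.finrank ℝ K < m := by
    rw [← hF]
    refine Submodule.finrank_lt ?_
    intro h0
    apply hv₁
    rw [← hKmem, h0]
    exact Submodule.mem_top
  -- the new origin
  obtain ⟨f, hf, g, hg, hfg⟩ := K.exists_add_mem_mem_orthogonal (τ b)
  rw [← hrange] at hg
  obtain ⟨x, hx⟩ := hg
  set x₀ : F := -x with hx₀
  have htb : R b x₀ + τ b - x₀ = f := by
    have h1 : R b x - x = g := hx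
    rw [hx₀, map_neg, hfg, ← h1]
    abel
  have hcomm : ∀ a, R a (τ b) + τ a = R b (τ a) + τ b := fun a => by
    rw [← hτ, add_comm, hτ]
  set τ' : (Fin n → ℤ) → F := fun a => R a x₀ + τ a - x₀ with hτ'
  have hcomm' : ∀ a, R a (τ' b) - τ' b = R b (τ' a) - τ' a := by
    intro a
    simp only [hτ', map_sub, map_add]
    have h1 := hcomm a
    have h2 : R a (R b x₀) = R b (R a x₀) := by rw [← hR, add_comm, hR]
    rw [h2]
    have h3 : R a (τ b) = R b (τ a) + τ b - τ a := by rw [← h1]; abel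
    rw [h3]
    abel
  have hτ'K : ∀ a, τ' a ∈ K := by
    intro a
    have h1 : R a (τ' b) - τ' b ∈ K := by
      have : τ' b ∈ K := by
        change R b x₀ + τ b - x₀ ∈ K
        rw [htb]; exact hf
      exact K.sub_mem (hRK a _ this) this
    have h2 : inner ℝ (R b (τ' a) - τ' a) (R b (τ' a) - τ' a) = 0 := by
      conv_lhs => rw [← hcomm' a]
      rw [hcomm' a]
      exact horth _ (hcomm' a ▸ h1) (τ' a)
    rw [hKmem, ← sub_eq_zero]
    exact inner_self_eq_zero.1 h2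
  -- the restricted action
  let R' : (Fin n → ℤ) → (K →ₗᵢ[ℝ] K) := fun a =>
    { toLinearMap := (R a).toLinearMap.restrict (hRK a)
      norm_map' := fun v => (R a).norm_map v }
  have hR' : ∀ a (v : K), (R' a v : F) = R a v := fun a v => rfl
  obtain ⟨h1, h2⟩ := ih (Module.finrank ℝ K) hlt K rfl R' (fun a => ⟨τ' a, hτ'K a⟩)
    (fun a b v => Subtype.ext (by rw [hR', hR', hR', hR])) (fun a b => Subtype.ext (by
      rw [Submodule.coe_add, hR']
      simp only [hτ', map_sub, map_add]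
      rw [hτ, hR]
      abel)) (fun r => by
      refine (hfin (r + 2 * ‖x₀‖)).subset fun a ha => ?_
      have h3 : ‖τ' a‖ ≤ r := ha
      have h4 : τ a = τ' a - R a x₀ + x₀ := by simp only [hτ']; abel
      change ‖τ a‖ ≤ _
      rw [h4]
      calc ‖τ' a - R a x₀ + x₀‖ ≤ ‖τ' a - R a x₀‖ + ‖x₀‖ := norm_add_le _ _
        _ ≤ ‖τ' a‖ + ‖R a x₀‖ + ‖x₀‖ := by gcongr; exact norm_sub_le _ _
        _ ≤ r + 2 * ‖x₀‖ := by rw [(R a).norm_map]; linarith)
  exact ⟨by omega, fun h => by omega⟩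

/-- Proper isometric actions of `ℤ ^ n` on euclidean `n`-space are cocompact. -/
theorem zn_cocompact {n : ℕ} {F : Type} [NormedAddCommGroup F] [InnerProductSpace ℝ F]
    [FiniteDimensional ℝ F] (hF : Module.finrank ℝ F = n) (σ : (Fin n → ℤ) → F → F)
    (h0 : ∀ y, σ 0 y = y) (hadd : ∀ a b y, σ (a + b) y = σ a (σ b y))
    (hiso : ∀ a y y', dist (σ a y) (σ a y') = dist y y')
    (hfin : ∀ r : ℝ, {a | ‖σ a 0‖ ≤ r}.Finite) : ∃ C : ℝ, ∀ y : F, ∃ a, ‖σ a y‖ ≤ C := by
  let e : (Fin n → ℤ) → (F ≃ᵢ F) := fun a =>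
    IsometryEquiv.mk' (σ a) (σ (-a)) (fun y => by rw [← hadd, add_neg_cancel, h0])
      (Isometry.of_dist_eq (hiso a))
  let A : (Fin n → ℤ) → (F ≃ᵃⁱ[ℝ] F) := fun a => (e a).toRealAffineIsometryEquiv
  have hA : ∀ a y, A a y = σ a y := fun a y => rfl
  let R : (Fin n → ℤ) → (F →ₗᵢ[ℝ] F) := fun a => (A a).linearIsometryEquiv.toLinearIsometry
  have hRA : ∀ a y, σ a y = R a y + σ a 0 := by
    intro a y
    have h1 := (A a).map_vadd 0 y
    simp only [vadd_eq_add, add_zero] at h1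
    rw [← hA, h1, ← hA]
    rfl
  have hRA' : ∀ a y, R a y = σ a y - σ a 0 := fun a y => by rw [hRA a y]; abel
  have hτ : ∀ a b, σ (a + b) 0 = R a (σ b 0) + σ a 0 := fun a b => by
    rw [hadd, hRA]
  obtain ⟨-, h2⟩ := zn_main n n F hF R (fun a => σ a 0) (fun a b v => by
    rw [hRA' (a + b), hRA' a (R b v), hRA' b v, hadd, hτ, hRA a (σ b v), hRA a (σ b v - σ b 0),
      map_sub]
    abel) hτ hfin
  have h3 := h2 rfl
  obtain ⟨C, hC⟩ := tau_cocompact hF (τ := fun a => σ a 0) (fun a b => by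
    rw [hτ, h3, add_comm]) hfin
  refine ⟨C, fun y => ?_⟩
  obtain ⟨a, ha⟩ := hC y
  refine ⟨a, ?_⟩
  rw [hRA, h3]
  exact ha

end Pool.Agent.H72.Rel
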