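import Pool.Agent.H72.Rel.R6

/-!
# The cusps of the action on hyperbolic space, continued
-/

set_option autoImplicit false

open Filter Topology Set Metric Pool.Agent.TH631.RC

namespace Pool.Agent.H72.Rel

variable {E : Type} [NormedAddCommGroup E] [InnerProductSpace ℝ E]
variable {G : Type} [Group G] {ρ : HypAction G E} {X : Type} [MetricSpace X]
variable {α : G →* (X ≃ₜ X)} {Ps : Finset X}

/-- The properties of the light vectors of the parabolic points. -/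
structure TarW (ρ : HypAction G E) (α : G →* (X ≃ₜ X)) (Q : Set X) (ℓ : X → ℝ × E) (κ c₀ : ℝ) :
    Prop where
  hfin : ∀ R : ℝ, {g : G | T ρ g ≤ R}.Finite
  null : ∀ q ∈ Q, lor (ℓ q) (ℓ q) = 0
  cl : ∀ q ∈ Q, Cl (ℓ q)
  move : ∀ q ∈ Q, ∀ g, ρ.map g (ℓ q) = ℓ (α g q)
  fin : ∀ R : ℝ, {q | q ∈ Q ∧ (ℓ q).1 ≤ R}.Finite
  κpos : 0 < κ
  sep : ∀ q ∈ Q, ∀ q' ∈ Q, q ≠ q' → κ ≤ lor (ℓ q) (ℓ q')
  c₀pos : 0 < c₀
  low : ∀ q ∈ Q, c₀ ≤ (ℓ q).1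

theorem exists_low {S : Type} {F : Set S} (hF : F.Finite) {f : S → ℝ} (hf : ∀ x ∈ F, 0 < f x) :
    ∃ c, 0 < c ∧ ∀ x ∈ F, c ≤ f x := by
  rcases F.eq_empty_or_nonempty with h | h
  · exact ⟨1, one_pos, fun x hx => by rw [h] at hx; exact absurd hx (Set.notMem_empty x)⟩
  · obtain ⟨x, hx, hx'⟩ := Set.exists_min_image F f hF h
    exact ⟨f x, hf x hx, hx'⟩

variable {c : X → Sp E} {ℓ : X → ℝ × E}

theorem ell_move (hℓ : ∀ p ∈ Ps, ∀ g, ℓ (α g p) = ρ.map g (light (c p : E))) {q : X}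
    (hq : q ∈ Q α Ps) (g : G) : ρ.map g (ℓ q) = ℓ (α g q) := by
  obtain ⟨p, hp, s, rfl⟩ := hq
  rw [hℓ p hp, ← ρ.map_mul, ← Dj.map_mul_apply, hℓ p hp]

theorem ell_p (hℓ : ∀ p ∈ Ps, ∀ g, ℓ (α g p) = ρ.map g (light (c p : E))) {p : X}
    (hp : p ∈ Ps) : ℓ p = light (c p : E) := by
  have := hℓ p hp 1
  rwa [map_one, ρ.map_one] at this

theorem ell_cl (hℓ : ∀ p ∈ Ps, ∀ g, ℓ (α g p) = ρ.map g (light (c p : E))) {q : X}
    (hq : q ∈ Q α Ps) : Cl (ℓ q) := by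
  obtain ⟨p, hp, s, rfl⟩ := hq
  rw [hℓ p hp]
  exact (cl_light _).map _

theorem ell_null (hℓ : ∀ p ∈ Ps, ∀ g, ℓ (α g p) = ρ.map g (light (c p : E))) {q : X}
    (hq : q ∈ Q α Ps) : lor (ℓ q) (ℓ q) = 0 := by
  obtain ⟨p, hp, s, rfl⟩ := hq
  rw [hℓ p hp, ρ.lor_map, lor_light, inner_self_one]; ring

/-- Different parabolic points have different light rays. -/
theorem Cu.ne [CompactSpace X] (hc : Cu ρ α Ps c) (hR : Rl α Ps)
    (hfin : ∀ R : ℝ, {g : G | T ρ g ≤ R}.Finite)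
    (hℓ : ∀ p ∈ Ps, ∀ g, ℓ (α g p) = ρ.map g (light (c p : E))) {p q : X} (hp : p ∈ Ps)
    (hq : q ∈ Q α Ps) (hne : p ≠ q) : 0 < lor (ℓ q) (light (c p : E)) := by
  have h0 := (ell_cl hℓ hq).lor_nonneg (cl_light (c p))
  refine lt_of_le_of_ne h0 fun h1 => hne ?_
  have h2 := null_eq (ell_null hℓ hq) h1.symm
  have hpos : 0 < (ℓ q).1 := (ell_cl hℓ hq).2
  have hq' := hq
  obtain ⟨p', hp', g, rfl⟩ := hq
  obtain ⟨γ, hγ, hinj⟩ := (hR.par p' hp').inf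
  set θ := g * γ * g⁻¹ with hθ
  -- `θ` fixes the light vector of `p`
  have hθq : ρ.map θ (ℓ (α g p')) = ℓ (α g p') := by
    rw [hℓ p' hp', hθ, ρ.map_mul, ρ.map_mul, TH631.RC.map_inv, hc.fix p' hp' γ hγ]
  have hθp : ρ.map θ (light (c p : E)) = light (c p : E) := by
    rw [h2, map_smul] at hθq
    exact smul_right_injective _ hpos.ne' hθq
  have hpow : ∀ k : ℕ, ρ.map (θ ^ k) (light (c p : E)) = light (c p : E) := by
    intro k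
    induction k with
    | zero => rw [pow_zero, ρ.map_one]
    | succ n ih => rw [pow_succ, ρ.map_mul, hθp, ih]
  obtain ⟨C, hC⟩ := hc.coc p hp
  have h3 : ∀ k : ℕ, ∃ h, α h p = p ∧ (ρ.map h (ρ.map (θ ^ k) (lam (c p) 0))).1 ≤ C := by
    intro k
    refine hC _ (by rw [ρ.lor_map, lam_null]) ?_
    nth_rewrite 1 [← hpow k]
    rw [ρ.lor_map, lam_light]
  choose h hh hhC using h3
  have h4 : ∀ k, h k * θ ^ k ∈ {g : G | T ρ g ≤ C + 1 / 2} := by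
    intro k
    change (ρ.map (h k * θ ^ k) (1, 0)).1 ≤ _
    rw [o_eq (c := c p), map_add, map_smul, ρ.map_mul, ρ.map_mul, hpow, hc.fix p hp _ (hh k)]
    simp only [Prod.fst_add, Prod.smul_fst, smul_eq_mul]
    have : (light (c p : E)).1 = 1 := rfl
    rw [this]
    linarith [hhC k]
  obtain ⟨s, φ, hφ, hφs⟩ := Dj.freq_const (hfin (C + 1 / 2)) h4
  -- a power of `θ` fixes `p`
  have h5 : h (φ 0) * θ ^ φ 0 = h (φ 1) * θ ^ φ 1 := by rw [hφs, hφs]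
  have hlt : φ 0 < φ 1 := hφ one_pos
  obtain ⟨m, hm⟩ := Nat.exists_eq_add_of_lt hlt
  have h6 : θ ^ (m + 1) = (h (φ 1))⁻¹ * h (φ 0) := by
    have e1 : θ ^ φ 1 = θ ^ (m + 1) * θ ^ φ 0 := by rw [← pow_add]; congr 1; omega
    rw [e1, ← mul_assoc] at h5
    have h7 := mul_right_cancel h5
    rw [h7, inv_mul_cancel_left]
  have h8 : α (θ ^ (m + 1)) p = p := by
    rw [h6, Dj.map_mul_apply, hh, fix_inv (hh _)]
  rw [hθ, _root_.conj_pow] at h8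
  refine (hR.par p' hp').conj_fix (fix_pow hγ (m + 1)) ?_ g h8
  intro i j hij
  simp only [← pow_mul] at hij
  have := hinj hij
  exact Nat.eq_of_mul_eq_mul_left (Nat.succ_pos m) this

theorem Cu.tarW [CompactSpace X] (hc : Cu ρ α Ps c) (hR : Rl α Ps)
    (hfin : ∀ R : ℝ, {g : G | T ρ g ≤ R}.Finite)
    (hℓ : ∀ p ∈ Ps, ∀ g, ℓ (α g p) = ρ.map g (light (c p : E))) :
    ∃ κ c₀ : ℝ, TarW ρ α (Q α Ps) ℓ κ c₀ := by
  have hF := hc.fin hR hfin hℓ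
  obtain ⟨c₁, hc₁, hc₁'⟩ := exists_low (hF 1) (f := fun q => (ℓ q).1) fun q hq => (ell_cl hℓ hq.1).2
  have hlow : ∀ q ∈ Q α Ps, min 1 c₁ ≤ (ℓ q).1 := by
    intro q hq
    by_cases h : (ℓ q).1 ≤ 1
    · exact (min_le_right _ _).trans (hc₁' q ⟨hq, h⟩)
    · push Not at h
      exact (min_le_left _ _).trans h.le
  have hc₀ : 0 < min 1 c₁ := lt_min one_pos hc₁
  -- common constant of the cusps
  have hC : ∃ C : ℝ, 0 < C ∧ ∀ p ∈ Ps, ∀ v : ℝ × E, lor v v = 0 →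
      lor v (light (c p : E)) = 1 → ∃ g, α g p = p ∧ (ρ.map g v).1 ≤ C := by
    choose! C hC using hc.coc
    refine ⟨∑ p ∈ Ps, |C p| + 1, by positivity, fun p hp v hv1 hv2 => ?_⟩
    obtain ⟨g, hg, hgC⟩ := hC p hp v hv1 hv2
    refine ⟨g, hg, hgC.trans ?_⟩
    have h1 : |C p| ≤ ∑ p ∈ Ps, |C p| :=
      Finset.single_le_sum (f := fun p => |C p|) (fun i _ => abs_nonneg _) hp
    linarith [le_abs_self (C p)]
  obtain ⟨C, hC0, hC⟩ := hC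
  refine ⟨min 1 c₁ / C, min 1 c₁, hfin, fun q hq => ell_null hℓ hq, fun q hq => ell_cl hℓ hq,
    fun q hq g => ell_move hℓ hq g, hF, div_pos hc₀ hC0, ?_, hc₀, hlow⟩
  intro q hq q' hq' hne
  obtain ⟨p, hp, g, rfl⟩ := hq
  have h1 : lor (ℓ (α g p)) (ℓ q') = lor (ℓ (α g⁻¹ q')) (light (c p : E)) := by
    rw [hℓ p hp, lor_adj, ell_move hℓ hq', lor_comm]
  rw [h1]
  have hq'' := Q_inv hq' g⁻¹
  have hd := hc.ne hR hfin hℓ hp hq'' (fun h0 => hne (by rw [h0, Dj.map_inv_apply']))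
  set d := lor (ℓ (α g⁻¹ q')) (light (c p : E)) with hdd
  obtain ⟨h, hh, hhC⟩ := hC p hp (d⁻¹ • ℓ (α g⁻¹ q'))
    (by rw [lor_smul_left, lor_smul_right, ell_null hℓ hq'']; ring)
    (by rw [lor_smul_left, ← hdd, inv_mul_cancel₀ hd.ne'])
  rw [map_smul, Prod.smul_fst, smul_eq_mul, ell_move hℓ hq''] at hhC
  have h2 := hlow _ (Q_inv hq'' h)
  rw [div_le_iff₀ hC0]
  rw [inv_mul_le_iff₀ hd] at hhC
  linarith

/-- All properties of the light vectors. -/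
theorem exists_tarW [FiniteDimensional ℝ E] [CompactSpace X] (hR : Rl α Ps) {n : ℕ} (hn : 2 ≤ n)
    (hE : Module.finrank ℝ E = n + 1) (hfin : ∀ R : ℝ, {g : G | T ρ g ≤ R}.Finite)
    (hV : ∀ p ∈ Ps, VZn n α p) : ∃ (c : X → Sp E) (ℓ : X → ℝ × E) (κ c₀ : ℝ), Cu ρ α Ps c ∧
      TarW ρ α (Q α Ps) ℓ κ c₀ ∧ ∀ p ∈ Ps, ∀ g, ℓ (α g p) = ρ.map g (light (c p : E)) := by
  obtain ⟨c, hc⟩ := exists_cu (ρ := ρ) (Ps := Ps) hn hE hfin hV
  obtain ⟨ℓ, hℓ⟩ := hc.exists_ell hR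
  obtain ⟨κ, c₀, h⟩ := hc.tarW hR hfin hℓ
  exact ⟨c, ℓ, κ, c₀, hc, h, hℓ⟩

end Pool.Agent.H72.Rel
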