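import Pool.Agent.H72.Rel.R7

/-!
# The equivariant map from triples to the closed cone
-/

set_option autoImplicit false

open Filter Topology Set Metric Pool.Agent.TH631.RC
open Pool.Agent.TH289.C (sep act wt wt_nonneg wt_pos continuous_wt finite_supp IsConvergenceAction
  wt_act continuous_sep act_mul act_one)

namespace Pool.Agent.H72.Rel

section Cone

variable {E : Type} [NormedAddCommGroup E] [InnerProductSpace ℝ E]

/-- The closed cone, with the origin. -/
def C0 (v : ℝ × E) : Prop := ‖v.2‖ ≤ v.1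

/-- The open cone. -/
def Tl (v : ℝ × E) : Prop := ‖v.2‖ < v.1

omit [InnerProductSpace ℝ E] in
theorem Cl.c0 {v : ℝ × E} (h : Cl v) : C0 v := h.1

omit [InnerProductSpace ℝ E] in
theorem C0.zero : C0 (0 : ℝ × E) := by simp [C0]

omit [InnerProductSpace ℝ E] in
theorem C0.add {v w : ℝ × E} (hv : C0 v) (hw : C0 w) : C0 (v + w) :=
  (norm_add_le _ _).trans (add_le_add hv hw)

omit [InnerProductSpace ℝ E] in
theorem C0.cl_add {v w : ℝ × E} (hv : C0 v) (hw : Cl w) : Cl (v + w) := by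
  refine ⟨hv.add hw.1, ?_⟩
  have : 0 ≤ v.1 := (norm_nonneg _).trans hv
  have h2 := hw.2
  simp only [Prod.fst_add]
  linarith

omit [InnerProductSpace ℝ E] in
theorem C0.tl_add {v w : ℝ × E} (hv : C0 v) (hw : Tl w) : Tl (v + w) :=
  (norm_add_le _ _).trans_lt (add_lt_add_of_le_of_lt hv hw)

theorem Tl.cl {v : ℝ × E} (h : Tl v) : Cl v := ⟨h.le, (norm_nonneg _).trans_lt h⟩

theorem C0.smul {v : ℝ × E} (hv : C0 v) {c : ℝ} (hc : 0 ≤ c) : C0 (c • v) := by
  unfold C0
  rw [Prod.smul_snd, norm_smul, Real.norm_of_nonneg hc, Prod.smul_fst, smul_eq_mul]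
  exact mul_le_mul_of_nonneg_left hv hc

theorem Tl.smul {v : ℝ × E} (hv : Tl v) {c : ℝ} (hc : 0 < c) : Tl (c • v) := by
  unfold Tl
  rw [Prod.smul_snd, norm_smul, Real.norm_of_nonneg hc.le, Prod.smul_fst, smul_eq_mul]
  exact mul_lt_mul_of_pos_left hv hc

theorem Cl.tl_iff {v : ℝ × E} (h : Cl v) : Tl v ↔ 0 < lor v v := by
  rw [lor_self]
  have h1 := norm_nonneg v.2
  have h2 := h.2
  constructor
  · intro h3
    have h4 : ‖v.2‖ < v.1 := h3
    nlinarith
  · intro h3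
    unfold Tl
    nlinarith

theorem C0.lor_nonneg {v w : ℝ × E} (hv : C0 v) (hw : C0 w) : 0 ≤ lor v w := by
  unfold lor
  have h1 := real_inner_le_norm v.2 w.2
  have h2 : ‖v.2‖ * ‖w.2‖ ≤ v.1 * w.1 :=
    mul_le_mul hv hw (norm_nonneg _) ((norm_nonneg _).trans hv)
  linarith

/-- The reversed Cauchy-Schwarz inequality on the orthogonal of a timelike vector. -/
theorem Tl.orth {v w : ℝ × E} (hv : Tl v) (h : lor v w = 0) : lor w w ≤ 0 := by
  rw [lor_self]
  have h1 : v.1 * w.1 = inner ℝ v.2 w.2 := by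
    unfold lor at h
    linarith
  have h2 := abs_real_inner_le_norm v.2 w.2
  rw [← h1, abs_mul] at h2
  have h3 : 0 < v.1 := hv.cl.2
  have h4 : ‖v.2‖ < v.1 := hv
  rw [abs_of_pos h3] at h2
  have h5 : ‖v.2‖ * ‖w.2‖ ≤ v.1 * ‖w.2‖ := mul_le_mul_of_nonneg_right h4.le (norm_nonneg _)
  have h6 : |w.1| ≤ ‖w.2‖ := le_of_mul_le_mul_left (h2.trans h5) h3
  have h7 : w.1 ^ 2 = |w.1| ^ 2 := (sq_abs _).symm
  have := abs_nonneg w.1
  nlinarith

theorem lor_sub_left (u v w : ℝ × E) : lor (u - v) w = lor u w - lor v w := by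
  have := lor_add_left (u - v) v w
  rw [sub_add_cancel] at this
  linarith

theorem lor_sub_right (u v w : ℝ × E) : lor u (v - w) = lor u v - lor u w := by
  rw [lor_comm, lor_sub_left, lor_comm v, lor_comm w]

theorem Tl.pair {v x y : ℝ × E} (hv : Tl v) (hx : Cl x) (hy : Cl y) :
    lor v v * lor x y ≤ 2 * (lor v x * lor v y) := by
  set m := lor v v with hm
  have hm0 : 0 < m := hv.cl.tl_iff.1 hv
  set a := lor v x with ha
  set b := lor v y with hb
  have ha0 : 0 < a := by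
    have h1 := hx.lor_ge (v := v)
    have h2 : ‖v.2‖ < v.1 := hv
    have h3 := hx.2
    have : 0 < (v.1 - ‖v.2‖) * x.1 := mul_pos (by linarith) h3
    linarith
  have hb0 : 0 < b := by
    have h1 := hy.lor_ge (v := v)
    have h2 : ‖v.2‖ < v.1 := hv
    have h3 := hy.2
    have : 0 < (v.1 - ‖v.2‖) * y.1 := mul_pos (by linarith) h3
    linarith
  have hxx := hx.lor_nonneg_self
  have hyy := hy.lor_nonneg_self
  set w : ℝ × E := (b * m) • x + (a * m) • y - (2 * (a * b)) • v with hw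
  have hvw : lor v w = 0 := by
    rw [hw, lor_sub_right, lor_add_right, lor_smul_right, lor_smul_right, lor_smul_right,
      ← ha, ← hb, ← hm]
    ring
  have h1 := hv.orth hvw
  have h2 : lor w w = (b * m) ^ 2 * lor x x + (a * m) ^ 2 * lor y y +
      2 * (b * m) * (a * m) * lor x y - 4 * (a * b) ^ 2 * m := by
    have e1 : lor w w = lor ((b * m) • x + (a * m) • y) w := by
      nth_rewrite 1 [hw]
      rw [lor_sub_left, lor_smul_left, hvw, mul_zero, sub_zero]
    rw [e1, hw, lor_sub_right]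
    simp only [lor_add_left, lor_add_right, lor_smul_left, lor_smul_right]
    rw [lor_comm x v, lor_comm y v, lor_comm y x, ← ha, ← hb]
    ring
  rw [h2] at h1
  have h3 : 2 * (a * b * m) * (m * lor x y) ≤ 2 * (a * b * m) * (2 * (a * b)) := by
    have e1 : 0 ≤ (b * m) ^ 2 * lor x x := by positivity
    have e2 : 0 ≤ (a * m) ^ 2 * lor y y := by positivity
    nlinarith
  exact le_of_mul_le_mul_left h3 (by positivity)

omit [InnerProductSpace ℝ E] in
theorem c0_finsum {ι : Type} {f : ι → ℝ × E} (h : ∀ i, C0 (f i)) : C0 (∑ᶠ i, f i) :=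
  finsum_induction C0 C0.zero (fun _ _ h1 h2 => h1.add h2) h

omit [InnerProductSpace ℝ E] in
theorem tl_finsum {ι : Type} {f : ι → ℝ × E} (hf : (Function.support f).Finite)
    (h : ∀ i, C0 (f i)) {i : ι} (hi : Tl (f i)) : Tl (∑ᶠ i, f i) := by
  classical
  have h1 : ∑ᶠ j, f j = (∑ j ∈ hf.toFinset.erase i, f j) + f i := by
    rw [finsum_eq_sum_of_support_subset f (s := hf.toFinset) (by simp)]
    refine (Finset.sum_erase_add _ _ ?_).symm
    rw [Finite.mem_toFinset, Function.mem_support]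
    intro h0
    rw [h0] at hi
    unfold Tl at hi
    simp at hi
  rw [h1]
  refine C0.tl_add ?_ hi
  exact Finset.sum_induction _ C0 (fun _ _ h1 h2 => h1.add h2) C0.zero fun j _ => h j

end Cone

section W

variable {E : Type} [NormedAddCommGroup E] [InnerProductSpace ℝ E]
variable {G : Type} [Group G] {X : Type} [MetricSpace X]

/-- The thick part. -/
noncomputable def Wt (α : G →* (X ≃ₜ X)) (ρ : HypAction G E) (ε : ℝ) (t : Fin 3 → X) : ℝ × E :=
  ∑ᶠ g, wt α ε g t • ρ.map g (1, 0)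

/-- The part of the cusps. -/
noncomputable def Wq (u : X → (Fin 3 → X) → ℝ) (ℓ : X → ℝ × E) (t : Fin 3 → X) : ℝ × E :=
  ∑ᶠ q, u q t • ℓ q

/-- The equivariant map to the cone. -/
noncomputable def W (α : G →* (X ≃ₜ X)) (ρ : HypAction G E) (u : X → (Fin 3 → X) → ℝ)
    (ℓ : X → ℝ × E) (ε : ℝ) (t : Fin 3 → X) : ℝ × E := Wt α ρ ε t + Wq u ℓ t

variable {α : G →* (X ≃ₜ X)} {ρ : HypAction G E} {Qs : Set X} {u : X → (Fin 3 → X) → ℝ}
  {ℓ : X → ℝ × E} {ε κ c₀ : ℝ}

theorem Wt_supp (hα : IsConvergenceAction α) (hε : 0 < ε) {t : Fin 3 → X} (ht : 0 < sep t) :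
    (Function.support fun g => wt α ε g t • ρ.map g ((1 : ℝ), (0 : E))).Finite := by
  refine (finite_supp hα hε ht).subset fun g hg => ⟨t, le_rfl, ?_⟩
  refine lt_of_le_of_ne (wt_nonneg _ _ _) fun h0 => hg ?_
  simp [← h0]

theorem continuousAt_Wt (hα : IsConvergenceAction α) (hε : 0 < ε) {t : Fin 3 → X}
    (ht : 0 < sep t) : ContinuousAt (Wt α ρ ε) t := by
  have h1 : ∀ᶠ t' in 𝓝 t, sep t / 2 < sep t' :=
    continuous_sep.continuousAt.eventually_const_lt (by linarith)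
  have h2 : (fun t' => ∑ g ∈ (finite_supp hα hε (half_pos ht)).toFinset,
      wt α ε g t' • ρ.map g ((1 : ℝ), (0 : E))) =ᶠ[𝓝 t] Wt α ρ ε := by
    filter_upwards [h1] with t' ht'
    refine (finsum_eq_sum_of_support_subset _ fun g hg => ?_).symm
    simp only [Finite.coe_toFinset]
    refine ⟨t', ht'.le, lt_of_le_of_ne (wt_nonneg _ _ _) fun h0 => hg ?_⟩
    simp [← h0]
  refine ContinuousAt.congr ?_ h2
  have : Continuous fun t' : Fin 3 → X =>
      ∑ g ∈ (finite_supp hα hε (half_pos ht)).toFinset, wt α ε g t' • ρ.map g ((1 : ℝ), (0 : E)) :=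
    continuous_finsetSum _ fun g _ => (continuous_wt α ε g).smul continuous_const
  exact this.continuousAt

theorem Wt_c0 (t : Fin 3 → X) : C0 (Wt α ρ ε t) :=
  c0_finsum fun g => (cl_o.map g).c0.smul (wt_nonneg _ _ _)

theorem tl_o : Tl ((1 : ℝ), (0 : E)) := by simp [Tl]

theorem Tl.map {v : ℝ × E} (hv : Tl v) (g : G) : Tl (ρ.map g v) := by
  rw [(hv.cl.map g).tl_iff, ρ.lor_map]
  exact hv.cl.tl_iff.1 hv

theorem Wt_tl (hα : IsConvergenceAction α) (hε : 0 < ε) {t : Fin 3 → X} (ht : 0 < sep t) {g : G}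
    (hg : 0 < wt α ε g t) : Tl (Wt α ρ ε t) :=
  tl_finsum (Wt_supp hα hε ht) (fun g => (cl_o.map g).c0.smul (wt_nonneg _ _ _))
    ((tl_o.map g).smul hg)

theorem Wt_zero {t : Fin 3 → X} (h : ∀ g, ¬ 0 < wt α ε g t) : Wt α ρ ε t = 0 := by
  unfold Wt
  have : ∀ g, wt α ε g t • ρ.map g ((1 : ℝ), (0 : E)) = 0 := fun g => by
    have := le_antisymm (not_lt.1 (h g)) (wt_nonneg _ _ _)
    rw [this, zero_smul]
  simp only [this, finsum_zero]

variable (hD : DomW α Qs u ε)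

include hD

theorem Wq_supp (ℓ : X → ℝ × E) {t : Fin 3 → X} (ht : 0 < sep t) :
    (Function.support fun q => u q t • ℓ q).Finite := by
  obtain ⟨F, hF, hF'⟩ := hD.locfin t ht
  refine hF.subset fun q hq => ?_
  have h1 : 0 < u q t := lt_of_le_of_ne (hD.nonneg _ _) fun h0 => hq (by simp [← h0])
  by_cases hqQ : q ∈ Qs
  · exact hF'.self_of_nhds q hqQ h1
  · exact absurd (hD.zero q hqQ t) h1.ne'

theorem continuousAt_Wq (ℓ : X → ℝ × E) {t : Fin 3 → X} (ht : 0 < sep t) :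
    ContinuousAt (Wq u ℓ) t := by
  obtain ⟨F, hF, hF'⟩ := hD.locfin t ht
  have h2 : (fun t' => ∑ q ∈ hF.toFinset, u q t' • ℓ q) =ᶠ[𝓝 t] Wq u ℓ := by
    filter_upwards [hF'] with t' ht'
    refine (finsum_eq_sum_of_support_subset _ fun q hq => ?_).symm
    simp only [Finite.coe_toFinset]
    have h1 : 0 < u q t' := lt_of_le_of_ne (hD.nonneg _ _) fun h0 => hq (by simp [← h0])
    by_cases hqQ : q ∈ Qs
    · exact ht' q hqQ h1
    · exact absurd (hD.zero q hqQ t') h1.ne'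
  refine ContinuousAt.congr ?_ h2
  exact tendsto_finsetSum _ fun q _ => (hD.cont q t ht).smul continuousAt_const

/-- If the weight of `q` is positive, it is the only one. -/
theorem Wq_eq {t : Fin 3 → X} (ht : 0 < sep t) {q : X} (hq : q ∈ Qs) (h : 0 < u q t) :
    Wq u ℓ t = u q t • ℓ q := by
  unfold Wq
  refine finsum_eq_single _ q fun q' hq' => ?_
  by_cases hqQ : q' ∈ Qs
  · have h1 := hD.disj q hq q' hqQ (Ne.symm hq') t ht h
    have h2 := le_antisymm (not_lt.1 h1) (hD.nonneg q' t)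
    simp [h2]
  · simp [hD.zero q' hqQ t]

theorem Wq_zero {t : Fin 3 → X} (h : ∀ q ∈ Qs, ¬ 0 < u q t) : Wq u ℓ t = 0 := by
  unfold Wq
  have : ∀ q, u q t • ℓ q = 0 := fun q => by
    by_cases hqQ : q ∈ Qs
    · have h2 := le_antisymm (not_lt.1 (h q hqQ)) (hD.nonneg q t)
      simp [h2]
    · simp [hD.zero q hqQ t]
  simp only [this, finsum_zero]

variable (hT : TarW ρ α Qs ℓ κ c₀)

theorem continuousAt_W {t : Fin 3 → X} (ht : 0 < sep t) : ContinuousAt (W α ρ u ℓ ε) t :=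
  (continuousAt_Wt hD.conv hD.pos ht).add (continuousAt_Wq hD ℓ ht)

include hT

theorem Wq_c0 (t : Fin 3 → X) : C0 (Wq u ℓ t) := by
  refine c0_finsum fun q => ?_
  by_cases hqQ : q ∈ Qs
  · exact (hT.cl q hqQ).c0.smul (hD.nonneg q t)
  · simp [hD.zero q hqQ t, C0]

/-- The map is timelike at triples in the thick part. -/
theorem W_tl {t : Fin 3 → X} (ht : 0 < sep t) {g : G} (hg : 0 < wt α ε g t) :
    Tl (W α ρ u ℓ ε t) := by
  unfold W
  rw [add_comm]
  exact (Wq_c0 hD hT t).tl_add (Wt_tl hD.conv hD.pos ht hg)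

/-- The map takes values in the closed cone. -/
theorem W_cl {t : Fin 3 → X} (ht : 0 < sep t) : Cl (W α ρ u ℓ ε t) := by
  rcases hD.cover t ht with ⟨g, hg⟩ | ⟨q, hq, hu⟩
  · refine (W_tl hD hT ht (g := g⁻¹) (wt_pos.2 ?_)).cl
    rw [inv_inv]
    linarith [hD.pos]
  · unfold W
    refine (Wt_c0 t).cl_add ?_
    rw [Wq_eq hD ht hq hu]
    exact (hT.cl q hq).smul hu

/-- At points where the map is null, it is the light vector of a parabolic point. -/
theorem W_null {t : Fin 3 → X} (ht : 0 < sep t) (h : ¬ Tl (W α ρ u ℓ ε t)) :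
    ∃ q ∈ Qs, 0 < u q t ∧ W α ρ u ℓ ε t = u q t • ℓ q := by
  have h1 : ∀ g, ¬ 0 < wt α ε g t := fun g hg => h (W_tl hD hT ht hg)
  have h2 : Wt α ρ ε t = 0 := Wt_zero h1
  by_cases h3 : ∃ q ∈ Qs, 0 < u q t
  · obtain ⟨q, hq, hu⟩ := h3
    refine ⟨q, hq, hu, ?_⟩
    unfold W
    rw [h2, zero_add, Wq_eq hD ht hq hu]
  · exfalso
    push Not at h3
    have h4 : Wq u ℓ t = 0 := Wq_zero hD fun q hq => not_lt.2 (h3 q hq)
    have h5 := (W_cl hD hT ht).2
    unfold W at h5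
    rw [h2, h4] at h5
    simp at h5

/-- The thick part is not zero where the map is timelike. -/
theorem W_thick {t : Fin 3 → X} (ht : 0 < sep t) (h : Tl (W α ρ u ℓ ε t)) :
    ∃ g, 0 < wt α ε g t := by
  by_contra hcon
  push Not at hcon
  have h2 : Wt α ρ ε t = 0 := Wt_zero fun g => not_lt.2 (hcon g)
  have h3 := h.cl.tl_iff.1 h
  unfold W at h3
  rw [h2, zero_add] at h3
  by_cases h4 : ∃ q ∈ Qs, 0 < u q t
  · obtain ⟨q, hq, hu⟩ := h4
    rw [Wq_eq hD ht hq hu, lor_smul_left, lor_smul_right, hT.null q hq] at h3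
    simp at h3
  · push Not at h4
    rw [Wq_zero hD fun q hq => not_lt.2 (h4 q hq)] at h3
    simp [lor] at h3

/-- The depth in the horoball of `q`. -/
theorem W_depth {t : Fin 3 → X} (ht : 0 < sep t) {q : X} (hq : q ∈ Qs) (hu : 0 < u q t) :
    2 * u q t * lor (W α ρ u ℓ ε t) (ℓ q) ≤ lor (W α ρ u ℓ ε t) (W α ρ u ℓ ε t) := by
  unfold W
  rw [Wq_eq hD ht hq hu]
  simp only [lor_add_left, lor_add_right, lor_smul_left, lor_smul_right]
  rw [hT.null q hq, lor_comm (ℓ q) (Wt α ρ ε t)]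
  have h1 : 0 ≤ lor (Wt α ρ ε t) (Wt α ρ ε t) := (Wt_c0 t).lor_nonneg (Wt_c0 t)
  nlinarith

theorem W_act {t : Fin 3 → X} (ht : 0 < sep t) (h : G) :
    W α ρ u ℓ ε (act α h t) = ρ.map h (W α ρ u ℓ ε t) := by
  unfold W
  rw [map_add]
  congr 1
  · unfold Wt
    rw [← finsum_comp_equiv (Equiv.mulLeft h)]
    have h2 := AddMonoidHom.map_finsum ((ρ.map h).toAddMonoidHom)
      (Wt_supp (ρ := ρ) hD.conv hD.pos ht)
    have h3 : ρ.map h (∑ᶠ g, wt α ε g t • ρ.map g (1, 0)) =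
        ∑ᶠ g, ρ.map h (wt α ε g t • ρ.map g (1, 0)) := h2
    rw [h3]
    refine finsum_congr fun g => ?_
    simp only [Equiv.coe_mulLeft]
    rw [wt_act, inv_mul_cancel_left, map_smul, ρ.map_mul]
  · unfold Wq
    rw [← finsum_comp_equiv (α h).toEquiv]
    have h2 := AddMonoidHom.map_finsum ((ρ.map h).toAddMonoidHom) (Wq_supp hD ℓ ht)
    have h3 : ρ.map h (∑ᶠ q, u q t • ℓ q) = ∑ᶠ q, ρ.map h (u q t • ℓ q) := h2
    rw [h3]
    refine finsum_congr fun q => ?_
    change u (α h q) (act α h t) • ℓ (α h q) = _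
    rw [hD.move, map_smul]
    by_cases hq : q ∈ Qs
    · rw [hT.move q hq]
    · rw [hD.zero q hq, zero_smul, zero_smul]

end W

end Pool.Agent.H72.Rel
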