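import Pool.Agent.H72.Rel.R8

/-!
# Finiteness of the sets of weights
-/

set_option autoImplicit false

open Filter Topology Set Metric Pool.Agent.TH631.RC
open Pool.Agent.TH289.C (sep act wt wt_nonneg wt_pos continuous_wt finite_supp IsConvergenceAction
  wt_act continuous_sep act_mul act_one)

namespace Pool.Agent.H72.Rel

section Nm

variable {E : Type} [NormedAddCommGroup E] [InnerProductSpace ℝ E]

/-- The Lorentz length. -/
noncomputable def nm (v : ℝ × E) : ℝ := √(lor v v)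

theorem continuous_nm : Continuous (nm : ℝ × E → ℝ) := by
  unfold nm
  exact Real.continuous_sqrt.comp (continuous_lor.comp (continuous_id.prodMk continuous_id))

theorem nm_nonneg (v : ℝ × E) : 0 ≤ nm v := Real.sqrt_nonneg _

theorem nm_sq {v : ℝ × E} (hv : Cl v) : nm v ^ 2 = lor v v := Real.sq_sqrt hv.lor_nonneg_self

theorem Tl.nm_pos {v : ℝ × E} (hv : Tl v) : 0 < nm v := Real.sqrt_pos.2 (hv.cl.tl_iff.1 hv)

theorem nm_smul {c : ℝ} (hc : 0 ≤ c) (v : ℝ × E) : nm (c • v) = c * nm v := by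
  unfold nm
  rw [lor_smul_left, lor_smul_right, ← mul_assoc, Real.sqrt_mul (mul_self_nonneg c),
    Real.sqrt_mul_self hc]

theorem nm_zero {v : ℝ × E} (hv : Cl v) (h : ¬ Tl v) : nm v = 0 := by
  unfold nm
  rw [Real.sqrt_eq_zero']
  rw [hv.tl_iff] at h
  exact not_lt.1 h

variable {G : Type} [Group G] {ρ : HypAction G E}

theorem nm_map (g : G) (v : ℝ × E) : nm (ρ.map g v) = nm v := by
  unfold nm
  rw [ρ.lor_map]

end Nm

section Fin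

variable {E : Type} [NormedAddCommGroup E] [InnerProductSpace ℝ E]
variable {G : Type} [Group G] {X : Type} [MetricSpace X]
variable {α : G →* (X ≃ₜ X)} {ρ : HypAction G E} {Qs : Set X} {u : X → (Fin 3 → X) → ℝ}
  {ℓ : X → ℝ × E} {ε κ c₀ : ℝ}

theorem only_cusp (hT : TarW ρ α Qs ℓ κ c₀) {w : ℝ × E} (hw : Tl w) {q : X} (hq : q ∈ Qs)
    {κ' : ℝ} (h : lor w (ℓ q) ≤ κ' * nm w) {q' : X} (hq' : q' ∈ Qs) (hne : q' ≠ q) :
    κ * nm w ≤ 2 * κ' * lor w (ℓ q') := by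
  have h1 := hw.pair (hT.cl q hq) (hT.cl q' hq')
  have h2 := hT.sep q hq q' hq' (Ne.symm hne)
  have h3 := hw.nm_pos
  rw [← nm_sq hw.cl] at h1
  have h4 : 0 ≤ lor w (ℓ q') := hw.cl.lor_nonneg (hT.cl q' hq')
  have h5 : nm w * (κ * nm w) ≤ nm w * (2 * κ' * lor w (ℓ q')) := by
    calc nm w * (κ * nm w) = nm w ^ 2 * κ := by ring
      _ ≤ nm w ^ 2 * lor (ℓ q) (ℓ q') := by gcongr
      _ ≤ 2 * (lor w (ℓ q) * lor w (ℓ q')) := h1
      _ ≤ 2 * (κ' * nm w * lor w (ℓ q')) := by gcongr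
      _ = nm w * (2 * κ' * lor w (ℓ q')) := by ring
  exact le_of_mul_le_mul_left h5 h3

theorem only_cusp' (hQ : ∀ q ∈ Qs, ∀ g, α g q ∈ Qs) (hT : TarW ρ α Qs ℓ κ c₀) {w : ℝ × E}
    (hw : Tl w) {q : X} (hq : q ∈ Qs) {κ' : ℝ} (h : lor w (ℓ q) ≤ κ' * nm w) (g : G) :
    c₀ * nm w ≤ 2 * κ' * lor w (ρ.map g (1, 0)) := by
  have h1 := hw.pair (hT.cl q hq) (cl_o.map (ρ := ρ) g)
  have h2 : c₀ ≤ lor (ℓ q) (ρ.map g (1, 0)) := by
    rw [lor_comm, lor_adj, hT.move q hq, lor_comm, lor_o]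
    exact hT.low _ (hQ q hq _)
  have h3 := hw.nm_pos
  rw [← nm_sq hw.cl] at h1
  have h4 : 0 ≤ lor w (ρ.map g (1, 0)) := hw.cl.lor_nonneg (cl_o.map (ρ := ρ) g)
  have h5 : nm w * (c₀ * nm w) ≤ nm w * (2 * κ' * lor w (ρ.map g (1, 0))) := by
    calc nm w * (c₀ * nm w) = nm w ^ 2 * c₀ := by ring
      _ ≤ nm w ^ 2 * lor (ℓ q) (ρ.map g (1, 0)) := by gcongr
      _ ≤ 2 * (lor w (ℓ q) * lor w (ρ.map g (1, 0))) := h1
      _ ≤ 2 * (κ' * nm w * lor w (ρ.map g (1, 0))) := by gcongr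
      _ = nm w * (2 * κ' * lor w (ρ.map g (1, 0))) := by ring
  exact le_of_mul_le_mul_left h5 h3

omit [Group G] in
theorem compact_thick [CompactSpace X] (ε : ℝ) : IsCompact {t : Fin 3 → X | ε / 2 ≤ sep t} :=
  (isClosed_le continuous_const continuous_sep).isCompact

variable (hD : DomW α Qs u ε) (hT : TarW ρ α Qs ℓ κ c₀)

include hD hT

theorem near_null {t : Fin 3 → X} (ht : 0 < sep t) (hnt : ¬ Tl (W α ρ u ℓ ε t)) {q : X}
    (hq : q ∈ Qs) (hu : 0 < u q t) {κ' : ℝ} (hκ' : 0 < κ') : ∀ᶠ t' in 𝓝 t, 0 < sep t' ∧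
      0 < u q t' ∧ lor (W α ρ u ℓ ε t') (ℓ q) ≤ κ' * nm (W α ρ u ℓ ε t') := by
  have h1 : ∀ᶠ t' in 𝓝 t, 0 < sep t' := continuous_sep.continuousAt.eventually_const_lt ht
  have h2 : ∀ᶠ t' in 𝓝 t, 0 < u q t' := (hD.cont q t ht).eventually_const_lt hu
  have h3 : ContinuousAt (fun t' => nm (W α ρ u ℓ ε t')) t :=
    ContinuousAt.comp (g := nm) (f := W α ρ u ℓ ε) continuous_nm.continuousAt
      (continuousAt_W hD ht)
  have h4 : ContinuousAt (fun t' => κ' * (2 * u q t') - nm (W α ρ u ℓ ε t')) t :=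
    (continuousAt_const.mul (continuousAt_const.mul (hD.cont q t ht))).sub h3
  have h5 : ∀ᶠ t' in 𝓝 t, 0 < κ' * (2 * u q t') - nm (W α ρ u ℓ ε t') := by
    refine h4.eventually_const_lt ?_
    change 0 < κ' * (2 * u q t) - nm (W α ρ u ℓ ε t)
    rw [nm_zero (W_cl hD hT ht) hnt, sub_zero]
    positivity
  filter_upwards [h1, h2, h5] with t' e1 e2 e3
  refine ⟨e1, e2, ?_⟩
  have h6 := W_depth hD hT e1 hq e2
  have h7 := nm_nonneg (W α ρ u ℓ ε t')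
  rw [← nm_sq (W_cl hD hT e1)] at h6
  have h8 : nm (W α ρ u ℓ ε t') ^ 2 ≤ nm (W α ρ u ℓ ε t') * (κ' * (2 * u q t')) := by
    rw [sq]
    exact mul_le_mul_of_nonneg_left (by linarith) h7
  have h9 : 2 * u q t' * lor (W α ρ u ℓ ε t') (ℓ q) ≤
      2 * u q t' * (κ' * nm (W α ρ u ℓ ε t')) := by linarith
  exact le_of_mul_le_mul_left h9 (by positivity)

theorem loc_fin (R κ₁ : ℝ) (hR : 0 < R) (hκ₁ : 0 < κ₁) {t : Fin 3 → X} (ht : 0 < sep t) :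
    ∃ (F₁ : Set G) (F₂ : Set X), F₁.Finite ∧ F₂.Finite ∧ ∀ᶠ t' in 𝓝 t, Tl (W α ρ u ℓ ε t') →
      (∀ g, lor (W α ρ u ℓ ε t') (ρ.map g (1, 0)) < R * nm (W α ρ u ℓ ε t') → g ∈ F₁) ∧
      ∀ q ∈ Qs, lor (W α ρ u ℓ ε t') (ℓ q) < κ₁ * nm (W α ρ u ℓ ε t') → q ∈ F₂ := by
  by_cases htl : Tl (W α ρ u ℓ ε t)
  · set a := (W α ρ u ℓ ε t).1 - ‖(W α ρ u ℓ ε t).2‖ with ha
    have ha0 : 0 < a := sub_pos.2 htl
    set N := nm (W α ρ u ℓ ε t) + 1 with hN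
    have hWc := continuousAt_W (ρ := ρ) (ℓ := ℓ) hD ht
    have h1 : ∀ᶠ t' in 𝓝 t, a / 2 < (W α ρ u ℓ ε t').1 - ‖(W α ρ u ℓ ε t').2‖ := by
      have : ContinuousAt (fun t' => (W α ρ u ℓ ε t').1 - ‖(W α ρ u ℓ ε t').2‖) t :=
        (continuous_fst.continuousAt.comp hWc).sub (continuous_snd.continuousAt.comp hWc).norm
      refine this.eventually_const_lt ?_
      change a / 2 < a
      linarith
    have h2 : ∀ᶠ t' in 𝓝 t, nm (W α ρ u ℓ ε t') < N := by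
      have : ContinuousAt (fun t' => nm (W α ρ u ℓ ε t')) t :=
        ContinuousAt.comp (g := nm) (f := W α ρ u ℓ ε) continuous_nm.continuousAt hWc
      refine this.eventually_lt_const ?_
      change nm (W α ρ u ℓ ε t) < nm (W α ρ u ℓ ε t) + 1
      linarith
    have hN0 : 0 < N := by
      have := nm_nonneg (W α ρ u ℓ ε t)
      rw [hN]; linarith
    refine ⟨{g | T ρ g ≤ 2 * R * N / a}, {q | q ∈ Qs ∧ (ℓ q).1 ≤ 2 * κ₁ * N / a},
      hT.hfin _, hT.fin _, ?_⟩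
    filter_upwards [h1, h2] with t' e1 e2 htl'
    refine ⟨fun g hg => ?_, fun q hq hqq => ⟨hq, ?_⟩⟩
    · have h3 := (cl_o.map (ρ := ρ) g).lor_ge (v := W α ρ u ℓ ε t')
      change _ * T ρ g ≤ _ at h3
      have h4 : a / 2 * T ρ g ≤ _ := mul_le_mul_of_nonneg_right e1.le (T_pos (ρ := ρ) g).le
      have h5 : R * nm (W α ρ u ℓ ε t') ≤ R * N := mul_le_mul_of_nonneg_left e2.le hR.le
      change T ρ g ≤ _
      rw [le_div_iff₀ ha0]
      linarith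
    · have h3 := (hT.cl q hq).lor_ge (v := W α ρ u ℓ ε t')
      have h4 : a / 2 * (ℓ q).1 ≤ _ := mul_le_mul_of_nonneg_right e1.le (hT.cl q hq).2.le
      have h5 : κ₁ * nm (W α ρ u ℓ ε t') ≤ κ₁ * N := mul_le_mul_of_nonneg_left e2.le hκ₁.le
      rw [le_div_iff₀ ha0]
      linarith
  · obtain ⟨q, hq, hu, -⟩ := W_null hD hT ht htl
    set κ' := min (κ / (2 * κ₁)) (c₀ / (2 * R)) with hκ'
    have hκ'0 : 0 < κ' := lt_min (div_pos hT.κpos (by positivity)) (div_pos hT.c₀pos (by positivity))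
    have hk1 : 2 * κ' * κ₁ ≤ κ := by
      have : κ' ≤ κ / (2 * κ₁) := min_le_left _ _
      rw [le_div_iff₀ (by positivity)] at this
      linarith
    have hk2 : 2 * κ' * R ≤ c₀ := by
      have : κ' ≤ c₀ / (2 * R) := min_le_right _ _
      rw [le_div_iff₀ (by positivity)] at this
      linarith
    refine ⟨∅, {q}, Set.finite_empty, Set.finite_singleton q, ?_⟩
    filter_upwards [near_null hD hT ht htl hq hu hκ'0] with t' e1 htl'
    have hn := htl'.nm_pos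
    refine ⟨fun g hg => ?_, fun q' hq' hqq => ?_⟩
    · exfalso
      have h1 := only_cusp' hD.inv hT htl' hq e1.2.2 g
      have h2 : 2 * κ' * lor (W α ρ u ℓ ε t') (ρ.map g (1, 0)) <
          2 * κ' * (R * nm (W α ρ u ℓ ε t')) := mul_lt_mul_of_pos_left hg (by positivity)
      have h3 : 2 * κ' * R * nm (W α ρ u ℓ ε t') ≤ c₀ * nm (W α ρ u ℓ ε t') :=
        mul_le_mul_of_nonneg_right hk2 hn.le
      linarith
    · by_contra hne
      have h1 := only_cusp hT htl' hq e1.2.2 hq' hne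
      have h2 : 2 * κ' * lor (W α ρ u ℓ ε t') (ℓ q') <
          2 * κ' * (κ₁ * nm (W α ρ u ℓ ε t')) := mul_lt_mul_of_pos_left hqq (by positivity)
      have h3 : 2 * κ' * κ₁ * nm (W α ρ u ℓ ε t') ≤ κ * nm (W α ρ u ℓ ε t') :=
        mul_le_mul_of_nonneg_right hk1 hn.le
      linarith

/-- Finitely many weights on the thick part. -/
theorem glob_fin [CompactSpace X] (R κ₁ : ℝ) (hR : 0 < R) (hκ₁ : 0 < κ₁) :
    ∃ (F₁ : Set G) (F₂ : Set X), F₁.Finite ∧ F₂.Finite ∧ ∀ t ∈ {t : Fin 3 → X | ε / 2 ≤ sep t},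
      Tl (W α ρ u ℓ ε t) →
      (∀ g, lor (W α ρ u ℓ ε t) (ρ.map g (1, 0)) < R * nm (W α ρ u ℓ ε t) → g ∈ F₁) ∧
      ∀ q ∈ Qs, lor (W α ρ u ℓ ε t) (ℓ q) < κ₁ * nm (W α ρ u ℓ ε t) → q ∈ F₂ := by
  refine (compact_thick (X := X) ε).induction_on (p := fun S => ∃ (F₁ : Set G) (F₂ : Set X),
    F₁.Finite ∧ F₂.Finite ∧ ∀ t ∈ S, Tl (W α ρ u ℓ ε t) →
      (∀ g, lor (W α ρ u ℓ ε t) (ρ.map g (1, 0)) < R * nm (W α ρ u ℓ ε t) → g ∈ F₁) ∧
      ∀ q ∈ Qs, lor (W α ρ u ℓ ε t) (ℓ q) < κ₁ * nm (W α ρ u ℓ ε t) → q ∈ F₂) ?_ ?_ ?_ ?_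
  · exact ⟨∅, ∅, Set.finite_empty, Set.finite_empty, fun t ht => absurd ht (Set.notMem_empty t)⟩
  · rintro S S' hSS' ⟨F₁, F₂, h1, h2, h3⟩
    exact ⟨F₁, F₂, h1, h2, fun t ht => h3 t (hSS' ht)⟩
  · rintro S S' ⟨F₁, F₂, h1, h2, h3⟩ ⟨F₁', F₂', h1', h2', h3'⟩
    refine ⟨F₁ ∪ F₁', F₂ ∪ F₂', h1.union h1', h2.union h2', ?_⟩
    rintro t (ht | ht) htl
    · exact ⟨fun g hg => Or.inl ((h3 t ht htl).1 g hg), fun q hq hqq =>
        Or.inl ((h3 t ht htl).2 q hq hqq)⟩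
    · exact ⟨fun g hg => Or.inr ((h3' t ht htl).1 g hg), fun q hq hqq =>
        Or.inr ((h3' t ht htl).2 q hq hqq)⟩
  · intro t ht
    have ht' : ε / 2 ≤ sep t := ht
    have ht0 : 0 < sep t := lt_of_lt_of_le (half_pos hD.pos) ht'
    obtain ⟨F₁, F₂, h1, h2, h3⟩ := loc_fin hD hT R κ₁ hR hκ₁ ht0
    exact ⟨_, mem_nhdsWithin_of_mem_nhds h3, F₁, F₂, h1, h2, fun t' ht' => ht'⟩

/-- Points of the thick part are in a bounded region or in a horoball. -/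
theorem glob_bdd [CompactSpace X] {κ' : ℝ} (hκ' : 0 < κ') : ∃ R : ℝ, 0 < R ∧
    ∀ t ∈ {t : Fin 3 → X | ε / 2 ≤ sep t}, Tl (W α ρ u ℓ ε t) →
      (∃ q ∈ Qs, lor (W α ρ u ℓ ε t) (ℓ q) < κ' * nm (W α ρ u ℓ ε t)) ∨
      (W α ρ u ℓ ε t).1 < R * nm (W α ρ u ℓ ε t) := by
  refine (compact_thick (X := X) ε).induction_on (p := fun S => ∃ R : ℝ, 0 < R ∧
    ∀ t ∈ S, Tl (W α ρ u ℓ ε t) →
      (∃ q ∈ Qs, lor (W α ρ u ℓ ε t) (ℓ q) < κ' * nm (W α ρ u ℓ ε t)) ∨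
      (W α ρ u ℓ ε t).1 < R * nm (W α ρ u ℓ ε t)) ?_ ?_ ?_ ?_
  · exact ⟨1, one_pos, fun t ht => absurd ht (Set.notMem_empty t)⟩
  · rintro S S' hSS' ⟨R, hR, h⟩
    exact ⟨R, hR, fun t ht => h t (hSS' ht)⟩
  · rintro S S' ⟨R, hR, h⟩ ⟨R', hR', h'⟩
    refine ⟨max R R', lt_max_of_lt_left hR, ?_⟩
    rintro t (ht | ht) htl
    · rcases h t ht htl with h1 | h1
      · exact Or.inl h1
      · exact Or.inr (h1.trans_le (mul_le_mul_of_nonneg_right (le_max_left _ _) (nm_nonneg _)))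
    · rcases h' t ht htl with h1 | h1
      · exact Or.inl h1
      · exact Or.inr (h1.trans_le (mul_le_mul_of_nonneg_right (le_max_right _ _) (nm_nonneg _)))
  · intro t ht
    have ht' : ε / 2 ≤ sep t := ht
    have ht0 : 0 < sep t := lt_of_lt_of_le (half_pos hD.pos) ht'
    suffices h : ∃ R : ℝ, 0 < R ∧ ∀ᶠ t' in 𝓝 t, Tl (W α ρ u ℓ ε t') →
      (∃ q ∈ Qs, lor (W α ρ u ℓ ε t') (ℓ q) < κ' * nm (W α ρ u ℓ ε t')) ∨
      (W α ρ u ℓ ε t').1 < R * nm (W α ρ u ℓ ε t') by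
      obtain ⟨R, hR, h⟩ := h
      exact ⟨_, mem_nhdsWithin_of_mem_nhds h, R, hR, fun t' ht' => ht'⟩
    have hWc := continuousAt_W (ρ := ρ) (ℓ := ℓ) hD ht0
    by_cases htl : Tl (W α ρ u ℓ ε t)
    · have hm := htl.nm_pos
      have h1 : ∀ᶠ t' in 𝓝 t, nm (W α ρ u ℓ ε t) / 2 < nm (W α ρ u ℓ ε t') := by
        have : ContinuousAt (fun t' => nm (W α ρ u ℓ ε t')) t :=
          ContinuousAt.comp (g := nm) (f := W α ρ u ℓ ε) continuous_nm.continuousAt hWc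
        refine this.eventually_const_lt ?_
        change nm (W α ρ u ℓ ε t) / 2 < nm (W α ρ u ℓ ε t)
        linarith
      have h2 : ∀ᶠ t' in 𝓝 t, (W α ρ u ℓ ε t').1 < (W α ρ u ℓ ε t).1 + 1 :=
        (continuous_fst.continuousAt.comp hWc).eventually_lt_const (by simp)
      have h3 : 0 < (W α ρ u ℓ ε t).1 := htl.cl.2
      refine ⟨((W α ρ u ℓ ε t).1 + 1) / (nm (W α ρ u ℓ ε t) / 2), by positivity, ?_⟩
      filter_upwards [h1, h2] with t' e1 e2 _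
      right
      refine e2.trans ?_
      rw [div_mul_eq_mul_div, lt_div_iff₀ (by positivity)]
      exact mul_lt_mul_of_pos_left e1 (by positivity)
    · obtain ⟨q, hq, hu, -⟩ := W_null hD hT ht0 htl
      refine ⟨1, one_pos, ?_⟩
      filter_upwards [near_null hD hT ht0 htl hq hu (half_pos hκ')] with t' e1 htl'
      left
      refine ⟨q, hq, e1.2.2.trans_lt ?_⟩
      have := htl'.nm_pos
      exact mul_lt_mul_of_pos_right (by linarith) this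

/-- Every timelike value is in a horoball or near the orbit of the base point. -/
theorem glob_pos [CompactSpace X] {κ' : ℝ} (hκ' : 0 < κ') : ∃ R : ℝ, 0 < R ∧
    ∀ t : Fin 3 → X, 0 < sep t → Tl (W α ρ u ℓ ε t) →
      (∃ q ∈ Qs, lor (W α ρ u ℓ ε t) (ℓ q) < κ' * nm (W α ρ u ℓ ε t)) ∨
      ∃ g, lor (W α ρ u ℓ ε t) (ρ.map g (1, 0)) < R * nm (W α ρ u ℓ ε t) := by
  obtain ⟨R, hR, h⟩ := glob_bdd hD hT hκ'
  refine ⟨R, hR, fun t ht htl => ?_⟩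
  obtain ⟨g, hg⟩ := W_thick hD hT ht htl
  have hs : act α g⁻¹ t ∈ {t : Fin 3 → X | ε / 2 ≤ sep t} := (wt_pos.1 hg).le
  have hW := W_act hD hT ht g⁻¹
  have htl' : Tl (W α ρ u ℓ ε (act α g⁻¹ t)) := by rw [hW]; exact htl.map g⁻¹
  rcases h _ hs htl' with ⟨q, hq, h1⟩ | h1
  · left
    refine ⟨α g q, hD.inv q hq g, ?_⟩
    rw [hW, nm_map, lor_adj, inv_inv, hT.move q hq] at h1
    exact h1
  · right
    refine ⟨g, ?_⟩
    rw [hW, nm_map, ← lor_o, lor_adj, inv_inv] at h1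
    exact h1

end Fin

end Pool.Agent.H72.Rel
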